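import Mathlib

/-!
# The combinatorial core: a Lehman-type counting argument for clutters with circuits of size 3 or 4
-/

set_option autoImplicit false
set_option linter.unusedSectionVars false
set_option linter.style.haveILetI false

namespace Pool.Agent.Helper57.Met

variable {α ι : Type*} [Fintype α] [DecidableEq α] [Fintype ι]

/-- indicator vector -/
def ind (C : Finset α) : α → ℝ := fun e => if e ∈ C then 1 else 0

theorem dot_ind (z : α → ℝ) (C : Finset α) : z ⬝ᵥ ind C = ∑ e ∈ C, z e := by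
  unfold dotProduct ind
  simp [Finset.sum_ite_mem]

theorem ind_injective : Function.Injective (ind : Finset α → α → ℝ) := by
  intro C D h
  ext e
  have := congrFun h e
  unfold ind at this
  by_cases h1 : e ∈ C <;> by_cases h2 : e ∈ D <;> simp_all

theorem sum_ind (C D : Finset α) : ∑ e ∈ C, ind D e = ((C ∩ D).card : ℝ) := by
  unfold ind
  rw [Finset.sum_ite_mem]
  simp

theorem ortho_sum {κ κ' : Type*} {v : κ → α → ℝ} {w : κ' → α → ℝ} (hv : LinearIndependent ℝ v)
    (hw : LinearIndependent ℝ w) (h : ∀ i j, v i ⬝ᵥ w j = 0) :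
    LinearIndependent ℝ (Sum.elim v w) := by
  apply LinearIndependent.sum_type hv hw
  rw [Submodule.disjoint_def]
  intro x hx hy
  have h1 : ∀ i, ∀ y ∈ Submodule.span ℝ (Set.range w), v i ⬝ᵥ y = 0 := by
    intro i y hy
    induction hy using Submodule.span_induction with
    | mem y hy => obtain ⟨j, rfl⟩ := hy; exact h i j
    | zero => simp
    | add y z _ _ h1 h2 => rw [dotProduct_add, h1, h2, add_zero]
    | smul a y _ h1 => rw [dotProduct_smul, h1, smul_zero]
  have h2 : ∀ z ∈ Submodule.span ℝ (Set.range v), z ⬝ᵥ x = 0 := by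
    intro z hz
    induction hz using Submodule.span_induction with
    | mem z hz => obtain ⟨j, rfl⟩ := hz; exact h1 j x hy
    | zero => simp
    | add y z _ _ h1 h2 => rw [add_dotProduct, h1, h2, add_zero]
    | smul a y _ h1 => rw [smul_dotProduct, h1, smul_zero]
  exact dotProduct_self_eq_zero.1 (h2 x hx)

theorem ortho_card {κ κ' : Type*} [Fintype κ] [Fintype κ'] {v : κ → α → ℝ} {w : κ' → α → ℝ}
    (hv : LinearIndependent ℝ v) (hw : LinearIndependent ℝ w) (h : ∀ i j, v i ⬝ᵥ w j = 0)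
    (u : α → ℝ) (hu : u ≠ 0) (hvu : ∀ i, v i ⬝ᵥ u = 0) (hwu : ∀ j, w j ⬝ᵥ u = 0) :
    Fintype.card κ + Fintype.card κ' + 1 ≤ Fintype.card α := by
  have h1 := ortho_sum hv hw h
  have h2 : LinearIndependent ℝ (fun _ : Unit => u) := linearIndependent_unique_iff.2 hu
  have h3 := ortho_sum h1 h2 (by
    rintro (i | j) _
    · exact hvu i
    · exact hwu j)
  have h4 := h3.fintype_card_le_finrank
  simpa using h4

/-- The hypotheses of the core lemma: `𝒯` = tight circuits, `b` = signatures of the cuts. -/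
structure CoreHyp (𝒯 : Finset (Finset α)) (b : ι → Finset α) (s : α → ℝ) : Prop where
  pos : ∀ e, 0 < s e
  size : ∀ C ∈ 𝒯, C.card = 3 ∨ C.card = 4
  tight : ∀ C ∈ 𝒯, ∑ e ∈ C, s e = 1
  odd : ∀ C ∈ 𝒯, ∀ i, Odd (C ∩ b i).card
  span : ∀ z : α → ℝ, (∀ C ∈ 𝒯, ∑ e ∈ C, z e = 0) → z = 0
  conv : ∀ e0, ∃ w : ι → ℝ, (∀ i, 0 ≤ w i) ∧ ∑ i, w i = 1 ∧
    ∀ e, e ≠ e0 → ∑ i, w i * ind (b i) e = s e

variable {𝒯 : Finset (Finset α)} {b : ι → Finset α} {s : α → ℝ}

theorem exists_basis (h : CoreHyp 𝒯 b s) : ∃ 𝒞 ⊆ 𝒯, 𝒞.card = Fintype.card α ∧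
    LinearIndependent ℝ (fun C : {C // C ∈ 𝒞} => (ind C.1 : α → ℝ)) ∧
    ∀ z : α → ℝ, (∀ C ∈ 𝒞, ∑ e ∈ C, z e = 0) → z = 0 := by
  classical
  obtain ⟨B, hB1, hB2, hB3⟩ := exists_linearIndependent ℝ ((fun C => (ind C : α → ℝ)) '' (𝒯 : Set (Finset α)))
  have hspan : Submodule.span ℝ B = ⊤ := by
    rw [hB2]
    by_contra hne
    obtain ⟨f, hf0, hf⟩ := Submodule.exists_le_ker_of_lt_top _ (lt_top_iff_ne_top.2 hne)
    have hfz : ∀ v : α → ℝ, f v = v ⬝ᵥ (fun e => f (Pi.single e 1)) := by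
      intro v
      rw [LinearMap.pi_apply_eq_sum_univ f v]
      unfold dotProduct
      simp only [smul_eq_mul]
      refine Finset.sum_congr rfl fun e _ => ?_
      have h9 : (fun j => if e = j then (1:ℝ) else 0) = Pi.single e 1 := by
        funext j; rw [Pi.single_apply]; simp only [eq_comm]
      rw [h9]
    have hz := h.span (fun e => f (Pi.single e 1)) (by
      intro C hC
      rw [← dot_ind, dotProduct_comm, ← hfz]
      exact hf (Submodule.subset_span ⟨C, hC, rfl⟩))
    apply hf0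
    ext v
    simp
    exact congrFun hz v
  set 𝒞 := 𝒯.filter (fun C => (ind C : α → ℝ) ∈ B) with h𝒞
  have hrange : Set.range (fun C : {C // C ∈ 𝒞} => (ind C.1 : α → ℝ)) = B := by
    ext v
    constructor
    · rintro ⟨⟨C, hC⟩, rfl⟩
      rw [h𝒞, Finset.mem_filter] at hC
      exact hC.2
    · intro hv
      obtain ⟨C, hC, hCv⟩ := hB1 hv
      refine ⟨⟨C, ?_⟩, hCv⟩
      rw [h𝒞, Finset.mem_filter]
      refine ⟨hC, ?_⟩
      simp only at hCv
      rw [hCv]; exact hv
  have hLI : LinearIndependent ℝ (fun C : {C // C ∈ 𝒞} => (ind C.1 : α → ℝ)) := by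
    have hmem : ∀ C : {C // C ∈ 𝒞}, (ind C.1 : α → ℝ) ∈ B := by
      intro C; rw [← hrange]; exact ⟨C, rfl⟩
    exact hB3.comp (fun C : {C // C ∈ 𝒞} => (⟨ind C.1, hmem C⟩ : B)) (by
      intro C D hCD
      have := congrArg Subtype.val hCD
      exact Subtype.ext (ind_injective this))
  have htop : ⊤ ≤ Submodule.span ℝ (Set.range (fun C : {C // C ∈ 𝒞} => (ind C.1 : α → ℝ))) := by
    rw [hrange, hspan]
  refine ⟨𝒞, Finset.filter_subset _ _, ?_, hLI, ?_⟩
  · have := Module.finrank_eq_card_basis (Module.Basis.mk hLI htop)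
    rw [Module.finrank_fintype_fun_eq_card] at this
    rw [this]; simp
  · intro z hz
    have h1 : ∀ y ∈ Submodule.span ℝ (Set.range (fun C : {C // C ∈ 𝒞} => (ind C.1 : α → ℝ))),
        z ⬝ᵥ y = 0 := by
      intro y hy
      induction hy using Submodule.span_induction with
      | mem y hy => obtain ⟨j, rfl⟩ := hy; rw [dot_ind]; exact hz _ j.2
      | zero => simp
      | add y z _ _ h1 h2 => rw [dotProduct_add, h1, h2, add_zero]
      | smul a y _ h1 => rw [dotProduct_smul, h1, smul_zero]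
    exact dotProduct_self_eq_zero.1 (h1 z (htop trivial))

/-- the choice of signatures through the elements of a circuit -/
theorem exists_beta (h : CoreHyp 𝒯 b s) {C0 : Finset α} (hC0 : C0 ∈ 𝒯) {e : α} (he : e ∉ C0) :
    ∃ β : α → ι, (∀ f ∈ C0, f ∈ b (β f)) ∧
      ∀ f ∈ C0, ∀ C ∈ 𝒯, e ∉ C → (C ∩ b (β f)).card = 1 := by
  classical
  obtain ⟨w, hw0, hw1, hw⟩ := h.conv e
  have hone : ∀ i, 0 < w i → ∀ C ∈ 𝒯, e ∉ C → (C ∩ b i).card = 1 := by
    intro i hi C hC heC
    have h1 : ∑ f ∈ C, s f = ∑ i, w i * ((C ∩ b i).card : ℝ) := by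
      calc ∑ f ∈ C, s f = ∑ f ∈ C, ∑ i, w i * ind (b i) f := by
            refine Finset.sum_congr rfl fun f hf => (hw f ?_).symm
            rintro rfl; exact heC hf
        _ = ∑ i, w i * ((C ∩ b i).card : ℝ) := by
            rw [Finset.sum_comm]
            refine Finset.sum_congr rfl fun i _ => ?_
            rw [← Finset.mul_sum, sum_ind]
    rw [h.tight C hC] at h1
    have h2 : ∑ i, w i * (((C ∩ b i).card : ℝ) - 1) = 0 := by
      simp only [mul_sub, mul_one, Finset.sum_sub_distrib]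
      rw [← h1, hw1]; ring
    have h3 : ∀ j ∈ Finset.univ, 0 ≤ w j * (((C ∩ b j).card : ℝ) - 1) := by
      intro j _
      apply mul_nonneg (hw0 j)
      have : 1 ≤ (C ∩ b j).card := (h.odd C hC j).pos
      have : (1:ℝ) ≤ ((C ∩ b j).card : ℝ) := by exact_mod_cast this
      linarith
    have h4 := (Finset.sum_eq_zero_iff_of_nonneg h3).1 h2 i (Finset.mem_univ i)
    rcases mul_eq_zero.1 h4 with h5 | h5
    · linarith
    · have : ((C ∩ b i).card : ℝ) = 1 := by linarith
      exact_mod_cast this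
  have hex : ∀ f, f ∈ C0 → ∃ i, 0 < w i ∧ f ∈ b i := by
    intro f hf
    by_contra hcon
    push Not at hcon
    have h1 := hw f (by rintro rfl; exact he hf)
    have h2 : ∑ i, w i * ind (b i) f ≤ 0 := by
      apply Finset.sum_nonpos
      intro i _
      unfold ind
      by_cases hfi : f ∈ b i
      · have h3 : w i ≤ 0 := by
          by_contra h4; push Not at h4; exact hcon i h4 hfi
        rw [if_pos hfi]; linarith
      · rw [if_neg hfi]; simp
    have := h.pos f
    linarith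
  haveI : Nonempty ι := by
    have h1 := h.size C0 hC0
    have h2 : C0.Nonempty := by
      rw [← Finset.card_pos]; omega
    obtain ⟨f, hf⟩ := h2
    obtain ⟨i, _⟩ := hex f hf
    exact ⟨i⟩
  choose! β hβ using hex
  exact ⟨β, fun f hf => (hβ f hf).2, fun f hf C hC heC => hone _ (hβ f hf).1 C hC heC⟩

theorem inter_eq_singleton {C0 : Finset α} {D : Finset α} {f : α} (hf : f ∈ C0) (hfD : f ∈ D)
    (h1 : (C0 ∩ D).card = 1) {g : α} (hg : g ∈ C0) : g ∈ D ↔ g = f := by
  rw [Finset.card_eq_one] at h1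
  obtain ⟨a, ha⟩ := h1
  have h2 : f ∈ C0 ∩ D := Finset.mem_inter.2 ⟨hf, hfD⟩
  rw [ha, Finset.mem_singleton] at h2
  subst h2
  constructor
  · intro h3
    have h4 : g ∈ C0 ∩ D := Finset.mem_inter.2 ⟨hg, h3⟩
    rw [ha, Finset.mem_singleton] at h4
    exact h4
  · rintro rfl; exact hfD

/-- The main dimension inequality, with an optional additional vector `u`. -/
theorem dim_ineq (h : CoreHyp 𝒯 b s) {𝒞 : Finset (Finset α)} (h𝒞 : 𝒞 ⊆ 𝒯)
    (hcard : 𝒞.card = Fintype.card α)
    (hLI : LinearIndependent ℝ (fun C : {C // C ∈ 𝒞} => (ind C.1 : α → ℝ)))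
    {C0 : Finset α} (hC0 : C0 ∈ 𝒯) {e : α} (he : e ∉ C0) (β : α → ι)
    (hβ1 : ∀ f ∈ C0, f ∈ b (β f))
    (hβ2 : ∀ f ∈ C0, ∀ C ∈ 𝒯, e ∉ C → (C ∩ b (β f)).card = 1) :
    C0.card ≤ (𝒞.filter (fun C => e ∈ C)).card ∧
    ∀ u : α → ℝ, u ≠ 0 → u e = 0 → (∀ g ∈ C0, u g = 0) →
      (∀ C ∈ 𝒞, e ∉ C → ∑ g ∈ C, u g = 0) →
      C0.card + 1 ≤ (𝒞.filter (fun C => e ∈ C)).card := by
  classical
  have hC0ne : C0.Nonempty := by
    have h1 := h.size C0 hC0
    rw [← Finset.card_pos]; omega
  obtain ⟨f0, hf0⟩ := hC0ne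
  -- the families
  set v : {f // f ∈ C0.erase f0} → α → ℝ := fun f g =>
    if g = e then 0 else ind (b (β f.1)) g - ind (b (β f0)) g with hv
  have hmem : ∀ f : {f // f ∈ C0.erase f0}, f.1 ∈ C0 ∧ f.1 ≠ f0 := by
    intro f; have := f.2; rw [Finset.mem_erase] at this; exact ⟨this.2, this.1⟩
  have hvval : ∀ f g : {f // f ∈ C0.erase f0}, v f g.1 = if g = f then 1 else 0 := by
    intro f g
    obtain ⟨hf1, hf2⟩ := hmem f
    obtain ⟨hg1, hg2⟩ := hmem g
    have hge : g.1 ≠ e := by rintro h1; rw [← h1] at he; exact he hg1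
    have e1 : g.1 ∈ b (β f.1) ↔ g.1 = f.1 :=
      inter_eq_singleton hf1 (hβ1 _ hf1) (hβ2 _ hf1 C0 hC0 he) hg1
    have e2 : g.1 ∈ b (β f0) ↔ g.1 = f0 :=
      inter_eq_singleton hf0 (hβ1 _ hf0) (hβ2 _ hf0 C0 hC0 he) hg1
    simp only [hv]
    rw [if_neg hge]
    unfold ind
    simp only [e1, e2, if_neg hg2, sub_zero, Subtype.ext_iff]
  have hve : ∀ f, v f e = 0 := by intro f; simp [hv]
  have hvC : ∀ f, ∀ C ∈ 𝒯, e ∉ C → ∑ g ∈ C, v f g = 0 := by
    intro f C hC heC
    have h1 : ∑ g ∈ C, v f g = ∑ g ∈ C, (ind (b (β f.1)) g - ind (b (β f0)) g) := by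
      refine Finset.sum_congr rfl fun g hg => ?_
      simp only [hv]
      rw [if_neg]
      rintro rfl; exact heC hg
    rw [h1, Finset.sum_sub_distrib, sum_ind, sum_ind, hβ2 _ (hmem f).1 C hC heC,
      hβ2 _ hf0 C hC heC]
    simp
  set w : {C // C ∈ 𝒞.filter (fun C => e ∉ C)} → α → ℝ := fun C => ind C.1 with hw
  have hwLI : LinearIndependent ℝ w := by
    exact hLI.comp (fun C : {C // C ∈ 𝒞.filter (fun C => e ∉ C)} =>
      (⟨C.1, (Finset.mem_filter.1 C.2).1⟩ : {C // C ∈ 𝒞})) (by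
      intro C D hCD
      have := congrArg Subtype.val hCD
      exact Subtype.ext this)
  have hsplit : (𝒞.filter (fun C => e ∈ C)).card + (𝒞.filter (fun C => e ∉ C)).card =
      Fintype.card α := by
    rw [← hcard]
    exact Finset.card_filter_add_card_filter_not (s := 𝒞) (p := fun C => e ∈ C)
  have hCe : ∀ j, w j ⬝ᵥ (Pi.single e (1:ℝ) : α → ℝ) = 0 := by
    intro j
    rw [dotProduct_single]
    have := (Finset.mem_filter.1 j.2).2
    simp [hw, ind, this]
  have hsing : (Pi.single e (1:ℝ) : α → ℝ) ≠ 0 := by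
    intro h0
    have := congrFun h0 e
    simp at this
  have hcardE : Fintype.card {f // f ∈ C0.erase f0} = C0.card - 1 := by
    rw [Fintype.card_coe, Finset.card_erase_of_mem hf0]
  have hcardW : Fintype.card {C // C ∈ 𝒞.filter (fun C => e ∉ C)} =
      (𝒞.filter (fun C => e ∉ C)).card := Fintype.card_coe _
  have hC0pos : 1 ≤ C0.card := Finset.card_pos.2 ⟨f0, hf0⟩
  constructor
  · have hvLI : LinearIndependent ℝ v := by
      rw [Fintype.linearIndependent_iff]
      intro x hx g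
      have h1 := congrFun hx g.1
      rw [Finset.sum_apply] at h1
      simp only [Pi.smul_apply, smul_eq_mul, hvval, Pi.zero_apply] at h1
      simpa using h1
    have h1 := ortho_card hvLI hwLI (by
      intro f C
      rw [hw]
      simp only
      rw [dot_ind]
      exact hvC f _ (h𝒞 (Finset.mem_filter.1 C.2).1) (Finset.mem_filter.1 C.2).2)
      (Pi.single e 1) hsing (by intro f; rw [dotProduct_single, hve]; ring) hCe
    rw [hcardE, hcardW] at h1
    omega
  · intro u hu0 hue huC0 huC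
    have hvLI : LinearIndependent ℝ (fun o : Option {f // f ∈ C0.erase f0} =>
        (o.elim u v : α → ℝ)) := by
      rw [Fintype.linearIndependent_iff]
      intro x hx
      rw [Fintype.sum_option] at hx
      simp only [Option.elim_none, Option.elim_some] at hx
      have hsome : ∀ g, x (some g) = 0 := by
        intro g
        have h1 := congrFun hx g.1
        rw [Pi.add_apply, Finset.sum_apply] at h1
        simp only [Pi.smul_apply, smul_eq_mul, hvval, Pi.zero_apply] at h1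
        rw [huC0 g.1 (hmem g).1] at h1
        simpa using h1
      have hnone : x none = 0 := by
        simp only [hsome, zero_smul, Finset.sum_const_zero, add_zero] at hx
        rcases smul_eq_zero.1 hx with h1 | h1
        · exact h1
        · exact absurd h1 hu0
      rintro (_ | g)
      · exact hnone
      · exact hsome g
    have h1 := ortho_card hvLI hwLI (by
      rintro (_ | f) C
      · rw [hw]
        simp only [Option.elim_none]
        rw [dot_ind]
        exact huC _ (Finset.mem_filter.1 C.2).1 (Finset.mem_filter.1 C.2).2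
      · rw [hw]
        simp only [Option.elim_some]
        rw [dot_ind]
        exact hvC f _ (h𝒞 (Finset.mem_filter.1 C.2).1) (Finset.mem_filter.1 C.2).2)
      (Pi.single e 1) hsing (by
        rintro (_ | f)
        · simp only [Option.elim_none]; rw [dotProduct_single, hue]; ring
        · simp only [Option.elim_some]; rw [dotProduct_single, hve]; ring) hCe
    rw [Fintype.card_option, hcardE, hcardW] at h1
    omega


/-- Parity identity for the chosen signatures. -/
theorem parity (h : CoreHyp 𝒯 b s) {C0 C : Finset α} (hC : C ∈ 𝒯) {e : α} (heC : e ∈ C)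
    (β : α → ι)
    (hN : ∀ g, g ≠ e → (C0.filter (fun f => g ∈ b (β f))).card = 1) :
    (C0.card + C.card + 1 + (C0.filter (fun f => e ∈ b (β f))).card) % 2 = 0 := by
  classical
  have h1 : ∑ f ∈ C0, (C ∩ b (β f)).card = ∑ g ∈ C, (C0.filter (fun f => g ∈ b (β f))).card := by
    simp only [Finset.card_filter, ← Finset.filter_mem_eq_inter]
    exact Finset.sum_comm
  have h2 : ∑ g ∈ C, (C0.filter (fun f => g ∈ b (β f))).card =
      (C.card - 1) + (C0.filter (fun f => e ∈ b (β f))).card := by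
    rw [← Finset.sum_erase_add _ _ heC]
    congr 1
    rw [Finset.sum_congr rfl (fun g hg => hN g (Finset.ne_of_mem_erase hg)), Finset.sum_const,
      Finset.card_erase_of_mem heC]
    simp
  have h3 : (∑ f ∈ C0, (C ∩ b (β f)).card) % 2 = C0.card % 2 := by
    rw [Finset.sum_nat_mod, Finset.card_eq_sum_ones, Finset.sum_nat_mod C0 2 (fun _ => 1)]
    congr 1
    refine Finset.sum_congr rfl fun f _ => ?_
    have := h.odd C hC (β f)
    rw [Nat.odd_iff] at this
    rw [this]
  have h4 : 1 ≤ C.card := Finset.card_pos.2 ⟨e, heC⟩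
  omega

theorem core [Nonempty α] (h : CoreHyp 𝒯 b s) :
    ∃ r : ℕ, (r = 3 ∨ r = 4) ∧ (∀ e, s e = 1 / r) ∧
    (∃ (F : Finset α) (β : α → ι), F.card = r ∧
      ∀ g, Odd (F.filter (fun f => g ∈ b (β f))).card) ∧
    (∀ e, ∃ 𝒟 ⊆ 𝒯, r ≤ 𝒟.card ∧ ∀ C ∈ 𝒟, e ∈ C ∧ C.card = r) := by
  classical
  obtain ⟨𝒞, h𝒞, hcard, hLI, hspan⟩ := exists_basis h
  set m := Fintype.card α with hm
  have hmpos : 0 < m := Fintype.card_pos
  set c : α → ℕ := fun e => (𝒞.filter (fun C => e ∈ C)).card with hc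
  have hsize : ∀ C ∈ 𝒞, C.card = 3 ∨ C.card = 4 := fun C hC => h.size C (h𝒞 hC)
  have hlt : ∀ C ∈ 𝒞, C.card < m := by
    intro C hC
    by_contra hge
    push Not at hge
    have hCu : C = Finset.univ := by
      rw [← Finset.card_eq_iff_eq_univ]
      exact le_antisymm (Finset.card_le_univ C) hge
    have hall : ∀ C' ∈ 𝒞, C' = Finset.univ := by
      intro C' hC'
      have h1 := h.tight C (h𝒞 hC)
      have h2 := h.tight C' (h𝒞 hC')
      rw [hCu] at h1
      have h3 : ∑ e ∈ Finset.univ \ C', s e = 0 := by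
        have := Finset.sum_sdiff (Finset.subset_univ C') (f := s)
        linarith
      by_contra hne
      obtain ⟨e, he⟩ : (Finset.univ \ C').Nonempty := by
        rw [Finset.sdiff_nonempty]
        intro hsub
        exact hne (Finset.eq_univ_iff_forall.2 fun x => hsub (Finset.mem_univ x))
      have h4 : 0 < ∑ e ∈ Finset.univ \ C', s e :=
        Finset.sum_pos (fun e _ => h.pos e) ⟨e, he⟩
      linarith
    have h5 : 𝒞 ⊆ {Finset.univ} := by
      intro C' hC'; rw [Finset.mem_singleton]; exact hall C' hC'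
    have h6 := Finset.card_le_card h5
    rw [Finset.card_singleton] at h6
    have h7 := hsize C hC
    rw [hCu, Finset.card_univ] at h7
    omega
  have hle : ∀ C ∈ 𝒞, ∀ e, e ∉ C → C.card ≤ c e := by
    intro C hC e he
    obtain ⟨β, hβ1, hβ2⟩ := exists_beta h (h𝒞 hC) he
    exact (dim_ineq h h𝒞 hcard hLI (h𝒞 hC) he β hβ1 hβ2).1
  have hsplit : ∀ e, c e + (𝒞.filter (fun C => e ∉ C)).card = m := by
    intro e
    rw [← hcard]
    exact Finset.card_filter_add_card_filter_not (s := 𝒞) (p := fun C => e ∈ C)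
  have hclt : ∀ C ∈ 𝒞, ∀ e, e ∉ C → c e < m := by
    intro C hC e he
    have h1 : 0 < (𝒞.filter (fun C => e ∉ C)).card :=
      Finset.card_pos.2 ⟨C, Finset.mem_filter.2 ⟨hC, he⟩⟩
    have := hsplit e
    omega
  -- double counting
  have hS : ∑ C ∈ 𝒞, ∑ e ∈ Cᶜ, (1:ℝ) / ((m:ℝ) - C.card) = m := by
    have h1 : ∀ C ∈ 𝒞, ∑ e ∈ Cᶜ, (1:ℝ) / ((m:ℝ) - C.card) = 1 := by
      intro C hC
      rw [Finset.sum_const, Finset.card_compl, nsmul_eq_mul]
      have h2 := hlt C hC
      rw [← hm, Nat.cast_sub h2.le]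
      have h3 : (0:ℝ) < (m:ℝ) - C.card := by
        have : (C.card : ℝ) < m := by exact_mod_cast h2
        linarith
      field_simp
    rw [Finset.sum_congr rfl h1, Finset.sum_const, hcard]
    simp
  have hS'eq : ∑ C ∈ 𝒞, ∑ e ∈ Cᶜ, (1:ℝ) / ((m:ℝ) - c e) = ∑ e : α, ((m:ℝ) - c e) / ((m:ℝ) - c e) := by
    have h1 : ∀ C ∈ 𝒞, ∑ e ∈ Cᶜ, (1:ℝ) / ((m:ℝ) - c e) =
        ∑ e : α, if e ∉ C then (1:ℝ) / ((m:ℝ) - c e) else 0 := by
      intro C _
      rw [← Finset.sum_filter]
      apply Finset.sum_congr _ (fun _ _ => rfl)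
      ext e; simp
    rw [Finset.sum_congr rfl h1, Finset.sum_comm]
    refine Finset.sum_congr rfl fun e _ => ?_
    rw [← Finset.sum_filter, Finset.sum_const, nsmul_eq_mul]
    have h2 : ((𝒞.filter (fun C => e ∉ C)).card : ℝ) = (m:ℝ) - c e := by
      have := hsplit e
      have h3 : ((c e + (𝒞.filter (fun C => e ∉ C)).card : ℕ) : ℝ) = m := by rw [this]
      push_cast at h3
      linarith
    rw [h2]; ring
  have hS'le : ∑ e : α, ((m:ℝ) - c e) / ((m:ℝ) - c e) ≤ m := by
    calc ∑ e : α, ((m:ℝ) - c e) / ((m:ℝ) - c e) ≤ ∑ e : α, (1:ℝ) :=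
          Finset.sum_le_sum fun e _ => div_self_le_one _
      _ = m := by simp [hm]
  have hterm : ∀ C ∈ 𝒞, ∀ e ∈ Cᶜ, (1:ℝ) / ((m:ℝ) - C.card) ≤ (1:ℝ) / ((m:ℝ) - c e) := by
    intro C hC e he
    rw [Finset.mem_compl] at he
    have h1 := hle C hC e he
    have h2 := hclt C hC e he
    have h3 : (0:ℝ) < (m:ℝ) - c e := by
      have : (c e : ℝ) < m := by exact_mod_cast h2
      linarith
    apply one_div_le_one_div_of_le h3
    have : (C.card : ℝ) ≤ c e := by exact_mod_cast h1
    linarith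
  have hSS : ∑ C ∈ 𝒞, ∑ e ∈ Cᶜ, (1:ℝ) / ((m:ℝ) - C.card) ≤
      ∑ C ∈ 𝒞, ∑ e ∈ Cᶜ, (1:ℝ) / ((m:ℝ) - c e) :=
    Finset.sum_le_sum fun C hC => Finset.sum_le_sum fun e he => hterm C hC e he
  have hS'm : ∑ e : α, ((m:ℝ) - c e) / ((m:ℝ) - c e) = m := by
    apply le_antisymm hS'le
    exact (hS.symm.le.trans hSS).trans hS'eq.le
  have hcm : ∀ e, c e < m := by
    intro e
    have h1 : ∑ e : α, ((m:ℝ) - c e) / ((m:ℝ) - c e) = ∑ e : α, (1:ℝ) := by
      rw [hS'm]; simp [hm]
    have h2 := (Finset.sum_eq_sum_iff_of_le (fun e _ => div_self_le_one ((m:ℝ) - c e))).1 h1 e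
      (Finset.mem_univ e)
    by_contra hge
    push Not at hge
    have h3 : c e = m := by
      have := hsplit e; omega
    rw [h3] at h2
    simp at h2
  have hE : ∀ C ∈ 𝒞, ∀ e, e ∉ C → C.card = c e := by
    intro C hC e he
    have h1 : ∑ C ∈ 𝒞, ∑ e ∈ Cᶜ, (1:ℝ) / ((m:ℝ) - C.card) =
      ∑ C ∈ 𝒞, ∑ e ∈ Cᶜ, (1:ℝ) / ((m:ℝ) - c e) := by
      rw [hS, hS'eq, hS'm]
    have h2 := (Finset.sum_eq_sum_iff_of_le
      (fun C hC => Finset.sum_le_sum fun e he => hterm C hC e he)).1 h1 C hC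
    have h3 := (Finset.sum_eq_sum_iff_of_le (fun e he => hterm C hC e he)).1 h2 e
      (Finset.mem_compl.2 he)
    have h4 : (m:ℝ) - C.card = (m:ℝ) - c e := by
      have := congrArg (fun x => 1 / x) h3
      simpa using this
    have h5 : (C.card : ℝ) = c e := by linarith
    exact_mod_cast h5
  have hex : ∀ e, ∃ C ∈ 𝒞, e ∉ C := by
    intro e
    have h1 : 0 < (𝒞.filter (fun C => e ∉ C)).card := by
      have := hsplit e
      have := hcm e
      omega
    obtain ⟨C, hC⟩ := Finset.card_pos.1 h1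
    exact ⟨C, (Finset.mem_filter.1 hC).1, (Finset.mem_filter.1 hC).2⟩
  -- the vector `u` vanishes
  have hU : ∀ C0 ∈ 𝒞, ∀ e, e ∉ C0 → ∃ β : α → ι,
      ∀ g, g ≠ e → (C0.filter (fun f => g ∈ b (β f))).card = 1 := by
    intro C0 hC0 e he
    obtain ⟨β, hβ1, hβ2⟩ := exists_beta h (h𝒞 hC0) he
    refine ⟨β, ?_⟩
    have hNind : ∀ g, ∑ f ∈ C0, ind (b (β f)) g = ((C0.filter (fun f => g ∈ b (β f))).card : ℝ) := by
      intro g
      unfold ind
      rw [Finset.card_filter]
      push_cast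
      rfl
    set u : α → ℝ := fun g => if g = e then 0 else (∑ f ∈ C0, ind (b (β f)) g) - 1 with hu
    by_contra hcon
    have hu0 : u ≠ 0 := by
      intro h0
      apply hcon
      intro g hg
      have h1 := congrFun h0 g
      simp only [hu, if_neg hg, Pi.zero_apply] at h1
      rw [hNind] at h1
      have h2 : ((C0.filter (fun f => g ∈ b (β f))).card : ℝ) = 1 := by linarith
      exact_mod_cast h2
    have h1 := (dim_ineq h h𝒞 hcard hLI (h𝒞 hC0) he β hβ1 hβ2).2 u hu0 (by simp [hu]) (by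
      intro g hg
      simp only [hu]
      have hge : g ≠ e := by rintro rfl; exact he hg
      rw [if_neg hge]
      have h2 : ∀ f ∈ C0, ind (b (β f)) g = if f = g then (1:ℝ) else 0 := by
        intro f hf
        unfold ind
        have := inter_eq_singleton hf (hβ1 f hf) (hβ2 f hf C0 (h𝒞 hC0) he) hg
        simp only [this, eq_comm]
      rw [Finset.sum_congr rfl h2]
      simp [hg]) (by
      intro C hC heC
      have h2 : ∑ g ∈ C, u g = ∑ g ∈ C, ((∑ f ∈ C0, ind (b (β f)) g) - 1) := by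
        refine Finset.sum_congr rfl fun g hg => ?_
        simp only [hu]
        rw [if_neg]; rintro rfl; exact heC hg
      rw [h2, Finset.sum_sub_distrib, Finset.sum_comm]
      have h3 : ∑ f ∈ C0, ∑ g ∈ C, ind (b (β f)) g = ∑ f ∈ C0, (1:ℝ) := by
        refine Finset.sum_congr rfl fun f hf => ?_
        rw [sum_ind, hβ2 f hf C (h𝒞 hC) heC]; simp
      rw [h3]
      simp only [Finset.sum_const, nsmul_eq_mul, mul_one]
      rw [hE C0 hC0 e he, hE C hC e heC]; ring)
    have h2 := hE C0 hC0 e he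
    simp only [hc] at h2
    omega
  -- circuits through a common element have the same size
  have hsame : ∀ e, ∀ C ∈ 𝒞, ∀ C' ∈ 𝒞, e ∈ C → e ∈ C' → C.card = C'.card := by
    intro e C hC C' hC' heC heC'
    obtain ⟨C0, hC0, he⟩ := hex e
    obtain ⟨β, hβ⟩ := hU C0 hC0 e he
    have p1 := parity h (h𝒞 hC) heC β hβ
    have p2 := parity h (h𝒞 hC') heC' β hβ
    have s1 := hsize C hC
    have s2 := hsize C' hC'
    omega
  -- no mixed sizes
  have hnomix : ∀ C ∈ 𝒞, ∀ C' ∈ 𝒞, C.card = 3 → C'.card = 4 → False := by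
    intro C hC C' hC' h3 h4
    have hdisj : ∀ e, e ∈ C → e ∉ C' := by
      intro e he he'
      have := hsame e C hC C' hC' he he'
      omega
    have hcov : ∀ e, e ∉ C → e ∈ C' := by
      intro e he
      by_contra he'
      have e1 := hE C hC e he
      have e2 := hE C' hC' e he'
      omega
    have hCC' : C' = Cᶜ := by
      ext e
      rw [Finset.mem_compl]
      exact ⟨fun h1 h2 => hdisj e h2 h1, hcov e⟩
    have hm7 : m = 7 := by
      have := Finset.card_add_card_compl C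
      rw [← hCC'] at this
      omega
    have hex3 : ∃ C'' ∈ 𝒞, C'' ∉ ({C, C'} : Finset (Finset α)) := by
      apply Finset.exists_mem_notMem_of_card_lt_card
      have := Finset.card_le_two (a := C) (b := C')
      omega
    obtain ⟨C'', hC'', hne⟩ := hex3
    rw [Finset.mem_insert, Finset.mem_singleton, not_or] at hne
    rcases hsize C'' hC'' with h5 | h5
    · have hsub : C'' ⊆ C := by
        intro e he
        by_contra heC
        have := hsame e C'' hC'' C' hC' he (hcov e heC)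
        omega
      exact hne.1 (Finset.eq_of_subset_of_card_le hsub (by omega))
    · have hsub : C'' ⊆ C' := by
        intro e he
        apply hcov
        intro heC
        have := hsame e C'' hC'' C hC he heC
        omega
      exact hne.2 (Finset.eq_of_subset_of_card_le hsub (by omega))
  -- uniform size
  obtain ⟨C1, hC1⟩ : 𝒞.Nonempty := by
    rw [← Finset.card_pos]; omega
  have hunif : ∀ C ∈ 𝒞, C.card = C1.card := by
    intro C hC
    rcases hsize C hC with h1 | h1 <;> rcases hsize C1 hC1 with h2 | h2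
    · omega
    · exact absurd (hnomix C hC C1 hC1 h1 h2) id
    · exact absurd (hnomix C1 hC1 C hC h2 h1) id
    · omega
  have hcr : ∀ e, c e = C1.card := by
    intro e
    obtain ⟨C, hC, he⟩ := hex e
    rw [← hE C hC e he]; exact hunif C hC
  have hr := hsize C1 hC1
  have hr0 : (0:ℝ) < C1.card := by
    have : 0 < C1.card := by omega
    exact_mod_cast this
  refine ⟨C1.card, hr, ?_, ?_, ?_⟩
  · have h1 := hspan (fun e => s e - 1 / (C1.card : ℝ)) (by
      intro C hC
      rw [Finset.sum_sub_distrib, h.tight C (h𝒞 hC), Finset.sum_const, hunif C hC, nsmul_eq_mul]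
      field_simp
      ring)
    intro e
    have h2 := congrFun h1 e
    simp only [Pi.zero_apply] at h2
    linarith
  · obtain ⟨e0⟩ := ‹Nonempty α›
    obtain ⟨C0, hC0, he0⟩ := hex e0
    obtain ⟨β, hβ⟩ := hU C0 hC0 e0 he0
    refine ⟨C0, β, hunif C0 hC0, fun g => ?_⟩
    by_cases hg : g = e0
    · rw [hg]
      have h1 : 0 < (𝒞.filter (fun C => e0 ∈ C)).card := by
        have := hcr e0
        simp only [hc] at this
        omega
      obtain ⟨C, hC⟩ := Finset.card_pos.1 h1
      rw [Finset.mem_filter] at hC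
      have h2 := parity h (h𝒞 hC.1) hC.2 β hβ
      have h3 := hunif C hC.1
      have h4 := hunif C0 hC0
      rw [Nat.odd_iff]
      omega
    · rw [hβ g hg]; exact odd_one
  · intro e
    refine ⟨𝒞.filter (fun C => e ∈ C), (Finset.filter_subset _ _).trans h𝒞, (hcr e).ge, ?_⟩
    intro C hC
    rw [Finset.mem_filter] at hC
    exact ⟨hC.2, hunif C hC.1⟩

end Pool.Agent.Helper57.Met
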