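import Mathlib

/-!
# The metric polytope: points, signed points, cuts, pentagonal points, links
-/

set_option autoImplicit false

namespace Pool.Agent.Helper57.Met

/-- The metric polytope on `V`, as functions on unordered pairs (zero on the diagonal). -/
def MetP (V : Type) : Set (Sym2 V → ℝ) :=
  {x | (∀ i, x s(i, i) = 0) ∧ (∀ i j k, x s(i, j) ≤ x s(i, k) + x s(k, j)) ∧
    (∀ i j k, x s(i, j) + x s(i, k) + x s(j, k) ≤ 2)}

variable {V W : Type}

/-- distance between signed points -/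
def dd (x : Sym2 V → ℝ) (p q : V × Bool) : ℝ :=
  if p.2 = q.2 then x s(p.1, q.1) else 1 - x s(p.1, q.1)

/-- the antipode -/
def ng (p : V × Bool) : V × Bool := (p.1, !p.2)

@[simp] theorem ng_fst (p : V × Bool) : (ng p).1 = p.1 := rfl
@[simp] theorem ng_snd (p : V × Bool) : (ng p).2 = !p.2 := rfl
@[simp] theorem ng_ng (p : V × Bool) : ng (ng p) = p := by
  obtain ⟨v, b⟩ := p; simp [ng]

theorem ng_ne (p : V × Bool) : ng p ≠ p := by
  obtain ⟨v, b⟩ := p; cases b <;> simp [ng]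

theorem dd_comm (x : Sym2 V → ℝ) (p q : V × Bool) : dd x p q = dd x q p := by
  unfold dd
  rw [Sym2.eq_swap]
  simp only [eq_comm]

theorem dd_ng_right (x : Sym2 V → ℝ) (p q : V × Bool) : dd x p (ng q) = 1 - dd x p q := by
  obtain ⟨v, b⟩ := p; obtain ⟨w, c⟩ := q
  cases b <;> cases c <;> simp [dd, ng]

theorem dd_ng_left (x : Sym2 V → ℝ) (p q : V × Bool) : dd x (ng p) q = 1 - dd x p q := by
  rw [dd_comm, dd_ng_right, dd_comm]

theorem dd_ng_ng (x : Sym2 V → ℝ) (p q : V × Bool) : dd x (ng p) (ng q) = dd x p q := by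
  rw [dd_ng_left, dd_ng_right]; ring

theorem dd_self {x : Sym2 V → ℝ} (hx : x ∈ MetP V) (p : V × Bool) : dd x p p = 0 := by
  simp [dd, hx.1]

theorem dd_self_ng {x : Sym2 V → ℝ} (hx : x ∈ MetP V) (p : V × Bool) : dd x p (ng p) = 1 := by
  rw [dd_ng_right, dd_self hx]; ring

theorem dd_tri {x : Sym2 V → ℝ} (hx : x ∈ MetP V) (p q r : V × Bool) :
    dd x p q ≤ dd x p r + dd x r q := by
  obtain ⟨i, a⟩ := p; obtain ⟨j, b⟩ := q; obtain ⟨k, c⟩ := r
  obtain ⟨h0, h1, h2⟩ := hx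
  have t1 := h1 i j k
  have t2 := h1 i k j
  have t3 := h1 k j i
  have t4 := h2 i j k
  have e1 : x s(j, k) = x s(k, j) := by rw [Sym2.eq_swap]
  have e2 : x s(k, i) = x s(i, k) := by rw [Sym2.eq_swap]
  have e3 : x s(j, i) = x s(i, j) := by rw [Sym2.eq_swap]
  cases a <;> cases b <;> cases c <;> simp [dd] <;> linarith

theorem dd_nonneg {x : Sym2 V → ℝ} (hx : x ∈ MetP V) (p q : V × Bool) : 0 ≤ dd x p q := by
  have h1 := dd_tri hx p p q
  rw [dd_self hx, dd_comm x q p] at h1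
  linarith

theorem dd_le_one {x : Sym2 V → ℝ} (hx : x ∈ MetP V) (p q : V × Bool) : dd x p q ≤ 1 := by
  have h1 := dd_nonneg hx p (ng q)
  rw [dd_ng_right] at h1
  linarith

/-- the cut vector of `ε` -/
def cut (ε : V → Bool) : Sym2 V → ℝ :=
  Sym2.lift ⟨fun i j => if ε i = ε j then 0 else 1, fun i j => by simp only [eq_comm]⟩

@[simp] theorem cut_mk (ε : V → Bool) (i j : V) :
    cut ε s(i, j) = if ε i = ε j then 0 else 1 := rfl

theorem cut_mem (ε : V → Bool) : cut ε ∈ MetP V := by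
  refine ⟨fun i => by simp, fun i j k => ?_, fun i j k => ?_⟩ <;>
  · simp only [cut_mk]
    generalize ε i = a; generalize ε j = b; generalize ε k = c
    cases a <;> cases b <;> cases c <;> norm_num

theorem dd_cut (ε : V → Bool) (p q : V × Bool) :
    dd (cut ε) p q = if (xor (ε p.1) p.2) = (xor (ε q.1) q.2) then 0 else 1 := by
  unfold dd
  simp only [cut_mk]
  generalize ε p.1 = a; generalize ε q.1 = b; generalize p.2 = c; generalize q.2 = d
  cases a <;> cases b <;> cases c <;> cases d <;> norm_num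

/-- the signed distance as an affine functional -/
noncomputable def ddA (p q : V × Bool) : (Sym2 V → ℝ) →ᵃ[ℝ] ℝ :=
  if p.2 = q.2 then (LinearMap.proj s(p.1, q.1) : (Sym2 V → ℝ) →ₗ[ℝ] ℝ).toAffineMap
  else AffineMap.const ℝ _ 1 - (LinearMap.proj s(p.1, q.1) : (Sym2 V → ℝ) →ₗ[ℝ] ℝ).toAffineMap

theorem ddA_apply (p q : V × Bool) (x : Sym2 V → ℝ) : ddA p q x = dd x p q := by
  unfold ddA dd
  split_ifs <;> simp

/-- pull back along a signed map -/
def pull (σ : V → W × Bool) (z : Sym2 W → ℝ) : Sym2 V → ℝ :=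
  Sym2.lift ⟨fun i j => dd z (σ i) (σ j), fun _ _ => dd_comm _ _ _⟩

@[simp] theorem pull_mk (σ : V → W × Bool) (z : Sym2 W → ℝ) (i j : V) :
    pull σ z s(i, j) = dd z (σ i) (σ j) := rfl

noncomputable def pullA (σ : V → W × Bool) : (Sym2 W → ℝ) →ᵃ[ℝ] (Sym2 V → ℝ) :=
  AffineMap.pi fun e => ddA (σ (Quot.out e).1) (σ (Quot.out e).2)

theorem pullA_apply (σ : V → W × Bool) (z : Sym2 W → ℝ) : pullA σ z = pull σ z := by
  funext e
  have h1 : e = s((Quot.out e).1, (Quot.out e).2) := (Quot.out_eq e).symm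
  conv_rhs => rw [h1]
  rw [pull_mk]
  simp [pullA, ddA_apply]

/-- act on signed points -/
def sact (σ : V → W × Bool) (p : V × Bool) : W × Bool := ((σ p.1).1, xor (σ p.1).2 p.2)

theorem dd_pull (σ : V → W × Bool) (z : Sym2 W → ℝ) (p q : V × Bool) :
    dd (pull σ z) p q = dd z (sact σ p) (sact σ q) := by
  unfold dd
  rw [pull_mk]
  unfold dd sact
  simp only
  generalize (σ p.1).2 = a; generalize (σ q.1).2 = b; generalize p.2 = c; generalize q.2 = d
  cases a <;> cases b <;> cases c <;> cases d <;> simp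

theorem pull_mem (σ : V → W × Bool) {z : Sym2 W → ℝ} (hz : z ∈ MetP W) :
    pull σ z ∈ MetP V := by
  refine ⟨fun i => ?_, fun i j k => ?_, fun i j k => ?_⟩
  · rw [pull_mk, dd_self hz]
  · rw [pull_mk, pull_mk, pull_mk]; exact dd_tri hz _ _ _
  · rw [pull_mk, pull_mk, pull_mk]
    have h1 := dd_tri hz (σ j) (ng (σ k)) (σ i)
    have h2 := dd_tri hz (σ j) (σ k) (ng (σ i))
    rw [dd_ng_right, dd_ng_left, dd_comm z (σ j) (σ i)] at h2
    linarith

theorem pull_cut (σ : V → W × Bool) (ε : W → Bool) :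
    pull σ (cut ε) = cut (fun v => xor (ε (σ v).1) (σ v).2) := by
  funext e
  induction e with
  | _ i j => rw [pull_mk, dd_cut, cut_mk]

/-- Some affine functional, nonpositive on all cuts, is positive at `x` and at `y`. -/
def Rel (x y : Sym2 V → ℝ) : Prop :=
  ∃ f : (Sym2 V → ℝ) →ᵃ[ℝ] ℝ, (∀ ε, f (cut ε) ≤ 0) ∧ 0 < f x ∧ 0 < f y

theorem Rel.symm {x y : Sym2 V → ℝ} (h : Rel x y) : Rel y x := by
  obtain ⟨f, h1, h2, h3⟩ := h; exact ⟨f, h1, h3, h2⟩

theorem Rel.left {x y : Sym2 V → ℝ} (h : Rel x y) : Rel x x := by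
  obtain ⟨f, h1, h2, h3⟩ := h; exact ⟨f, h1, h2, h2⟩

theorem Rel.right {x y : Sym2 V → ℝ} (h : Rel x y) : Rel y y := h.symm.left

/-- the linking step between points of the metric polytope -/
def Lk (x y : Sym2 V → ℝ) : Prop := x ∈ MetP V ∧ y ∈ MetP V ∧ Rel x y

theorem Lk.symm {x y : Sym2 V → ℝ} (h : Lk x y) : Lk y x := ⟨h.2.1, h.1, h.2.2.symm⟩

/-- chains of links -/
def Ch (x y : Sym2 V → ℝ) : Prop := Relation.ReflTransGen Lk x y

theorem Ch.refl (x : Sym2 V → ℝ) : Ch x x := Relation.ReflTransGen.refl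

theorem Ch.trans {x y z : Sym2 V → ℝ} (h : Ch x y) (h' : Ch y z) : Ch x z :=
  Relation.ReflTransGen.trans h h'

theorem Lk.ch {x y : Sym2 V → ℝ} (h : Lk x y) : Ch x y := Relation.ReflTransGen.single h

theorem Ch.symm {x y : Sym2 V → ℝ} (h : Ch x y) : Ch y x := by
  unfold Ch at *
  induction h with
  | refl => exact Relation.ReflTransGen.refl
  | tail _ h ih => exact Relation.ReflTransGen.head h.symm ih

theorem Ch.good {x y : Sym2 V → ℝ} (h : Ch x y) (hx : x ∈ MetP V) (hxx : Rel x x) :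
    y ∈ MetP V ∧ Rel y y := by
  induction h with
  | refl => exact ⟨hx, hxx⟩
  | tail _ h ih => exact ⟨h.2.1, h.2.2.right⟩

/-- sum of the ten distances between five signed points -/
def psum (x : Sym2 V → ℝ) (p : Fin 5 → V × Bool) : ℝ :=
  dd x (p 0) (p 1) + dd x (p 0) (p 2) + dd x (p 0) (p 3) + dd x (p 0) (p 4) +
  dd x (p 1) (p 2) + dd x (p 1) (p 3) + dd x (p 1) (p 4) +
  dd x (p 2) (p 3) + dd x (p 2) (p 4) + dd x (p 3) (p 4)

/-- `x` is tight for or violates some switched pentagonal inequality -/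
def Pent (x : Sym2 V → ℝ) : Prop :=
  ∃ p : Fin 5 → V × Bool, (Function.Injective fun i => (p i).1) ∧ 6 ≤ psum x p

theorem psum_cut_le (ε : V → Bool) (p : Fin 5 → V × Bool) : psum (cut ε) p ≤ 6 := by
  unfold psum
  simp only [dd_cut]
  generalize (xor (ε (p 0).1) (p 0).2) = a0
  generalize (xor (ε (p 1).1) (p 1).2) = a1
  generalize (xor (ε (p 2).1) (p 2).2) = a2
  generalize (xor (ε (p 3).1) (p 3).2) = a3
  generalize (xor (ε (p 4).1) (p 4).2) = a4
  cases a0 <;> cases a1 <;> cases a2 <;> cases a3 <;> cases a4 <;> norm_num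

noncomputable def psumA (p : Fin 5 → V × Bool) : (Sym2 V → ℝ) →ᵃ[ℝ] ℝ :=
  ddA (p 0) (p 1) + ddA (p 0) (p 2) + ddA (p 0) (p 3) + ddA (p 0) (p 4) +
  ddA (p 1) (p 2) + ddA (p 1) (p 3) + ddA (p 1) (p 4) +
  ddA (p 2) (p 3) + ddA (p 2) (p 4) + ddA (p 3) (p 4)

theorem psumA_apply (p : Fin 5 → V × Bool) (x : Sym2 V → ℝ) : psumA p x = psum x p := by
  simp [psumA, psum, ddA_apply]

/-- restriction to a subset -/
noncomputable def resA (ρ : W → V) : (Sym2 V → ℝ) →ᵃ[ℝ] (Sym2 W → ℝ) := pullA (fun w => (ρ w, false))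

theorem rel_pull (σ : V → W × Bool) (ρ : W → V) (hσ : ∀ w, σ (ρ w) = (w, false))
    {x y : Sym2 W → ℝ} (h : Rel x y) : Rel (pull σ x) (pull σ y) := by
  obtain ⟨f, h1, h2, h3⟩ := h
  have key : ∀ z : Sym2 W → ℝ, pull (fun w => (ρ w, false)) (pull σ z) = z := by
    intro z; funext e
    induction e with
    | _ i j =>
      rw [pull_mk, dd_pull]
      unfold sact
      simp only [hσ]
      simp [dd]
  refine ⟨f.comp (pullA (fun w => (ρ w, false))), fun ε => ?_, ?_, ?_⟩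
  · rw [AffineMap.comp_apply, pullA_apply, pull_cut]; exact h1 _
  · rw [AffineMap.comp_apply, pullA_apply, key]; exact h2
  · rw [AffineMap.comp_apply, pullA_apply, key]; exact h3

theorem rel_of_pull (σ : V → W × Bool) {x y : Sym2 W → ℝ} (h : Rel (pull σ x) (pull σ y)) :
    Rel x y := by
  obtain ⟨f, h1, h2, h3⟩ := h
  refine ⟨f.comp (pullA σ), fun ε => ?_, ?_, ?_⟩
  · rw [AffineMap.comp_apply, pullA_apply, pull_cut]; exact h1 _
  · rw [AffineMap.comp_apply, pullA_apply]; exact h2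
  · rw [AffineMap.comp_apply, pullA_apply]; exact h3

theorem ch_pull (σ : V → W × Bool) (ρ : W → V) (hσ : ∀ w, σ (ρ w) = (w, false))
    {x y : Sym2 W → ℝ} (h : Ch x y) : Ch (pull σ x) (pull σ y) := by
  induction h with
  | refl => exact Ch.refl _
  | tail _ h ih =>
    exact ih.trans (Lk.ch ⟨pull_mem σ h.1, pull_mem σ h.2.1, rel_pull σ ρ hσ h.2.2⟩)

theorem pent_pull (σ : V → W × Bool) (ρ : W → V) (hσ : ∀ w, σ (ρ w) = (w, false))
    {x : Sym2 W → ℝ} (h : Pent x) : Pent (pull σ x) := by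
  obtain ⟨p, hp, h6⟩ := h
  have hρ : Function.Injective ρ := by
    intro a b hab
    have h1 := hσ a
    rw [hab, hσ b] at h1
    exact (Prod.ext_iff.1 h1).1.symm
  refine ⟨fun i => (ρ (p i).1, (p i).2), fun a b hab => hp (hρ hab), ?_⟩
  have key : ∀ i, sact σ (ρ (p i).1, (p i).2) = p i := by
    intro i
    unfold sact
    simp [hσ]
  unfold psum at *
  simp only [dd_pull, key]
  exact h6

/-- Contraction step. -/
theorem contract {a b : V} (hab : a ≠ b) {y : Sym2 V → ℝ} (hy : y ∈ MetP V) (hyy : Rel y y)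
    (h01 : y s(a, b) = 0 ∨ y s(a, b) = 1)
    (IH : ∀ x ∈ MetP {v : V // v ≠ b}, Rel x x → ∃ z, Ch x z ∧ z ∈ MetP {v : V // v ≠ b} ∧ Pent z) :
    ∃ z, Ch y z ∧ z ∈ MetP V ∧ Pent z := by
  classical
  obtain ⟨β, hβ⟩ : ∃ β : Bool, (β = false ∧ y s(a, b) = 0) ∨ (β = true ∧ y s(a, b) = 1) := by
    rcases h01 with h | h
    · exact ⟨false, Or.inl ⟨rfl, h⟩⟩
    · exact ⟨true, Or.inr ⟨rfl, h⟩⟩
  set σ : V → {v : V // v ≠ b} × Bool := fun v => if h : v ≠ b then (⟨v, h⟩, false) else (⟨a, hab⟩, β)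
    with hσdef
  have hσ1 : ∀ v (h : v ≠ b), σ v = (⟨v, h⟩, false) := by
    intro v h; simp only [hσdef]; rw [dif_pos h]
  have hσ2 : σ b = (⟨a, hab⟩, β) := by
    simp only [hσdef]; rw [dif_neg (by simp)]
  have hσ : ∀ w : {v : V // v ≠ b}, σ w.1 = (w, false) := by
    intro w; rw [hσ1 w.1 w.2]
  set y' : Sym2 {v : V // v ≠ b} → ℝ := pull (fun w => (w.1, false)) y with hy'
  have hy'mem : y' ∈ MetP {v : V // v ≠ b} := pull_mem _ hy
  have hy'mk : ∀ i j : {v : V // v ≠ b}, y' s(i, j) = y s(i.1, j.1) := by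
    intro i j; rw [hy', pull_mk]; simp [dd]
  obtain ⟨h0, h1, h2⟩ := hy
  have hback : pull σ y' = y := by
    funext e
    induction e with
    | _ i j =>
    rw [pull_mk]
    by_cases hi : i = b
    · by_cases hj : j = b
      · subst hi; subst hj
        rw [dd_self hy'mem, h0]
      · subst hi
        rw [hσ2, hσ1 j hj]
        unfold dd
        simp only [hy'mk]
        have t1 := h1 a j i
        have t2 := h1 i j a
        have t3 := h1 a i j
        have t4 := h2 a j i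
        have e1 : y s(i, a) = y s(a, i) := by rw [Sym2.eq_swap]
        have e2 : y s(j, i) = y s(i, j) := by rw [Sym2.eq_swap]
        rcases hβ with ⟨hβ, hab0⟩ | ⟨hβ, hab0⟩
        · rw [hβ, if_pos rfl]; linarith
        · rw [hβ, if_neg (by simp)]; linarith
    · by_cases hj : j = b
      · subst hj
        rw [hσ2, hσ1 i hi]
        unfold dd
        simp only [hy'mk]
        have t1 := h1 a i j
        have t2 := h1 j i a
        have t3 := h1 a j i
        have t4 := h2 a i j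
        have e1 : y s(j, a) = y s(a, j) := by rw [Sym2.eq_swap]
        have e2 : y s(j, i) = y s(i, j) := by rw [Sym2.eq_swap]
        have e3 : y s(i, a) = y s(a, i) := by rw [Sym2.eq_swap]
        rcases hβ with ⟨hβ, hab0⟩ | ⟨hβ, hab0⟩
        · rw [hβ, if_pos rfl]; linarith
        · rw [hβ, if_neg (by simp)]; linarith
      · rw [hσ1 i hi, hσ1 j hj]
        simp [dd, hy'mk]
  have hrel : Rel y' y' := by
    apply rel_of_pull σ
    rw [hback]; exact hyy
  obtain ⟨z, hz1, hz2, hz3⟩ := IH y' hy'mem hrel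
  refine ⟨pull σ z, ?_, pull_mem σ hz2, pent_pull σ Subtype.val hσ hz3⟩
  have := ch_pull σ Subtype.val hσ hz1
  rwa [hback] at this

end Pool.Agent.Helper57.Met
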