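import Mathlib

/-!
# Polytopes: edge-connectivity of the part of the skeleton in an open half-space
-/

set_option autoImplicit false

open Set Finset

namespace Pool.Agent.Helper57.Met

variable {E : Type*} [NormedAddCommGroup E] [NormedSpace ℝ E]

/-- `P` is the convex hull of the finite set `V` and `V` is its set of extreme points. -/
structure FinPoly (P : Set E) (V : Finset E) : Prop where
  hull : P = convexHull ℝ (V : Set E)
  ext : (V : Set E) = P.extremePoints ℝ

theorem exists_eps {ι : Type*} (S : Finset ι) (a b : ι → ℝ) (hb : ∀ w ∈ S, 0 < b w) :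
    ∃ ε : ℝ, 0 < ε ∧ ∀ w ∈ S, ε * a w < b w := by
  have h1 : ∀ᶠ ε in nhdsWithin (0:ℝ) (Set.Ioi 0), ∀ w ∈ S, ε * a w < b w := by
    rw [Filter.eventually_all_finset]
    intro w hw
    have hcont : Filter.Tendsto (fun ε : ℝ => ε * a w) (nhdsWithin (0:ℝ) (Set.Ioi 0)) (nhds (0 * a w)) :=
      ((continuous_id.mul continuous_const).tendsto 0).mono_left nhdsWithin_le_nhds
    rw [zero_mul] at hcont
    exact hcont.eventually (gt_mem_nhds (hb w hw))
  have h2 : ∀ᶠ ε in nhdsWithin (0:ℝ) (Set.Ioi 0), 0 < ε := self_mem_nhdsWithin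
  obtain ⟨ε, h3, h4⟩ := (h2.and h1).exists
  exact ⟨ε, h3, h4⟩

variable {P : Set E} {V : Finset E}

theorem exposed (h : FinPoly P V) {v : E} (hv : v ∈ V) :
    ∃ g : E →ₗ[ℝ] ℝ, ∀ w ∈ V, w ≠ v → g w < g v := by
  classical
  have hnot : v ∉ convexHull ℝ ((V.erase v : Finset E) : Set E) := by
    intro hmem
    have hsub : convexHull ℝ ((V.erase v : Finset E) : Set E) ⊆ P := by
      rw [h.hull]; exact convexHull_mono (by exact_mod_cast Finset.erase_subset v V)
    have hvext : v ∈ P.extremePoints ℝ := by rw [← h.ext]; exact_mod_cast hv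
    have h1 := inter_extremePoints_subset_extremePoints_of_subset hsub ⟨hmem, hvext⟩
    have h2 := extremePoints_convexHull_subset h1
    simp at h2
  obtain ⟨f, u, h1, h2⟩ := geometric_hahn_banach_closed_point (convex_convexHull ℝ _)
    ((V.erase v).finite_toSet.isClosed_convexHull ℝ) hnot
  refine ⟨f.toLinearMap, fun w hw hne => ?_⟩
  have : w ∈ convexHull ℝ ((V.erase v : Finset E) : Set E) :=
    subset_convexHull ℝ _ (by simp [hw, hne])
  exact (h1 w this).trans h2

/-- Some linear functional is maximised over `V` exactly at `v` and `u`. -/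
def AdjV (V : Finset E) (v u : E) : Prop :=
  ∃ l : E →ₗ[ℝ] ℝ, l v = l u ∧ ∀ w ∈ V, w ≠ v → w ≠ u → l w < l v

theorem AdjV.symm {v u : E} (h : AdjV V v u) : AdjV V u v := by
  obtain ⟨l, h1, h2⟩ := h
  refine ⟨l, h1.symm, fun w hw h3 h4 => ?_⟩
  rw [← h1]; exact h2 w hw h4 h3

theorem AdjV.isExtreme (h : FinPoly P V) {v u : E} (hv : v ∈ V) (hu : u ∈ V) (hvu : v ≠ u)
    (ha : AdjV V v u) : IsExtreme ℝ P (segment ℝ v u) := by
  classical
  obtain ⟨l, h1, h2⟩ := ha
  have hleV : ∀ w ∈ V, l w ≤ l v := by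
    intro w hw
    by_cases hwv : w = v
    · rw [hwv]
    by_cases hwu : w = u
    · rw [hwu, h1]
    exact (h2 w hw hwv hwu).le
  have hle : ∀ x ∈ P, l x ≤ l v := by
    intro x hx
    rw [h.hull, Finset.mem_convexHull'] at hx
    obtain ⟨w, hw0, hw1, rfl⟩ := hx
    rw [map_sum]
    simp only [map_smul, smul_eq_mul]
    calc ∑ y ∈ V, w y * l y ≤ ∑ y ∈ V, w y * l v :=
          Finset.sum_le_sum fun y hy => mul_le_mul_of_nonneg_left (hleV y hy) (hw0 y hy)
      _ = l v := by rw [← Finset.sum_mul, hw1, one_mul]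
  have heq : ∀ x ∈ P, l x = l v → x ∈ segment ℝ v u := by
    intro x hx hlx
    rw [h.hull, Finset.mem_convexHull'] at hx
    obtain ⟨w, hw0, hw1, rfl⟩ := hx
    rw [map_sum] at hlx
    simp only [map_smul, smul_eq_mul] at hlx
    have hz : ∑ y ∈ V, w y * (l v - l y) = 0 := by
      simp only [mul_sub, Finset.sum_sub_distrib]
      rw [hlx, ← Finset.sum_mul, hw1]; ring
    have hz' := (Finset.sum_eq_zero_iff_of_nonneg (fun y hy =>
      mul_nonneg (hw0 y hy) (sub_nonneg.2 (hleV y hy)))).1 hz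
    have hw2 : ∀ y ∈ V, y ≠ v → y ≠ u → w y = 0 := by
      intro y hy hyv hyu
      have h3 := hz' y hy
      have h4 := h2 y hy hyv hyu
      rcases mul_eq_zero.1 h3 with h5 | h5
      · exact h5
      · linarith
    have hsub : ({v, u} : Finset E) ⊆ V := by
      intro y hy; simp at hy; rcases hy with rfl | rfl <;> assumption
    have hs1 : ∑ y ∈ V, w y = w v + w u := by
      rw [← Finset.sum_subset hsub (fun y hy hy' => ?_), Finset.sum_pair hvu]
      simp at hy'; exact hw2 y hy hy'.1 hy'.2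
    have hs2 : ∑ y ∈ V, w y • y = w v • v + w u • u := by
      rw [← Finset.sum_subset hsub (fun y hy hy' => ?_), Finset.sum_pair hvu]
      simp at hy'; rw [hw2 y hy hy'.1 hy'.2, zero_smul]
    rw [hs2]
    exact ⟨w v, w u, hw0 v hv, hw0 u hu, by rw [← hs1, hw1], rfl⟩
  have hPconv : Convex ℝ P := by rw [h.hull]; exact convex_convexHull ℝ _
  have hvP : v ∈ P := by rw [h.hull]; exact subset_convexHull ℝ _ (by exact_mod_cast hv)
  have huP : u ∈ P := by rw [h.hull]; exact subset_convexHull ℝ _ (by exact_mod_cast hu)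
  refine ⟨hPconv.segment_subset hvP huP, ?_⟩
  intro x hx y hy z hz hzo
  have hlz : l z = l v := by
    obtain ⟨a, b, ha, hb, hab, rfl⟩ := hz
    simp only [map_add, map_smul, smul_eq_mul]
    rw [← h1, ← add_mul, hab, one_mul]
  obtain ⟨a, b, ha, hb, hab, rfl⟩ := hzo
  simp only [map_add, map_smul, smul_eq_mul] at hlz
  have hx1 := hle x hx
  have hy1 := hle y hy
  refine heq x hx ?_
  by_contra hne
  have hlt : l x < l v := lt_of_le_of_ne hx1 hne
  have : a * l x + b * l y < a * l v + b * l v := by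
    have h5 := mul_lt_mul_of_pos_left hlt ha
    have h6 := mul_le_mul_of_nonneg_left hy1 hb.le
    linarith
  rw [← add_mul, hab, one_mul] at this
  linarith

theorem exists_adj_aux (h : FinPoly P V) {v : E} (hv : v ∈ V) : ∀ (n : ℕ) (A : Finset E),
    A.card = n → ∀ (l : E →ₗ[ℝ] ℝ), A ⊆ V → v ∈ A → (∀ w ∈ A, l w = l v) →
    (∀ w ∈ V, w ∉ A → l w < l v) → (∃ u ∈ A, u ≠ v) → ∃ u ∈ A, u ≠ v ∧ AdjV V v u := by
  classical
  intro n
  induction n using Nat.strong_induction_on with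
  | _ n ih =>
  intro A hAn l hAV hvA hlA hlV hex
  obtain ⟨g, hg⟩ := exposed h hv
  set B := A.erase v with hB
  have hBne : B.Nonempty := by
    obtain ⟨u, hu, huv⟩ := hex
    exact ⟨u, by simp [hB, hu, huv]⟩
  have hgB : ∀ w ∈ B, 0 < g v - g w := by
    intro w hw
    rw [hB, Finset.mem_erase] at hw
    have := hg w (hAV hw.2) hw.1
    linarith
  obtain ⟨x1, hx1, hx1min⟩ := Finset.exists_min_image B (fun w => g v - g w) hBne
  have hx1' : x1 ∈ A ∧ x1 ≠ v := by
    rw [hB, Finset.mem_erase] at hx1; exact ⟨hx1.2, hx1.1⟩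
  obtain ⟨g1, hg1⟩ := exposed h (hAV hx1'.1)
  obtain ⟨xm, hxm, hxmax⟩ := Finset.exists_max_image B (fun w => (g1 w - g1 v) / (g v - g w)) hBne
  have hxm' : xm ∈ A ∧ xm ≠ v := by
    rw [hB, Finset.mem_erase] at hxm; exact ⟨hxm.2, hxm.1⟩
  set β := (g1 xm - g1 v) / (g v - g xm) with hβ
  set k : E →ₗ[ℝ] ℝ := β • g + g1 with hk
  have hkw : ∀ w, k w = β * g w + g1 w := by intro w; simp [hk]
  have hkle : ∀ w ∈ A, k w ≤ k v := by
    intro w hw
    by_cases hwv : w = v
    · rw [hwv]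
    have hwB : w ∈ B := by simp [hB, hw, hwv]
    have h3 := hxmax w hwB
    have h4 := hgB w hwB
    rw [div_le_iff₀ h4] at h3
    rw [hkw, hkw]; nlinarith
  have hkxm : k xm = k v := by
    have h4 := hgB xm hxm
    have : β * (g v - g xm) = g1 xm - g1 v := by rw [hβ]; field_simp
    rw [hkw, hkw]; linarith
  by_cases hAll : ∀ w ∈ A, k w = k v
  · -- then `A = {v, x1}`
    have hA2 : ∀ w ∈ A, w = v ∨ w = x1 := by
      intro w hw
      by_contra hcon
      push Not at hcon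
      have hwB : w ∈ B := by simp [hB, hw, hcon.1]
      have e1 := hAll w hw
      have e2 := hAll x1 hx1'.1
      rw [hkw, hkw] at e1 e2
      have i1 := hg1 w (hAV hw) hcon.2
      have i2 := hg1 v hv hx1'.2.symm
      have i3 := hgB x1 hx1
      have i4 := hx1min w hwB
      have i5 : 0 < β := by
        by_contra hβ0
        push Not at hβ0
        nlinarith
      nlinarith
    refine ⟨x1, hx1'.1, hx1'.2, l, (hlA x1 hx1'.1).symm, fun w hw hwv hwx => ?_⟩
    apply hlV w hw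
    intro hwA
    rcases hA2 w hwA with h5 | h5
    · exact hwv h5
    · exact hwx h5
  · push Not at hAll
    obtain ⟨w0, hw0, hw0k⟩ := hAll
    set A' := A.filter (fun w => k w = k v) with hA'
    have hcard : A'.card < n := by
      rw [← hAn]
      apply Finset.card_lt_card
      rw [Finset.ssubset_iff_of_subset (Finset.filter_subset _ _)]
      exact ⟨w0, hw0, by simp [hw0k]⟩
    obtain ⟨ε, hε, hε'⟩ := exists_eps (V \ A) (fun w => k w - k v) (fun w => l v - l w) (by
      intro w hw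
      rw [Finset.mem_sdiff] at hw
      have := hlV w hw.1 hw.2
      linarith)
    obtain ⟨u, hu, huv, hadj⟩ := ih A'.card hcard A' rfl (l + ε • k)
      ((Finset.filter_subset _ _).trans hAV) (by simp [hA', hvA]) (by
        intro w hw
        rw [hA', Finset.mem_filter] at hw
        simp [hlA w hw.1, hw.2]) (by
        intro w hw hwA'
        simp only [LinearMap.add_apply, LinearMap.smul_apply, smul_eq_mul]
        by_cases hwA : w ∈ A
        · have h5 : k w ≠ k v := by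
            intro h6; exact hwA' (by simp [hA', hwA, h6])
          have h6 := lt_of_le_of_ne (hkle w hwA) h5
          rw [hlA w hwA]
          have := mul_lt_mul_of_pos_left h6 hε
          linarith
        · have h5 := hε' w (by simp [hw, hwA])
          linarith) ⟨xm, by simp [hA', hxm'.1, hkxm], hxm'.2⟩
    exact ⟨u, Finset.filter_subset _ _ hu, huv, hadj⟩

theorem exists_better (h : FinPoly P V) {v : E} (hv : v ∈ V) (c : E →ₗ[ℝ] ℝ)
    (hc : ∃ w ∈ V, c v < c w) : ∃ u ∈ V, u ≠ v ∧ AdjV V v u ∧ c v < c u := by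
  classical
  obtain ⟨w1, hw1, hcw1⟩ := hc
  have hw1v : w1 ≠ v := by rintro rfl; exact lt_irrefl _ hcw1
  obtain ⟨g, hg⟩ := exposed h hv
  set B := V.erase v with hB
  have hgB : ∀ w ∈ B, 0 < g v - g w := by
    intro w hw
    rw [hB, Finset.mem_erase] at hw
    have := hg w hw.2 hw.1
    linarith
  have hw1B : w1 ∈ B := by simp [hB, hw1, hw1v]
  obtain ⟨xm, hxm, hxmax⟩ := Finset.exists_max_image B (fun w => (c w - c v) / (g v - g w))
    ⟨w1, hw1B⟩
  have hxm' : xm ∈ V ∧ xm ≠ v := by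
    rw [hB, Finset.mem_erase] at hxm; exact ⟨hxm.2, hxm.1⟩
  set β := (c xm - c v) / (g v - g xm) with hβ
  have hβ0 : 0 < β := by
    have h1 := hxmax w1 hw1B
    have h2 := hgB w1 hw1B
    have h3 : 0 < (c w1 - c v) / (g v - g w1) := div_pos (by linarith) h2
    exact lt_of_lt_of_le h3 h1
  set k : E →ₗ[ℝ] ℝ := β • g + c with hk
  have hkw : ∀ w, k w = β * g w + c w := by intro w; simp [hk]
  have hkle : ∀ w ∈ V, k w ≤ k v := by
    intro w hw
    by_cases hwv : w = v
    · rw [hwv]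
    have hwB : w ∈ B := by simp [hB, hw, hwv]
    have h3 := hxmax w hwB
    have h4 := hgB w hwB
    rw [div_le_iff₀ h4] at h3
    rw [hkw, hkw]; nlinarith
  have hkxm : k xm = k v := by
    have h4 := hgB xm hxm
    have : β * (g v - g xm) = c xm - c v := by rw [hβ]; field_simp
    rw [hkw, hkw]; linarith
  obtain ⟨u, hu, huv, hadj⟩ := exists_adj_aux h hv _ (V.filter (fun w => k w = k v)) rfl k
    (Finset.filter_subset _ _) (by simp [hv]) (by
      intro w hw; rw [Finset.mem_filter] at hw; exact hw.2) (by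
      intro w hw hw'
      rcases lt_or_eq_of_le (hkle w hw) with h5 | h5
      · exact h5
      · exact absurd (by simp [hw, h5]) hw') ⟨xm, by simp [hxm'.1, hkxm], hxm'.2⟩
  rw [Finset.mem_filter] at hu
  refine ⟨u, hu.1, huv, hadj, ?_⟩
  have h6 := hu.2
  rw [hkw, hkw] at h6
  have h7 := hg u hu.1 huv
  nlinarith

/-- the step relation inside the open half space `κ < c` -/
def HStep (V : Finset E) (c : E →ₗ[ℝ] ℝ) (κ : ℝ) (a b : E) : Prop :=
  a ∈ V ∧ b ∈ V ∧ a ≠ b ∧ AdjV V a b ∧ κ < c a ∧ κ < c b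

theorem path_to_max (h : FinPoly P V) (c : E →ₗ[ℝ] ℝ) (κ : ℝ) (hne : V.Nonempty) :
    ∃ z ∈ V, ∀ u ∈ V, κ < c u → Relation.ReflTransGen (HStep V c κ) u z := by
  classical
  obtain ⟨z, hz, hzmax⟩ := Finset.exists_max_image V c hne
  obtain ⟨g, hg⟩ := exposed h hz
  refine ⟨z, hz, ?_⟩
  obtain ⟨ε, hε, hε'⟩ := exists_eps ((V ×ˢ V).filter (fun p => c p.1 < c p.2))
    (fun p => g p.1 - g p.2) (fun p => c p.2 - c p.1) (by
      intro p hp; rw [Finset.mem_filter] at hp; linarith [hp.2])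
  have hmono : ∀ w ∈ V, ∀ w' ∈ V, c w < c w' → c w + ε * g w < c w' + ε * g w' := by
    intro w hw w' hw' hlt
    have := hε' (w, w') (by simp [hw, hw', hlt])
    simp only at this
    linarith
  have key : ∀ (n : ℕ) (u : E), (V.filter (fun w => c u + ε * g u < c w + ε * g w)).card = n →
      u ∈ V → κ < c u → Relation.ReflTransGen (HStep V c κ) u z := by
    intro n
    induction n using Nat.strong_induction_on with
    | _ n ih =>
    intro u hun hu hκu
    by_cases huz : u = z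
    · rw [huz]
    have hzu : c u + ε * g u < c z + ε * g z := by
      rcases lt_or_eq_of_le (hzmax u hu) with h1 | h1
      · exact hmono u hu z hz h1
      · have := mul_lt_mul_of_pos_left (hg u hu huz) hε
        linarith
    obtain ⟨u', hu', hne', hadj, hlt⟩ := exists_better h hu (c + ε • g) ⟨z, hz, by simpa using hzu⟩
    simp only [LinearMap.add_apply, LinearMap.smul_apply, smul_eq_mul] at hlt
    have hcu : c u ≤ c u' := by
      by_contra hcon
      push Not at hcon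
      have := hmono u' hu' u hu hcon
      linarith
    have hstep : HStep V c κ u u' := ⟨hu, hu', hne'.symm, hadj, hκu, lt_of_lt_of_le hκu hcu⟩
    refine Relation.ReflTransGen.head hstep (ih _ ?_ u' rfl hu' (lt_of_lt_of_le hκu hcu))
    rw [← hun]
    apply Finset.card_lt_card
    rw [Finset.ssubset_iff_of_subset]
    · exact ⟨u', by simp [hu', hlt], by simp⟩
    · intro w hw
      rw [Finset.mem_filter] at hw ⊢
      exact ⟨hw.1, hlt.trans hw.2⟩
  intro u hu hκu
  exact key _ u rfl hu hκu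

section Graph

/-- the graph on the non-`Q` extreme points of `P` -/
abbrev NQ (P : Set E) (Q : E → Prop) : Type _ := {x : E // x ∈ Set.extremePoints ℝ P ∧ ¬ Q x}

def HG (P : Set E) (Q : E → Prop) : SimpleGraph (NQ P Q) :=
  SimpleGraph.fromRel (fun u v => IsExtreme ℝ P (segment ℝ u.1 v.1))

variable {Q : E → Prop}

theorem reach_of_path (h : FinPoly P V) (c : E →ₗ[ℝ] ℝ) (κ : ℝ)
    (hcut : ∀ x ∈ V, Q x → c x ≤ κ) {a b : E} (hab : Relation.ReflTransGen (HStep V c κ) a b)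
    (ha : a ∈ V) (hκa : κ < c a) :
    ∃ (a' b' : NQ P Q), a'.1 = a ∧ b'.1 = b ∧ (HG P Q).Reachable a' b' := by
  have mk : ∀ x ∈ V, κ < c x → x ∈ Set.extremePoints ℝ P ∧ ¬ Q x := by
    intro x hx hκ
    refine ⟨by rw [← h.ext]; exact_mod_cast hx, fun hQ => ?_⟩
    have := hcut x hx hQ
    linarith
  induction hab with
  | refl => exact ⟨⟨a, mk a ha hκa⟩, ⟨a, mk a ha hκa⟩, rfl, rfl, SimpleGraph.Reachable.refl _⟩
  | @tail b c' _ hstep ih =>
    obtain ⟨a', b', ha', hb', hr⟩ := ih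
    obtain ⟨hbV, hcV, hbc, hadj, hκb, hκc⟩ := hstep
    refine ⟨a', ⟨c', mk c' hcV hκc⟩, ha', rfl, hr.trans (SimpleGraph.Adj.reachable ?_)⟩
    unfold HG
    rw [SimpleGraph.fromRel_adj]
    refine ⟨?_, Or.inl ?_⟩
    · intro heq
      apply hbc
      rw [← hb', heq]
    · rw [hb']
      exact hadj.isExtreme h hbV hcV hbc

theorem reach_of_common (h : FinPoly P V) (c : E →ₗ[ℝ] ℝ) (κ : ℝ)
    (hcut : ∀ x ∈ V, Q x → c x ≤ κ) (u v : NQ P Q) (hu : κ < c u.1) (hv : κ < c v.1) :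
    (HG P Q).Reachable u v := by
  have hmemV : ∀ x, x ∈ P.extremePoints ℝ → x ∈ V := by
    intro x hx; rw [← h.ext] at hx; exact_mod_cast hx
  have huV : u.1 ∈ V := hmemV _ u.2.1
  have hvV : v.1 ∈ V := hmemV _ v.2.1
  obtain ⟨z, hz, hpath⟩ := path_to_max h c κ ⟨_, huV⟩
  obtain ⟨a1, b1, e1, e2, r1⟩ := reach_of_path h c κ hcut (hpath u.1 huV hu) huV hu
  obtain ⟨a2, b2, e3, e4, r2⟩ := reach_of_path h c κ hcut (hpath v.1 hvV hv) hvV hv
  have h1 : a1 = u := Subtype.ext e1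
  have h2 : a2 = v := Subtype.ext e3
  have h3 : b1 = b2 := Subtype.ext (by rw [e2, e4])
  subst h1 h2 h3
  exact r1.trans r2.symm

theorem exists_vertex_gt (h : FinPoly P V) (c : E →ₗ[ℝ] ℝ) (κ : ℝ)
    (hcut : ∀ x ∈ V, Q x → c x ≤ κ) {x : E} (hx : x ∈ P) (hκ : κ < c x) :
    ∃ v : NQ P Q, κ < c v.1 := by
  by_contra hcon
  push Not at hcon
  have hall : ∀ v ∈ V, c v ≤ κ := by
    intro v hv
    by_cases hQ : Q v
    · exact hcut v hv hQ
    · exact hcon ⟨v, by rw [← h.ext]; exact_mod_cast hv, hQ⟩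
  rw [h.hull, Finset.mem_convexHull'] at hx
  obtain ⟨w, hw0, hw1, rfl⟩ := hx
  rw [map_sum] at hκ
  simp only [map_smul, smul_eq_mul] at hκ
  have : ∑ y ∈ V, w y * c y ≤ ∑ y ∈ V, w y * κ :=
    Finset.sum_le_sum fun y hy => mul_le_mul_of_nonneg_left (hall y hy) (hw0 y hy)
  rw [← Finset.sum_mul, hw1, one_mul] at this
  linarith

theorem reach_of_link (h : FinPoly P V) (c c' : E →ₗ[ℝ] ℝ) (κ κ' : ℝ)
    (hcut : ∀ x ∈ V, Q x → c x ≤ κ) (hcut' : ∀ x ∈ V, Q x → c' x ≤ κ')
    {x : E} (hx : x ∈ P) (hκ : κ < c x) (hκ' : κ' < c' x)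
    (u v : NQ P Q) (hu : κ < c u.1) (hv : κ' < c' v.1) :
    (HG P Q).Reachable u v := by
  -- the interpolated functionals
  set L : ℝ → E →ₗ[ℝ] ℝ := fun t => (1 - t) • c + t • c' with hL
  set K : ℝ → ℝ := fun t => (1 - t) * κ + t * κ' with hK
  have hLx : ∀ t y, L t y = (1 - t) * c y + t * c' y := by intro t y; simp [hL]
  have hcutL : ∀ t ∈ Set.Icc (0:ℝ) 1, ∀ y ∈ V, Q y → L t y ≤ K t := by
    intro t ht y hy hQ
    rw [hLx, hK]
    have h1 := mul_le_mul_of_nonneg_left (hcut y hy hQ) (sub_nonneg.2 ht.2)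
    have h2 := mul_le_mul_of_nonneg_left (hcut' y hy hQ) ht.1
    simp only; linarith
  have hxL : ∀ t ∈ Set.Icc (0:ℝ) 1, K t < L t x := by
    intro t ht
    rw [hLx, hK]
    simp only
    by_cases h0 : t = 0
    · subst h0; linarith
    · have h1 : 0 < t := lt_of_le_of_ne ht.1 (Ne.symm h0)
      have h2 := mul_lt_mul_of_pos_left hκ' h1
      have h3 := mul_le_mul_of_nonneg_left hκ.le (sub_nonneg.2 ht.2)
      linarith
  -- open sets
  set O1 : Set ℝ := {t | ∃ w : NQ P Q, (HG P Q).Reachable u w ∧ K t < L t w.1} with hO1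
  set O2 : Set ℝ := {t | ∃ w : NQ P Q, ¬ (HG P Q).Reachable u w ∧ K t < L t w.1} with hO2
  have hopen : ∀ w : NQ P Q, IsOpen {t : ℝ | K t < L t w.1} := by
    intro w
    apply isOpen_lt
    · rw [hK]; fun_prop
    · simp only [hLx]; fun_prop
  have hO1open : IsOpen O1 := by
    have : O1 = ⋃ w : {w : NQ P Q // (HG P Q).Reachable u w}, {t : ℝ | K t < L t w.1.1} := by
      ext t; simp only [hO1, Set.mem_ofPred_eq, Set.mem_iUnion]
      constructor
      · rintro ⟨w, hw, hlt⟩; exact ⟨⟨w, hw⟩, hlt⟩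
      · rintro ⟨⟨w, hw⟩, hlt⟩; exact ⟨w, hw, hlt⟩
    rw [this]; exact isOpen_iUnion fun w => hopen w.1
  have hO2open : IsOpen O2 := by
    have : O2 = ⋃ w : {w : NQ P Q // ¬ (HG P Q).Reachable u w}, {t : ℝ | K t < L t w.1.1} := by
      ext t; simp only [hO2, Set.mem_ofPred_eq, Set.mem_iUnion]
      constructor
      · rintro ⟨w, hw, hlt⟩; exact ⟨⟨w, hw⟩, hlt⟩
      · rintro ⟨⟨w, hw⟩, hlt⟩; exact ⟨w, hw, hlt⟩
    rw [this]; exact isOpen_iUnion fun w => hopen w.1
  have hcover : Set.Icc (0:ℝ) 1 ⊆ O1 ∪ O2 := by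
    intro t ht
    obtain ⟨w, hw⟩ := exists_vertex_gt h (L t) (K t) (hcutL t ht) hx (hxL t ht)
    by_cases hr : (HG P Q).Reachable u w
    · exact Or.inl ⟨w, hr, hw⟩
    · exact Or.inr ⟨w, hr, hw⟩
  have hdisj : ∀ t ∈ Set.Icc (0:ℝ) 1, t ∈ O1 → t ∈ O2 → False := by
    rintro t ht ⟨w1, hw1, hlt1⟩ ⟨w2, hw2, hlt2⟩
    exact hw2 (hw1.trans (reach_of_common h (L t) (K t) (hcutL t ht) w1 w2 hlt1 hlt2))
  have h0 : (Set.Icc (0:ℝ) 1 ∩ O1).Nonempty := by
    refine ⟨0, by simp, u, SimpleGraph.Reachable.refl _, ?_⟩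
    rw [hLx, hK]; simpa using hu
  by_contra hnr
  have h1 : (Set.Icc (0:ℝ) 1 ∩ O2).Nonempty := by
    refine ⟨1, by simp, v, hnr, ?_⟩
    rw [hLx, hK]; simpa using hv
  obtain ⟨t, ht, ht1, ht2⟩ := isPreconnected_Icc O1 O2 hO1open hO2open hcover h0 h1
  exact hdisj t ht ht1 ht2

/-- Two points are linked when some functional valid on the `Q`-points is violated by both. -/
def Lnk (P : Set E) (Q : E → Prop) (a b : E) : Prop :=
  b ∈ P ∧ ∃ (c : E →ₗ[ℝ] ℝ) (κ : ℝ), (∀ x ∈ P, Q x → c x ≤ κ) ∧ κ < c a ∧ κ < c b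

theorem reach_of_chain (h : FinPoly P V) (u : NQ P Q) {y : E}
    (hy : Relation.ReflTransGen (Lnk P Q) u.1 y) :
    ∀ (c : E →ₗ[ℝ] ℝ) (κ : ℝ), (∀ x ∈ P, Q x → c x ≤ κ) → κ < c y →
      ∀ v : NQ P Q, κ < c v.1 → (HG P Q).Reachable u v := by
  have hVP : ∀ x ∈ V, x ∈ P := by
    intro x hx; rw [h.hull]; exact subset_convexHull ℝ _ (by exact_mod_cast hx)
  induction hy with
  | refl =>
    intro c κ hc hκ v hv
    exact reach_of_common h c κ (fun x hx => hc x (hVP x hx)) u v hκ hv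
  | @tail b y _ hstep ih =>
    obtain ⟨hyP, c0, κ0, hc0, hb0, hy0⟩ := hstep
    intro c κ hc hκ v hv
    obtain ⟨v0, hv0⟩ := exists_vertex_gt h c0 κ0 (fun x hx => hc0 x (hVP x hx)) hyP hy0
    have h1 := ih c0 κ0 hc0 hb0 v0 hv0
    exact h1.trans (reach_of_link h c0 c κ0 κ (fun x hx => hc0 x (hVP x hx))
      (fun x hx => hc x (hVP x hx)) hyP hy0 hκ v0 v hv0 hv)

theorem connected_of_chain (h : FinPoly P V)
    (hch : ∀ u v : NQ P Q, Relation.ReflTransGen (Lnk P Q) u.1 v.1) (hne : Nonempty (NQ P Q)) :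
    (HG P Q).Connected := by
  rw [SimpleGraph.connected_iff]
  refine ⟨fun u v => ?_, hne⟩
  rcases Relation.ReflTransGen.cases_tail (hch u v) with h1 | ⟨y, hy, hstep⟩
  · have : v = u := Subtype.ext h1
    rw [this]
  · obtain ⟨hvP, c, κ, hc, hκy, hκv⟩ := hstep
    exact reach_of_chain h u hy c κ hc hκy v hκv

end Graph

end Pool.Agent.Helper57.Met
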