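import Mathlib
import Pool.Agent.Helper57.Met.PolyA

/-!
# A compact polyhedron is the convex hull of its finitely many extreme points
-/

set_option autoImplicit false

open Set Finset

namespace Pool.Agent.Helper57.Met

variable {E : Type*} [NormedAddCommGroup E] [NormedSpace ℝ E]

theorem finite_extremePoints {ι : Type*} [Finite ι] (a : ι → E →ₗ[ℝ] ℝ) (b : ι → ℝ) :
    (Set.extremePoints ℝ {x : E | ∀ i, a i x ≤ b i}).Finite := by
  classical
  haveI := Fintype.ofFinite ι
  set P : Set E := {x : E | ∀ i, a i x ≤ b i} with hP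
  have hmem : ∀ x, x ∈ P ↔ ∀ i, a i x ≤ b i := fun x => Iff.rfl
  refine Set.Finite.of_injOn (f := fun x => {i | a i x = b i}) (t := Set.univ)
    (fun _ _ => Set.mem_univ _) ?_ Set.finite_univ
  intro x hx y hy hxy
  have hT : ∀ i, a i x = b i → a i y = b i := by
    intro i hi
    have : i ∈ {i | a i x = b i} := hi
    simp only at hxy
    rw [hxy] at this
    exact this
  have hxP : ∀ i, a i x ≤ b i := (hmem x).1 hx.1
  obtain ⟨ε, hε, hε'⟩ := exists_eps (Finset.univ.filter (fun i => a i x < b i))
    (fun i => |a i (y - x)|) (fun i => b i - a i x) (by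
      intro i hi; rw [Finset.mem_filter] at hi; linarith [hi.2])
  have key : ∀ s : ℝ, |s| = ε → x + s • (y - x) ∈ P := by
    intro s hs
    rw [hmem]
    intro i
    rw [map_add, map_smul, smul_eq_mul]
    rcases lt_or_eq_of_le (hxP i) with h1 | h1
    · have h2 := hε' i (by simp [h1])
      have h3 : s * a i (y - x) ≤ ε * |a i (y - x)| := by
        calc s * a i (y - x) ≤ |s * a i (y - x)| := le_abs_self _
          _ = ε * |a i (y - x)| := by rw [abs_mul, hs]
      linarith
    · have h2 : a i (y - x) = 0 := by rw [map_sub, hT i h1, h1, sub_self]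
      rw [h2, mul_zero, add_zero, h1]
  have h1 := key ε (abs_of_pos hε)
  have h2 := key (-ε) (by rw [abs_neg, abs_of_pos hε])
  rw [mem_extremePoints] at hx
  have h3 := hx.2 _ h1 _ h2 ⟨1/2, 1/2, by norm_num, by norm_num, by norm_num, by
    rw [neg_smul, smul_add, smul_add, smul_neg]
    rw [add_add_add_comm, add_neg_cancel, add_zero, ← add_smul]
    norm_num⟩
  have h4 : ε • (y - x) = 0 := by simpa using h3.1
  rcases smul_eq_zero.1 h4 with h5 | h5
  · exact absurd h5 hε.ne'
  · exact (sub_eq_zero.1 h5).symm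

theorem finPoly_of_finite {P : Set E} (hcomp : IsCompact P) (hconv : Convex ℝ P)
    (hfin : (Set.extremePoints ℝ P).Finite) : FinPoly P hfin.toFinset := by
  refine ⟨?_, by simp⟩
  have h1 := closure_convexHull_extremePoints hcomp hconv
  rw [Set.Finite.coe_toFinset]
  rw [(hfin.isClosed_convexHull ℝ).closure_eq] at h1
  exact h1.symm

end Pool.Agent.Helper57.Met
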