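import Mathlib
import Pool.Agent.Helper57.Met.PolyB
import Pool.Agent.Helper57.Met.Basic

/-!
# From chains of links to connectivity of the non-cut vertices
-/

set_option autoImplicit false

namespace Pool.Agent.Helper57.Met

variable {V : Type}

/-- the switched two-thirds point -/
noncomputable def om (η : V → Bool) : Sym2 V → ℝ := by
  classical
  exact Sym2.lift ⟨fun i j => if i = j then 0 else if η i = η j then 2/3 else 1/3,
    fun i j => by simp only [eq_comm]⟩

theorem om_self (η : V → Bool) (i : V) : om η s(i, i) = 0 := by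
  simp [om]

theorem om_ne (η : V → Bool) {i j : V} (h : i ≠ j) :
    om η s(i, j) = if η i = η j then 2/3 else 1/3 := by
  simp [om, h]

theorem om_mem (η : V → Bool) : om η ∈ MetP V := by
  classical
  refine ⟨fun i => om_self η i, fun i j k => ?_, fun i j k => ?_⟩
  · by_cases hij : i = j
    · subst hij
      rw [om_self]
      by_cases hik : i = k
      · subst hik; rw [om_self]; norm_num
      · rw [om_ne η hik, om_ne η (Ne.symm hik)]
        split_ifs <;> norm_num
    · by_cases hik : i = k
      · subst hik; rw [om_self, om_ne η hij]; norm_num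
      · by_cases hkj : k = j
        · subst hkj; rw [om_self, om_ne η hij]; norm_num
        · rw [om_ne η hij, om_ne η hik, om_ne η hkj]
          generalize η i = a; generalize η j = b; generalize η k = c
          cases a <;> cases b <;> cases c <;> norm_num
  · by_cases hij : i = j
    · subst hij
      rw [om_self]
      by_cases hik : i = k
      · subst hik; rw [om_self]; norm_num
      · rw [om_ne η hik]
        split_ifs <;> norm_num
    · by_cases hik : i = k
      · subst hik; rw [om_self, om_ne η hij, om_ne η (Ne.symm hij)]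
        split_ifs <;> norm_num
      · by_cases hkj : j = k
        · subst hkj; rw [om_self, om_ne η hij]
          split_ifs <;> norm_num
        · rw [om_ne η hij, om_ne η hik, om_ne η hkj]
          generalize η i = a; generalize η j = b; generalize η k = c
          cases a <;> cases b <;> cases c <;> norm_num

theorem dd_om (η : V → Bool) {p q : V × Bool} (h : p.1 ≠ q.1) (hp : η p.1 = p.2)
    (hq : η q.1 = q.2) : dd (om η) p q = 2/3 := by
  unfold dd
  rw [om_ne η h, hp, hq]
  split_ifs <;> norm_num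

theorem psum_om (η : V → Bool) (p : Fin 5 → V × Bool) (hinj : Function.Injective fun i => (p i).1)
    (hp : ∀ i, η (p i).1 = (p i).2) : psum (om η) p = 20/3 := by
  have h : ∀ i j, i ≠ j → dd (om η) (p i) (p j) = 2/3 := by
    intro i j hij
    exact dd_om η (fun h => hij (hinj h)) (hp i) (hp j)
  unfold psum
  rw [h 0 1 (by decide), h 0 2 (by decide), h 0 3 (by decide), h 0 4 (by decide),
    h 1 2 (by decide), h 1 3 (by decide), h 1 4 (by decide), h 2 3 (by decide),
    h 2 4 (by decide), h 3 4 (by decide)]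
  norm_num

theorem pent_link (y : Sym2 V → ℝ) (hy : y ∈ MetP V) (hyy : Rel y y) (p : Fin 5 → V × Bool)
    (hinj : Function.Injective fun i => (p i).1) (h6 : 6 ≤ psum y p) :
    ∃ η : V → Bool, Lk y (om η) := by
  classical
  refine ⟨Function.extend (fun i => (p i).1) (fun i => (p i).2) (fun _ => false), hy, om_mem _, ?_⟩
  set η := Function.extend (fun i => (p i).1) (fun i => (p i).2) (fun _ => false) with hη
  have hηp : ∀ i, η (p i).1 = (p i).2 := fun i =>
    hinj.extend_apply (fun i => (p i).2) (fun _ => false) i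
  obtain ⟨f, hf1, hf2, _⟩ := hyy
  have h20 := psum_om η p hinj hηp
  set t : ℝ := (3/2) * (|f (om η)| + 1) with ht
  have ht0 : 0 ≤ t := by positivity
  refine ⟨f + t • (psumA p - AffineMap.const ℝ _ 6), fun ε => ?_, ?_, ?_⟩
  · have h1 := hf1 ε
    have h2 := psum_cut_le ε p
    simp only [AffineMap.coe_add, Pi.add_apply, AffineMap.coe_smul, Pi.smul_apply,
      AffineMap.coe_sub, Pi.sub_apply, AffineMap.const_apply, psumA_apply, smul_eq_mul]
    nlinarith
  · simp only [AffineMap.coe_add, Pi.add_apply, AffineMap.coe_smul, Pi.smul_apply,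
      AffineMap.coe_sub, Pi.sub_apply, AffineMap.const_apply, psumA_apply, smul_eq_mul]
    have : 0 ≤ t * (psum y p - 6) := mul_nonneg ht0 (by linarith)
    linarith
  · simp only [AffineMap.coe_add, Pi.add_apply, AffineMap.coe_smul, Pi.smul_apply,
      AffineMap.coe_sub, Pi.sub_apply, AffineMap.const_apply, psumA_apply, smul_eq_mul]
    rw [h20, ht]
    have := neg_abs_le (f (om η))
    linarith

variable [Fintype V] [DecidableEq V]

theorem exists_five (hV : 6 ≤ Fintype.card V) (v : V) :
    ∃ p : Fin 5 → V, Function.Injective p ∧ ∀ i, p i ≠ v := by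
  have h1 : Fintype.card {w : V // w ≠ v} = Fintype.card V - 1 := by
    rw [Fintype.card_subtype_compl, Fintype.card_subtype_eq]
  obtain ⟨e⟩ : Nonempty (Fin 5 ↪ {w : V // w ≠ v}) := by
    apply Function.Embedding.nonempty_of_card_le
    rw [h1, Fintype.card_fin]; omega
  exact ⟨fun i => (e i).1, fun a b h => e.injective (Subtype.ext h), fun i => (e i).2⟩

theorem om_link (hV : 6 ≤ Fintype.card V) (v : V) (η η' : V → Bool)
    (h : ∀ w, w ≠ v → η w = η' w) : Lk (om η) (om η') := by
  obtain ⟨p, hp, hpv⟩ := exists_five hV v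
  refine ⟨om_mem _, om_mem _, psumA (fun i => (p i, η (p i))) - AffineMap.const ℝ _ 6,
    fun ε => ?_, ?_, ?_⟩
  · have h2 := psum_cut_le ε (fun i => (p i, η (p i)))
    simp only [AffineMap.coe_sub, Pi.sub_apply, AffineMap.const_apply, psumA_apply]
    linarith
  · simp only [AffineMap.coe_sub, Pi.sub_apply, AffineMap.const_apply, psumA_apply]
    rw [psum_om η _ hp (fun i => rfl)]; norm_num
  · simp only [AffineMap.coe_sub, Pi.sub_apply, AffineMap.const_apply, psumA_apply]
    rw [psum_om η' _ hp (fun i => (h _ (hpv i)).symm)]; norm_num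

theorem om_ch (hV : 6 ≤ Fintype.card V) (η : V → Bool) (S : Finset V) :
    ∀ η' : V → Bool, (∀ w, w ∉ S → η w = η' w) → Ch (om η) (om η') := by
  induction S using Finset.induction_on with
  | empty =>
    intro η' h
    have : η = η' := funext fun w => h w (by simp)
    rw [this]; exact Ch.refl _
  | insert v S hv ih =>
    intro η' h
    have h1 : Ch (om η) (om (Function.update η' v (η v))) := by
      apply ih
      intro w hw
      by_cases hwv : w = v
      · subst hwv; simp
      · rw [Function.update_of_ne hwv]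
        exact h w (by simp [hw, hwv])
    exact h1.trans (Lk.ch (om_link hV v _ _ (fun w hw => by rw [Function.update_of_ne hw])))

/-- the main claim, as a hypothesis for now -/
def MainClaim : Prop :=
  ∀ (V : Type) [Fintype V] [DecidableEq V] (x : Sym2 V → ℝ), x ∈ MetP V → Rel x x →
    ∃ z, Ch x z ∧ z ∈ MetP V ∧ Pent z

theorem all_linked (hmain : MainClaim) (hV : 6 ≤ Fintype.card V) {x y : Sym2 V → ℝ}
    (hx : x ∈ MetP V) (hxx : Rel x x) (hy : y ∈ MetP V) (hyy : Rel y y) : Ch x y := by
  have key : ∀ x : Sym2 V → ℝ, x ∈ MetP V → Rel x x → Ch x (om (fun _ => false)) := by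
    intro x hx hxx
    obtain ⟨z, hz1, hz2, p, hp, h6⟩ := hmain V x hx hxx
    have hzz := (hz1.good hx hxx).2
    obtain ⟨η, hη⟩ := pent_link z hz2 hzz p hp h6
    exact hz1.trans ((Lk.ch hη).trans (om_ch hV η Finset.univ _ (fun w hw => absurd (Finset.mem_univ w) hw)))
  exact (key x hx hxx).trans (key y hy hyy).symm

section Transfer

variable {n : ℕ}

/-- the metric polytope in matrix form -/
def PM (n : ℕ) : Set (Fin n → Fin n → ℝ) :=
  {x : Fin n → Fin n → ℝ |
              (∀ i, x i i = 0) ∧ (∀ i j, x i j = x j i) ∧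
              (∀ i j k, x i j ≤ x i k + x k j) ∧
              (∀ i j k, x i j + x i k + x j k ≤ 2)}

def QM (n : ℕ) (x : Fin n → Fin n → ℝ) : Prop :=
  ∃ S : Finset (Fin n), x = (fun i j => if (i ∈ S ↔ j ∈ S) then (0 : ℝ) else 1)

noncomputable def hat : (Fin n → Fin n → ℝ) →ₗ[ℝ] (Sym2 (Fin n) → ℝ) where
  toFun x e := Sym2.lift ⟨fun i j => (x i j + x j i) / 2, fun i j => by ring⟩ e
  map_add' x y := by
    funext e; induction e with
    | _ i j => simp; ring
  map_smul' c x := by
    funext e; induction e with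
    | _ i j => simp; ring

theorem hat_mk (x : Fin n → Fin n → ℝ) (i j : Fin n) : hat x s(i, j) = (x i j + x j i) / 2 := rfl

noncomputable def unhat : (Sym2 (Fin n) → ℝ) →ₗ[ℝ] (Fin n → Fin n → ℝ) where
  toFun z i j := z s(i, j)
  map_add' x y := by funext i j; simp
  map_smul' c x := by funext i j; simp

theorem unhat_apply (z : Sym2 (Fin n) → ℝ) (i j : Fin n) : unhat z i j = z s(i, j) := rfl

theorem hat_unhat (z : Sym2 (Fin n) → ℝ) : hat (unhat z) = z := by
  funext e; induction e with
  | _ i j =>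
    rw [hat_mk, unhat_apply, unhat_apply, Sym2.eq_swap (a := j) (b := i)]; ring

theorem unhat_hat {x : Fin n → Fin n → ℝ} (hx : x ∈ PM n) : unhat (hat x) = x := by
  funext i j
  rw [unhat_apply, hat_mk, hx.2.1 j i]; ring

theorem hat_mk_of_mem {x : Fin n → Fin n → ℝ} (hx : x ∈ PM n) (i j : Fin n) :
    hat x s(i, j) = x i j := by
  rw [hat_mk, hx.2.1 j i]; ring

theorem hat_mem {x : Fin n → Fin n → ℝ} (hx : x ∈ PM n) : hat x ∈ MetP (Fin n) := by
  refine ⟨fun i => ?_, fun i j k => ?_, fun i j k => ?_⟩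
  · rw [hat_mk_of_mem hx]; exact hx.1 i
  · rw [hat_mk_of_mem hx, hat_mk_of_mem hx, hat_mk_of_mem hx]; exact hx.2.2.1 i j k
  · rw [hat_mk_of_mem hx, hat_mk_of_mem hx, hat_mk_of_mem hx]; exact hx.2.2.2 i j k

theorem unhat_mem {z : Sym2 (Fin n) → ℝ} (hz : z ∈ MetP (Fin n)) : unhat z ∈ PM n := by
  refine ⟨fun i => ?_, fun i j => ?_, fun i j k => ?_, fun i j k => ?_⟩
  · rw [unhat_apply]; exact hz.1 i
  · rw [unhat_apply, unhat_apply, Sym2.eq_swap]
  · simp only [unhat_apply]; exact hz.2.1 i j k
  · simp only [unhat_apply]; exact hz.2.2 i j k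

theorem hat_cut {x : Fin n → Fin n → ℝ} (hx : QM n x) : ∃ ε : Fin n → Bool, hat x = cut ε := by
  obtain ⟨S, rfl⟩ := hx
  refine ⟨fun i => decide (i ∈ S), ?_⟩
  funext e; induction e with
  | _ i j =>
    rw [hat_mk, cut_mk]
    by_cases hi : i ∈ S <;> by_cases hj : j ∈ S <;> simp [hi, hj]

theorem unhat_cut (ε : Fin n → Bool) : QM n (unhat (cut ε)) := by
  refine ⟨Finset.univ.filter (fun i => ε i = true), ?_⟩
  funext i j
  rw [unhat_apply, cut_mk]
  cases hi : ε i <;> cases hj : ε j <;> simp [hi, hj]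

theorem QM_mem {x : Fin n → Fin n → ℝ} (hx : QM n x) : x ∈ PM n := by
  obtain ⟨S, rfl⟩ := hx
  refine ⟨fun i => by simp, fun i j => ?_, fun i j k => ?_, fun i j k => ?_⟩
  · simp only [Iff.comm]
  · by_cases hi : i ∈ S <;> by_cases hj : j ∈ S <;> by_cases hk : k ∈ S <;> simp [hi, hj, hk]
  · by_cases hi : i ∈ S <;> by_cases hj : j ∈ S <;> by_cases hk : k ∈ S <;> norm_num [hi, hj, hk]

theorem QM_finite : {x | QM n x}.Finite := by
  have : {x | QM n x} = Set.range (fun S : Finset (Fin n) =>
      (fun i j => if (i ∈ S ↔ j ∈ S) then (0 : ℝ) else 1 : Fin n → Fin n → ℝ)) := by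
    ext x; constructor
    · rintro ⟨S, rfl⟩; exact ⟨S, rfl⟩
    · rintro ⟨S, rfl⟩; exact ⟨S, rfl⟩
  rw [this]; exact Set.finite_range _

/-- the inequalities -/
noncomputable def PMa (n : ℕ) : (Fin 5 × Fin n × Fin n × Fin n) → (Fin n → Fin n → ℝ) →ₗ[ℝ] ℝ :=
  fun p =>
    let pr : Fin n → Fin n → (Fin n → Fin n → ℝ) →ₗ[ℝ] ℝ := fun i j =>
      (LinearMap.proj j : (Fin n → ℝ) →ₗ[ℝ] ℝ).comp (LinearMap.proj i)
    let i := p.2.1
    let j := p.2.2.1
    let k := p.2.2.2
    if p.1 = 0 then pr i i
    else if p.1 = 1 then - pr i i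
    else if p.1 = 2 then pr i j - pr j i
    else if p.1 = 3 then pr i j - pr i k - pr k j
    else pr i j + pr i k + pr j k

def PMb (n : ℕ) : (Fin 5 × Fin n × Fin n × Fin n) → ℝ := fun p => if p.1 = 4 then 2 else 0

theorem PM_eq (n : ℕ) : PM n = {x | ∀ i, PMa n i x ≤ PMb n i} := by
  ext x
  constructor
  · rintro ⟨h0, h1, h2, h3⟩ ⟨m, i, j, k⟩
    fin_cases m
    · simp [PMa, PMb, h0]
    · simp [PMa, PMb, h0]
    · simp [PMa, PMb, h1 i j]
    · simp [PMa, PMb]; linarith [h2 i j k]
    · simp [PMa, PMb]; exact h3 i j k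
  · intro h
    refine ⟨fun i => ?_, fun i j => ?_, fun i j k => ?_, fun i j k => ?_⟩
    · have h1 := h (0, i, i, i)
      have h2 := h (1, i, i, i)
      simp [PMa, PMb] at h1 h2
      linarith
    · have h1 := h (2, i, j, i)
      have h2 := h (2, j, i, i)
      simp [PMa, PMb] at h1 h2
      linarith
    · have h1 := h (3, i, j, k)
      simp [PMa, PMb] at h1
      linarith
    · have h1 := h (4, i, j, k)
      simp [PMa, PMb] at h1
      linarith

theorem PM_bound {x : Fin n → Fin n → ℝ} (hx : x ∈ PM n) (i j : Fin n) : x i j ∈ Set.Icc (0:ℝ) 1 := by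
  obtain ⟨h0, h1, h2, h3⟩ := hx
  have e1 := h2 i i j
  have e2 := h3 i j i
  rw [h0, h1 j i] at e1 e2
  constructor <;> linarith

theorem PM_closed (n : ℕ) : IsClosed (PM n) := by
  have h1 : PM n = ⋂ p, {x | PMa n p x ≤ PMb n p} := by
    rw [PM_eq]; ext x; simp
  rw [h1]
  exact isClosed_iInter fun p => isClosed_le (LinearMap.continuous_of_finiteDimensional _) continuous_const

theorem PM_compact (n : ℕ) : IsCompact (PM n) := by
  have h1 : IsCompact (Set.pi Set.univ (fun _ : Fin n => Set.pi Set.univ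
      (fun _ : Fin n => Set.Icc (0:ℝ) 1))) :=
    isCompact_univ_pi fun _ => isCompact_univ_pi fun _ => isCompact_Icc
  refine h1.of_isClosed_subset (PM_closed n) ?_
  intro x hx i _ j _
  exact PM_bound hx i j

theorem PM_convex (n : ℕ) : Convex ℝ (PM n) := by
  have h1 : PM n = ⋂ p, {x | PMa n p x ≤ PMb n p} := by
    rw [PM_eq]; ext x; simp
  rw [h1]
  exact convex_iInter fun p => convex_halfSpace_le (PMa n p).isLinear _

theorem PM_ext_finite (n : ℕ) : (Set.extremePoints ℝ (PM n)).Finite := by
  rw [PM_eq]; exact finite_extremePoints _ _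

theorem PM_finPoly (n : ℕ) : FinPoly (PM n) (PM_ext_finite n).toFinset :=
  finPoly_of_finite (PM_compact n) (PM_convex n) _

theorem rel_hat {u : Fin n → Fin n → ℝ} (hu : u ∈ Set.extremePoints ℝ (PM n)) (hQ : ¬ QM n u) :
    Rel (hat u) (hat u) := by
  have hnot : u ∉ convexHull ℝ {x | QM n x} := by
    intro hmem
    have hsub : convexHull ℝ {x | QM n x} ⊆ PM n :=
      convexHull_min (fun x hx => QM_mem hx) (PM_convex n)
    have h1 := inter_extremePoints_subset_extremePoints_of_subset hsub ⟨hmem, hu⟩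
    have h2 : u ∈ {x | QM n x} := extremePoints_convexHull_subset h1
    exact hQ h2
  obtain ⟨f, s, h1, h2⟩ := geometric_hahn_banach_closed_point (convex_convexHull ℝ _)
    (QM_finite.isClosed_convexHull ℝ) hnot
  refine ⟨((f.toLinearMap.comp unhat).toAffineMap - AffineMap.const ℝ _ s), fun ε => ?_, ?_, ?_⟩
  · have h3 := h1 _ (subset_convexHull ℝ _ (unhat_cut ε))
    simp
    exact h3.le
  · simp [unhat_hat hu.1]; exact h2
  · simp [unhat_hat hu.1]; exact h2

theorem lnk_of_lk {x y : Sym2 (Fin n) → ℝ} (h : Lk x y) : Lnk (PM n) (QM n) (unhat x) (unhat y) := by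
  obtain ⟨hx, hy, f, h1, h2, h3⟩ := h
  have hf : ∀ z, f z = f.linear z + f 0 := by
    intro z
    have := congrFun f.decomp z
    simpa using this
  refine ⟨unhat_mem hy, f.linear.comp hat, - f 0, fun x _ hQ => ?_, ?_, ?_⟩
  · obtain ⟨ε, hε⟩ := hat_cut hQ
    have h4 := h1 ε
    rw [hf] at h4
    rw [LinearMap.comp_apply, hε]
    linarith
  · rw [LinearMap.comp_apply, hat_unhat]
    rw [hf] at h2; linarith
  · rw [LinearMap.comp_apply, hat_unhat]
    rw [hf] at h3; linarith

theorem chain_of_ch {x y : Sym2 (Fin n) → ℝ} (h : Ch x y) :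
    Relation.ReflTransGen (Lnk (PM n) (QM n)) (unhat x) (unhat y) := by
  induction h with
  | refl => exact Relation.ReflTransGen.refl
  | tail _ h ih => exact ih.tail (lnk_of_lk h)

theorem final (hmain : MainClaim) (hn : 6 ≤ n) : (HG (PM n) (QM n)).Connected := by
  apply connected_of_chain (PM_finPoly n)
  · intro u v
    have hu := u.2.1.1
    have hv := v.2.1.1
    have h1 : Ch (hat u.1) (hat v.1) :=
      all_linked hmain (by simpa using hn) (hat_mem hu) (rel_hat u.2.1 u.2.2) (hat_mem hv)
        (rel_hat v.2.1 v.2.2)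
    have h2 := chain_of_ch h1
    rwa [unhat_hat hu, unhat_hat hv] at h2
  · -- nonempty
    have h0 : 0 < n := by omega
    have h1 := om_link (V := Fin n) (by simpa using hn) ⟨0, h0⟩ (fun _ => false) (fun _ => false)
      (fun _ _ => rfl)
    obtain ⟨hy, c, κ, hc, hκ1, hκ2⟩ := lnk_of_lk h1
    have hVP : ∀ x ∈ (PM_ext_finite n).toFinset, x ∈ PM n := by
      intro x hx; simp at hx; exact hx.1
    obtain ⟨v, _⟩ := exists_vertex_gt (PM_finPoly n) c κ (fun x hx => hc x (hVP x hx)) hy hκ2
    exact ⟨v⟩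

end Transfer

end Pool.Agent.Helper57.Met
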