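import Mathlib
import Pool.Agent.Helper57.Met.Basic

/-!
# Pentagonal configurations from `K_{1,4}` and `K_{2,3}`, and quadrilaterals through an edge
-/

set_option autoImplicit false
set_option linter.unusedSectionVars false

namespace Pool.Agent.Helper57.Met

variable {V : Type}

/-- the data of the half-point -/
structure HalfData (c y : Sym2 V → ℝ) (η : V → Bool) : Prop where
  cross : ∀ i j, c s(i, j) ≠ 0 → η i ≠ η j
  val : ∀ i j, c s(i, j) ≠ 0 → y s(i, j) = 1/4 ∨ y s(i, j) = 3/4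
  off : ∀ i j, i ≠ j → c s(i, j) = 0 → y s(i, j) = 1/2

theorem HalfData.same {c y : Sym2 V → ℝ} {η : V → Bool} (h : HalfData c y η) {i j : V}
    (hij : i ≠ j) (hη : η i = η j) : y s(i, j) = 1/2 := by
  apply h.off i j hij
  by_contra hne
  exact h.cross i j hne hη

theorem dd_half {y : Sym2 V → ℝ} {p q : V × Bool} (h : y s(p.1, q.1) = 1/2) : dd y p q = 1/2 := by
  unfold dd; rw [h]; split_ifs <;> norm_num

theorem exists_sign {y : Sym2 V → ℝ} {b l : V} (h : y s(b, l) = 1/4 ∨ y s(b, l) = 3/4) :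
    ∃ β : Bool, dd y (b, false) (l, β) = 3/4 := by
  rcases h with h | h
  · refine ⟨true, ?_⟩
    simp [dd, h]; norm_num
  · refine ⟨false, ?_⟩
    simp [dd, h]

theorem pent_K14 {c y : Sym2 V → ℝ} {η : V → Bool} (h : HalfData c y η) {b l1 l2 l3 l4 : V}
    (h1 : c s(b, l1) ≠ 0) (h2 : c s(b, l2) ≠ 0) (h3 : c s(b, l3) ≠ 0) (h4 : c s(b, l4) ≠ 0)
    (n12 : l1 ≠ l2) (n13 : l1 ≠ l3) (n14 : l1 ≠ l4) (n23 : l2 ≠ l3) (n24 : l2 ≠ l4)
    (n34 : l3 ≠ l4) : Pent y := by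
  have c1 := h.cross _ _ h1
  have c2 := h.cross _ _ h2
  have c3 := h.cross _ _ h3
  have c4 := h.cross _ _ h4
  have m1 : b ≠ l1 := by rintro rfl; exact c1 rfl
  have m2 : b ≠ l2 := by rintro rfl; exact c2 rfl
  have m3 : b ≠ l3 := by rintro rfl; exact c3 rfl
  have m4 : b ≠ l4 := by rintro rfl; exact c4 rfl
  have bb : ∀ x y z : Bool, x ≠ y → x ≠ z → y = z := by decide
  have e12 := h.same n12 (bb _ _ _ c1 c2)
  have e13 := h.same n13 (bb _ _ _ c1 c3)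
  have e14 := h.same n14 (bb _ _ _ c1 c4)
  have e23 := h.same n23 (bb _ _ _ c2 c3)
  have e24 := h.same n24 (bb _ _ _ c2 c4)
  have e34 := h.same n34 (bb _ _ _ c3 c4)
  obtain ⟨β1, d1⟩ := exists_sign (h.val _ _ h1)
  obtain ⟨β2, d2⟩ := exists_sign (h.val _ _ h2)
  obtain ⟨β3, d3⟩ := exists_sign (h.val _ _ h3)
  obtain ⟨β4, d4⟩ := exists_sign (h.val _ _ h4)
  refine ⟨![(b, false), (l1, β1), (l2, β2), (l3, β3), (l4, β4)], ?_, ?_⟩
  · intro i j hij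
    fin_cases i <;> fin_cases j <;> simp at hij ⊢ <;> first
      | exact absurd hij ‹_›
      | exact absurd hij.symm ‹_›
  · unfold psum
    simp only [Matrix.cons_val_zero, Matrix.cons_val_one, Matrix.cons_val]
    rw [d1, d2, d3, d4, dd_half (p := (l1, β1)) (q := (l2, β2)) e12,
      dd_half (p := (l1, β1)) (q := (l3, β3)) e13, dd_half (p := (l1, β1)) (q := (l4, β4)) e14,
      dd_half (p := (l2, β2)) (q := (l3, β3)) e23, dd_half (p := (l2, β2)) (q := (l4, β4)) e24,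
      dd_half (p := (l3, β3)) (q := (l4, β4)) e34]
    norm_num

theorem pent_K23 {c y : Sym2 V → ℝ} {η : V → Bool} (h : HalfData c y η) {u v w1 w2 w3 : V}
    (huv : u ≠ v) (n12 : w1 ≠ w2) (n13 : w1 ≠ w3) (n23 : w2 ≠ w3)
    (u1 : c s(u, w1) ≠ 0) (u2 : c s(u, w2) ≠ 0) (u3 : c s(u, w3) ≠ 0)
    (v1 : c s(v, w1) ≠ 0) (v2 : c s(v, w2) ≠ 0) (v3 : c s(v, w3) ≠ 0) : Pent y := by
  have cu1 := h.cross _ _ u1
  have cu2 := h.cross _ _ u2
  have cu3 := h.cross _ _ u3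
  have cv1 := h.cross _ _ v1
  have cv2 := h.cross _ _ v2
  have cv3 := h.cross _ _ v3
  have m1 : u ≠ w1 := by rintro rfl; exact cu1 rfl
  have m2 : u ≠ w2 := by rintro rfl; exact cu2 rfl
  have m3 : u ≠ w3 := by rintro rfl; exact cu3 rfl
  have m4 : v ≠ w1 := by rintro rfl; exact cv1 rfl
  have m5 : v ≠ w2 := by rintro rfl; exact cv2 rfl
  have m6 : v ≠ w3 := by rintro rfl; exact cv3 rfl
  have bb : ∀ x y z : Bool, x ≠ y → x ≠ z → y = z := by decide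
  have bb' : ∀ x y z : Bool, x ≠ z → y ≠ z → x = y := by decide
  have euv := h.same huv (bb' _ _ _ cu1 cv1)
  have e12 := h.same n12 (bb _ _ _ cu1 cu2)
  have e13 := h.same n13 (bb _ _ _ cu1 cu3)
  have e23 := h.same n23 (bb _ _ _ cu2 cu3)
  obtain ⟨β1, d1⟩ := exists_sign (h.val _ _ u1)
  obtain ⟨β2, d2⟩ := exists_sign (h.val _ _ u2)
  obtain ⟨β3, d3⟩ := exists_sign (h.val _ _ u3)
  have hv : ∀ w β, (y s(v, w) = 1/4 ∨ y s(v, w) = 3/4) →
      dd y (v, false) (w, β) = 1/4 ∨ dd y (v, false) (w, β) = 3/4 := by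
    intro w β hw
    unfold dd
    rcases hw with hw | hw <;> cases β <;> simp [hw] <;> norm_num
  have hτ : ∃ τ : Bool, 7/4 ≤ dd y (v, τ) (w1, β1) + dd y (v, τ) (w2, β2) + dd y (v, τ) (w3, β3) := by
    have f1 := hv w1 β1 (h.val _ _ v1)
    have f2 := hv w2 β2 (h.val _ _ v2)
    have f3 := hv w3 β3 (h.val _ _ v3)
    have g : ∀ w β, dd y (v, true) (w, β) = 1 - dd y (v, false) (w, β) := by
      intro w β
      exact dd_ng_left y (v, false) (w, β)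
    rcases f1 with f1 | f1 <;> rcases f2 with f2 | f2 <;> rcases f3 with f3 | f3
    · exact ⟨true, by rw [g, g, g, f1, f2, f3]; norm_num⟩
    · exact ⟨true, by rw [g, g, g, f1, f2, f3]; norm_num⟩
    · exact ⟨true, by rw [g, g, g, f1, f2, f3]; norm_num⟩
    · exact ⟨false, by rw [f1, f2, f3]; norm_num⟩
    · exact ⟨true, by rw [g, g, g, f1, f2, f3]; norm_num⟩
    · exact ⟨false, by rw [f1, f2, f3]; norm_num⟩
    · exact ⟨false, by rw [f1, f2, f3]; norm_num⟩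
    · exact ⟨false, by rw [f1, f2, f3]; norm_num⟩
  obtain ⟨τ, hτ⟩ := hτ
  refine ⟨![(u, false), (v, τ), (w1, β1), (w2, β2), (w3, β3)], ?_, ?_⟩
  · intro i j hij
    fin_cases i <;> fin_cases j <;> simp at hij ⊢ <;> first
      | exact absurd hij ‹_›
      | exact absurd hij.symm ‹_›
  · unfold psum
    simp only [Matrix.cons_val_zero, Matrix.cons_val_one, Matrix.cons_val]
    rw [d1, d2, d3, dd_half (p := (u, false)) (q := (v, τ)) euv,
      dd_half (p := (w1, β1)) (q := (w2, β2)) e12, dd_half (p := (w1, β1)) (q := (w3, β3)) e13,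
      dd_half (p := (w2, β2)) (q := (w3, β3)) e23]
    linarith

/-- quadrilaterals of the support graph of `c` -/
structure Q4 (c : Sym2 V → ℝ) (C : Set (Sym2 V)) (P Q R S : V) : Prop where
  eq : C = {s(P, Q), s(Q, R), s(R, S), s(S, P)}
  hPQ : c s(P, Q) ≠ 0
  hQR : c s(Q, R) ≠ 0
  hRS : c s(R, S) ≠ 0
  hSP : c s(S, P) ≠ 0
  nPQ : P ≠ Q
  nPR : P ≠ R
  nPS : P ≠ S
  nQR : Q ≠ R
  nQS : Q ≠ S
  nRS : R ≠ S

theorem Q4.rot {c : Sym2 V → ℝ} {C : Set (Sym2 V)} {P Q R S : V} (h : Q4 c C P Q R S) :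
    Q4 c C Q R S P := by
  refine ⟨?_, h.hQR, h.hRS, h.hSP, h.hPQ, h.nQR, h.nQS, h.nPQ.symm, h.nRS, h.nPR.symm, h.nPS.symm⟩
  rw [h.eq]
  ext e
  simp only [Set.mem_insert_iff, Set.mem_singleton_iff]
  tauto

theorem Q4.refl {c : Sym2 V → ℝ} {C : Set (Sym2 V)} {P Q R S : V} (h : Q4 c C P Q R S) :
    Q4 c C Q P S R := by
  refine ⟨?_, ?_, ?_, ?_, ?_, h.nPQ.symm, h.nQS, h.nQR, h.nPS, h.nPR, h.nRS.symm⟩
  · rw [h.eq]
    ext e
    simp only [Set.mem_insert_iff, Set.mem_singleton_iff]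
    rw [Sym2.eq_swap (a := P) (b := Q), Sym2.eq_swap (a := Q) (b := R),
      Sym2.eq_swap (a := R) (b := S), Sym2.eq_swap (a := S) (b := P)]
    tauto
  · rw [Sym2.eq_swap]; exact h.hPQ
  · rw [Sym2.eq_swap]; exact h.hSP
  · rw [Sym2.eq_swap]; exact h.hRS
  · rw [Sym2.eq_swap]; exact h.hQR

theorem Q4.through {c : Sym2 V → ℝ} {C : Set (Sym2 V)} {P Q R S : V} (h : Q4 c C P Q R S)
    {a b : V} (hab : s(a, b) ∈ C) : ∃ c' d', Q4 c C a b c' d' := by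
  rw [h.eq] at hab
  simp only [Set.mem_insert_iff, Set.mem_singleton_iff, Sym2.eq_iff] at hab
  rcases hab with (⟨rfl, rfl⟩ | ⟨rfl, rfl⟩) | (⟨rfl, rfl⟩ | ⟨rfl, rfl⟩) | (⟨rfl, rfl⟩ | ⟨rfl, rfl⟩) |
    (⟨rfl, rfl⟩ | ⟨rfl, rfl⟩)
  · exact ⟨_, _, h⟩
  · exact ⟨_, _, h.refl⟩
  · exact ⟨_, _, h.rot⟩
  · exact ⟨_, _, h.rot.refl⟩
  · exact ⟨_, _, h.rot.rot⟩
  · exact ⟨_, _, h.rot.rot.refl⟩
  · exact ⟨_, _, h.rot.rot.rot⟩
  · exact ⟨_, _, h.rot.rot.rot.refl⟩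

theorem K23_of_two {c y : Sym2 V → ℝ} {η : V → Bool} (h : HalfData c y η)
    {C1 C2 : Set (Sym2 V)} {a b c' d1 d2 : V} (h1 : Q4 c C1 a b c' d1) (h2 : Q4 c C2 a b c' d2)
    (hne : C1 ≠ C2) : Pent y := by
  have hd : d1 ≠ d2 := by
    rintro rfl; exact hne (h1.eq.trans h2.eq.symm)
  -- a, c' versus b, d1, d2
  refine pent_K23 h (u := a) (v := c') (w1 := b) (w2 := d1) (w3 := d2) h1.nPR h1.nQS h2.nQS hd
    h1.hPQ ?_ ?_ ?_ h1.hRS h2.hRS
  · rw [Sym2.eq_swap]; exact h1.hSP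
  · rw [Sym2.eq_swap]; exact h2.hSP
  · rw [Sym2.eq_swap]; exact h1.hQR

theorem pent_of_three {c y : Sym2 V → ℝ} {η : V → Bool} (h : HalfData c y η)
    {C1 C2 C3 : Set (Sym2 V)} {a b c1 d1 c2 d2 c3 d3 : V}
    (h1 : Q4 c C1 a b c1 d1) (h2 : Q4 c C2 a b c2 d2) (h3 : Q4 c C3 a b c3 d3)
    (n12 : C1 ≠ C2) (n13 : C1 ≠ C3) (n23 : C2 ≠ C3) : Pent y := by
  by_cases e12 : c1 = c2
  · subst e12; exact K23_of_two h h1 h2 n12
  by_cases e13 : c1 = c3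
  · subst e13; exact K23_of_two h h1 h3 n13
  by_cases e23 : c2 = c3
  · subst e23; exact K23_of_two h h2 h3 n23
  refine pent_K14 h (b := b) (l1 := a) (l2 := c1) (l3 := c2) (l4 := c3) ?_ h1.hQR h2.hQR h3.hQR
    h1.nPR h2.nPR h3.nPR e12 e13 e23
  rw [Sym2.eq_swap]; exact h1.hPQ

end Pool.Agent.Helper57.Met
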