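import Mathlib
import Pool.Agent.Helper57.Met.Basic

/-!
# Extension lemma: an antipodal pseudometric bounded by one dominates a point of the metric polytope
-/

set_option autoImplicit false

namespace Pool.Agent.Helper57.Met

variable {V : Type}

/-- antipodal invariant pseudometrics -/
structure IsAnt (d : V × Bool → V × Bool → ℝ) : Prop where
  self : ∀ p, d p p = 0
  symm : ∀ p q, d p q = d q p
  tri : ∀ p q r, d p q ≤ d p r + d r q
  inv : ∀ p q, d (ng p) (ng q) = d p q
  anti : ∀ p, d p (ng p) = 1

theorem IsAnt.nonneg {d : V × Bool → V × Bool → ℝ} (h : IsAnt d) (p q : V × Bool) : 0 ≤ d p q := by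
  have h1 := h.tri p p q
  rw [h.self, h.symm q p] at h1
  linarith

section shorten

variable {d : V × Bool → V × Bool → ℝ} (a b : V × Bool)

/-- one detour through the shortened pair -/
def detour (d : V × Bool → V × Bool → ℝ) (v : ℝ) (x y p q : V × Bool) : ℝ := d p x + v + d y q

/-- the shortened metric -/
def shorten (d : V × Bool → V × Bool → ℝ) (a b : V × Bool) (v : ℝ) (p q : V × Bool) : ℝ :=
  min (min (d p q) 1) (min (min (detour d v a b p q) (detour d v b a p q))
    (min (detour d v (ng a) (ng b) p q) (detour d v (ng b) (ng a) p q)))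

theorem shorten_le (d : V × Bool → V × Bool → ℝ) (a b : V × Bool) (v : ℝ) (p q : V × Bool) :
    shorten d a b v p q ≤ d p q ∧ shorten d a b v p q ≤ 1 ∧
    shorten d a b v p q ≤ d p a + v + d b q ∧ shorten d a b v p q ≤ d p b + v + d a q ∧
    shorten d a b v p q ≤ d p (ng a) + v + d (ng b) q ∧
    shorten d a b v p q ≤ d p (ng b) + v + d (ng a) q := by
  unfold shorten detour
  refine ⟨?_, ?_, ?_, ?_, ?_, ?_⟩ <;> simp

theorem shorten_cases (d : V × Bool → V × Bool → ℝ) (a b : V × Bool) (v : ℝ) (p q : V × Bool) :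
    shorten d a b v p q = d p q ∨ shorten d a b v p q = 1 ∨
    shorten d a b v p q = d p a + v + d b q ∨ shorten d a b v p q = d p b + v + d a q ∨
    shorten d a b v p q = d p (ng a) + v + d (ng b) q ∨
    shorten d a b v p q = d p (ng b) + v + d (ng a) q := by
  unfold shorten detour
  rcases min_choice (min (d p q) 1) (min (min (d p a + v + d b q) (d p b + v + d a q))
    (min (d p (ng a) + v + d (ng b) q) (d p (ng b) + v + d (ng a) q))) with h | h
  · rw [h]
    rcases min_choice (d p q) 1 with h | h <;> simp [h]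
  · rw [h]
    rcases min_choice (min (d p a + v + d b q) (d p b + v + d a q))
      (min (d p (ng a) + v + d (ng b) q) (d p (ng b) + v + d (ng a) q)) with h | h
    · rw [h]
      rcases min_choice (d p a + v + d b q) (d p b + v + d a q) with h | h <;> simp [h]
    · rw [h]
      rcases min_choice (d p (ng a) + v + d (ng b) q) (d p (ng b) + v + d (ng a) q) with h | h <;>
        simp [h]

theorem shorten_isAnt (h : IsAnt d) {v : ℝ} (hv0 : 0 ≤ v) (hv : v = 1 - d a (ng b)) :
    IsAnt (shorten d a b v) := by
  have hsymm : ∀ p q, shorten d a b v p q ≤ shorten d a b v q p := by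
    intro p q
    obtain ⟨h1, h2, h3, h4, h5, h6⟩ := shorten_le d a b v p q
    rcases shorten_cases d a b v q p with e | e | e | e | e | e <;> rw [e]
    · rw [h.symm q p]; exact h1
    · exact h2
    · rw [h.symm q a, h.symm b p]; linarith
    · rw [h.symm q b, h.symm a p]; linarith
    · rw [h.symm q (ng a), h.symm (ng b) p]; linarith
    · rw [h.symm q (ng b), h.symm (ng a) p]; linarith
  have inv' : ∀ p q, d (ng p) q = d p (ng q) := by
    intro p q
    have := h.inv p (ng q)
    rw [ng_ng] at this
    exact this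
  have hinv : ∀ p q, shorten d a b v (ng p) (ng q) ≤ shorten d a b v p q := by
    intro p q
    obtain ⟨h1, h2, h3, h4, h5, h6⟩ := shorten_le d a b v (ng p) (ng q)
    rw [h.inv] at h1
    rw [inv' p a, ← inv' b q] at h3
    rw [inv' p b, ← inv' a q] at h4
    rw [h.inv, h.inv] at h5 h6
    rcases shorten_cases d a b v p q with e | e | e | e | e | e <;> rw [e]
    · exact h1
    · exact h2
    · exact h5
    · exact h6
    · exact h3
    · exact h4
  refine ⟨fun p => ?_, fun p q => le_antisymm (hsymm p q) (hsymm q p), fun p q r => ?_,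
    fun p q => le_antisymm (hinv p q) ?_, fun p => ?_⟩
  · apply le_antisymm
    · have := (shorten_le d a b v p p).1
      rwa [h.self] at this
    · rcases shorten_cases d a b v p p with e | e | e | e | e | e <;> rw [e]
      · rw [h.self]
      · norm_num
      all_goals
        apply add_nonneg (add_nonneg (h.nonneg _ _) hv0) (h.nonneg _ _)
  · -- triangle
    obtain ⟨h1, h2, h3, h4, h5, h6⟩ := shorten_le d a b v p q
    have n1 := h.nonneg p r
    have n2 := h.nonneg r q
    have n3 := h.nonneg p a
    have n4 := h.nonneg p b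
    have n5 := h.nonneg p (ng a)
    have n6 := h.nonneg p (ng b)
    have n7 := h.nonneg a q
    have n8 := h.nonneg b q
    have n9 := h.nonneg (ng a) q
    have n10 := h.nonneg (ng b) q
    have n11 := h.nonneg a r
    have n12 := h.nonneg b r
    have n13 := h.nonneg (ng a) r
    have n14 := h.nonneg (ng b) r
    have s1 := h.symm r a
    have s2 := h.symm r b
    have s3 := h.symm r (ng a)
    have s4 := h.symm r (ng b)
    have t0 := h.tri p q r
    have t1 := h.tri p q a
    have t2 := h.tri p q b
    have t3 := h.tri p q (ng a)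
    have t4 := h.tri p q (ng b)
    have t5 := h.tri p a r
    have t6 := h.tri p b r
    have t7 := h.tri p (ng a) r
    have t8 := h.tri p (ng b) r
    have t9 := h.tri a q r
    have t10 := h.tri b q r
    have t11 := h.tri (ng a) q r
    have t12 := h.tri (ng b) q r
    have ab := h.nonneg a b
    have u1 := h.tri a b r
    have u2 := h.tri a (ng b) r
    have u3 := h.tri a (ng a) r
    have u4 := h.tri b (ng b) r
    have u5 := h.tri b (ng a) r
    have u6 := h.tri (ng a) (ng b) r
    have e1 := h.anti a
    have e2 := h.anti b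
    have e3 : d b (ng a) = d a (ng b) := by rw [← inv' b a, h.symm]
    have e4 : d (ng a) (ng b) = d a b := h.inv a b
    rcases shorten_cases d a b v p r with e | e | e | e | e | e <;>
      rcases shorten_cases d a b v r q with e' | e' | e' | e' | e' | e' <;>
      rw [e, e'] <;> linarith
  · have := hinv (ng p) (ng q)
    rwa [ng_ng, ng_ng] at this
  · apply le_antisymm (shorten_le d a b v p (ng p)).2.1
    have t1 := h.tri a (ng b) p
    have t2 := h.tri (ng a) b p
    have t3 := h.tri b (ng a) p
    have s1 := h.symm a p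
    have s2 := h.symm b p
    have s3 := h.symm (ng a) p
    have s4 := h.symm (ng b) p
    have e3 : d b (ng a) = d a (ng b) := by rw [← inv' b a, h.symm]
    have e5 : d (ng a) b = d a (ng b) := inv' a b
    have i1 : d b (ng p) = d (ng b) p := (inv' b p).symm
    have i2 : d a (ng p) = d (ng a) p := (inv' a p).symm
    have i3 : d (ng b) (ng p) = d b p := h.inv b p
    have i4 : d (ng a) (ng p) = d a p := h.inv a p
    rcases shorten_cases d a b v p (ng p) with e | e | e | e | e | e <;> rw [e]
    · rw [h.anti]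
    all_goals linarith

end shorten

theorem extension [Fintype V] (D : V × Bool → V × Bool → ℝ) (hD : IsAnt D)
    (hD1 : ∀ p q, D p q ≤ 1) : ∃ x ∈ MetP V, ∀ p q, dd x p q ≤ D p q := by
  classical
  set K : Set (V × Bool → V × Bool → ℝ) := {d | IsAnt d ∧ ∀ p q, d p q ≤ D p q} with hK
  have hKeq : K = ⋂ t : (V × Bool) × (V × Bool) × (V × Bool),
      ({d | d t.1 t.1 = 0} ∩ {d | d t.1 t.2.1 = d t.2.1 t.1} ∩
       {d | d t.1 t.2.1 ≤ d t.1 t.2.2 + d t.2.2 t.2.1} ∩
       {d | d (ng t.1) (ng t.2.1) = d t.1 t.2.1} ∩ {d | d t.1 (ng t.1) = 1} ∩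
       {d | d t.1 t.2.1 ≤ D t.1 t.2.1}) := by
    ext d
    constructor
    · rintro ⟨hd, hle⟩
      rw [Set.mem_iInter]
      rintro ⟨p, q, r⟩
      exact ⟨⟨⟨⟨⟨hd.self p, hd.symm p q⟩, hd.tri p q r⟩, hd.inv p q⟩, hd.anti p⟩, hle p q⟩
    · intro hd
      rw [Set.mem_iInter] at hd
      refine ⟨⟨fun p => ?_, fun p q => ?_, fun p q r => ?_, fun p q => ?_, fun p => ?_⟩,
        fun p q => ?_⟩
      · exact (hd (p, p, p)).1.1.1.1.1
      · exact (hd (p, q, p)).1.1.1.1.2
      · exact (hd (p, q, r)).1.1.1.2
      · exact (hd (p, q, p)).1.1.2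
      · exact (hd (p, p, p)).1.2
      · exact (hd (p, q, p)).2
  have hKclosed : IsClosed K := by
    rw [hKeq]
    apply isClosed_iInter
    rintro ⟨p, q, r⟩
    refine ((((IsClosed.inter ?_ ?_).inter ?_).inter ?_).inter ?_).inter ?_
    · exact isClosed_eq (by fun_prop) (by fun_prop)
    · exact isClosed_eq (by fun_prop) (by fun_prop)
    · exact isClosed_le (by fun_prop) (by fun_prop)
    · exact isClosed_eq (by fun_prop) (by fun_prop)
    · exact isClosed_eq (by fun_prop) (by fun_prop)
    · exact isClosed_le (by fun_prop) (by fun_prop)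
  have hKcomp : IsCompact K := by
    have h1 : IsCompact (Set.pi Set.univ (fun _ : V × Bool => Set.pi Set.univ
        (fun _ : V × Bool => Set.Icc (0:ℝ) 1))) :=
      isCompact_univ_pi fun _ => isCompact_univ_pi fun _ => isCompact_Icc
    refine h1.of_isClosed_subset hKclosed ?_
    rintro d ⟨hd, hle⟩ p _ q _
    exact ⟨hd.nonneg p q, (hle p q).trans (hD1 p q)⟩
  have hKne : K.Nonempty := ⟨D, hD, fun p q => le_rfl⟩
  obtain ⟨d, ⟨hd, hdD⟩, hmin⟩ := hKcomp.exists_isMinOn hKne
    (f := fun d => ∑ p : V × Bool, ∑ q : V × Bool, d p q) (by fun_prop)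
  have hcompl : ∀ a b, d a b + d a (ng b) = 1 := by
    intro a b
    have hge : 1 ≤ d a b + d a (ng b) := by
      have h1 := hd.tri b (ng b) a
      rw [hd.anti, hd.symm b a] at h1
      exact h1
    by_contra hne
    have hgt : 1 < d a b + d a (ng b) := lt_of_le_of_ne hge (Ne.symm hne)
    have hv0 : 0 ≤ 1 - d a (ng b) := by
      have := (hdD a (ng b)).trans (hD1 a (ng b))
      linarith
    set f := shorten d a b (1 - d a (ng b)) with hf
    have hfK : f ∈ K := ⟨shorten_isAnt a b hd hv0 rfl,
      fun p q => ((shorten_le d a b _ p q).1).trans (hdD p q)⟩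
    have h1 := hmin hfK
    have h2 : ∑ p : V × Bool, ∑ q : V × Bool, f p q < ∑ p : V × Bool, ∑ q : V × Bool, d p q := by
      have hle : ∀ p q, f p q ≤ d p q := fun p q => (shorten_le d a b _ p q).1
      apply Finset.sum_lt_sum (fun p _ => Finset.sum_le_sum fun q _ => hle p q)
      refine ⟨a, Finset.mem_univ _, Finset.sum_lt_sum (fun q _ => hle a q) ⟨b, Finset.mem_univ _, ?_⟩⟩
      have h3 := (shorten_le d a b (1 - d a (ng b)) a b).2.2.1
      rw [hd.self, hd.self] at h3
      calc f a b ≤ 0 + (1 - d a (ng b)) + 0 := h3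
        _ < d a b := by linarith
    exact absurd h1 (not_le.2 h2)
  refine ⟨Sym2.lift ⟨fun i j => d (i, true) (j, true), fun i j => hd.symm _ _⟩, ?_, ?_⟩
  · refine ⟨fun i => ?_, fun i j k => ?_, fun i j k => ?_⟩
    · rw [Sym2.lift_mk]; exact hd.self _
    · rw [Sym2.lift_mk, Sym2.lift_mk, Sym2.lift_mk]; exact hd.tri _ _ _
    · rw [Sym2.lift_mk, Sym2.lift_mk, Sym2.lift_mk]
      have h1 := hd.tri (j, true) (k, true) (ng (i, true))
      have h2 := hcompl (j, true) (i, true)
      have h3 := hcompl (k, true) (i, true)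
      have h4 := hd.symm (j, true) (i, true)
      have h5 := hd.symm (k, true) (i, true)
      have h6 := hd.symm (ng (i, true)) (k, true)
      simp only at *
      linarith
  · rintro ⟨i, α⟩ ⟨j, β⟩
    refine le_trans (le_of_eq ?_) (hdD _ _)
    unfold dd
    simp only [Sym2.lift_mk]
    have h2 := hcompl (i, true) (j, true)
    have h3 := hd.inv (i, true) (j, true)
    have h4 := hd.inv (i, true) (j, false)
    cases α <;> cases β <;> simp [ng] at *
    · exact h3.symm
    · rw [h4]; linarith
    · linarith

end Pool.Agent.Helper57.Met
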