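import Mathlib
import Pool.Agent.Helper57.Met.Ext
import Pool.Agent.Helper57.Met.PolyA

/-!
# The double cover graph, the path metric and the spanning lemma
-/

set_option autoImplicit false
set_option linter.unusedSectionVars false

namespace Pool.Agent.Helper57.Met

/-- Uniform choice of a small perturbation of a positive weight. -/
theorem gap {β : Type*} [Fintype β] [DecidableEq β] (E : Finset β) (s z : β → ℝ)
    (hs : ∀ e ∈ E, 0 < s e) :
    ∃ ε : ℝ, 0 < ε ∧ (∀ e ∈ E, ε * |z e| < s e) ∧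
      ∀ σ : ℝ, |σ| = ε → ∀ k : β → ℕ, (∀ e, e ∉ E → k e = 0) →
        1 ≤ ∑ e, (k e : ℝ) * s e → (∑ e, (k e : ℝ) * s e = 1 → ∑ e, (k e : ℝ) * z e = 0) →
        1 ≤ ∑ e, (k e : ℝ) * (s e + σ * z e) := by
  classical
  set T : Set (β → ℕ) := {k | (∀ e, e ∉ E → k e = 0) ∧ ∑ e, (k e : ℝ) * s e ≤ 2 ∧
    1 < ∑ e, (k e : ℝ) * s e} with hT
  have hnn : ∀ k : β → ℕ, (∀ e, e ∉ E → k e = 0) → ∀ e, 0 ≤ (k e : ℝ) * s e := by
    intro k hk e
    by_cases he : e ∈ E
    · exact mul_nonneg (Nat.cast_nonneg _) (hs e he).le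
    · rw [hk e he]; simp
  have hTfin : T.Finite := by
    set M : β → ℕ := fun e => if e ∈ E then ⌈2 / s e⌉₊ else 0 with hM
    refine (Set.finite_Icc (0 : β → ℕ) M).subset ?_
    rintro k ⟨hk0, hk2, _⟩
    refine ⟨fun e => Nat.zero_le _, fun e => ?_⟩
    by_cases he : e ∈ E
    · simp only [hM, if_pos he]
      have h1 : (k e : ℝ) * s e ≤ 2 := by
        refine le_trans ?_ hk2
        exact Finset.single_le_sum (f := fun e => (k e : ℝ) * s e) (fun e _ => hnn k hk0 e)
          (Finset.mem_univ e)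
      have h2 : (k e : ℝ) ≤ 2 / s e := by
        rw [le_div_iff₀ (hs e he)]; exact h1
      exact_mod_cast h2.trans (Nat.le_ceil _)
    · simp only [hM, if_neg he]; rw [hk0 e he]
  obtain ⟨ε1, hε1, h1⟩ := exists_eps hTfin.toFinset (fun k => |∑ e, (k e : ℝ) * z e|)
    (fun k => ∑ e, (k e : ℝ) * s e - 1) (by
      intro k hk
      rw [Set.Finite.mem_toFinset] at hk
      have := hk.2.2
      linarith)
  obtain ⟨ε2, hε2, h2⟩ := exists_eps E (fun e => 2 * |z e|) s hs
  refine ⟨min ε1 ε2, lt_min hε1 hε2, ?_, ?_⟩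
  · intro e he
    have h3 := h2 e he
    have h4 : min ε1 ε2 * |z e| ≤ ε2 * |z e| :=
      mul_le_mul_of_nonneg_right (min_le_right _ _) (abs_nonneg _)
    have h5 : 0 ≤ ε2 * |z e| := mul_nonneg hε2.le (abs_nonneg _)
    linarith
  · intro σ hσ k hk hk1 hk0
    have hsplit : ∑ e, (k e : ℝ) * (s e + σ * z e) =
        ∑ e, (k e : ℝ) * s e + σ * ∑ e, (k e : ℝ) * z e := by
      rw [Finset.mul_sum, ← Finset.sum_add_distrib]
      refine Finset.sum_congr rfl fun e _ => ?_
      ring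
    rcases eq_or_lt_of_le hk1 with h3 | h3
    · rw [hsplit, hk0 h3.symm, ← h3]; simp
    · by_cases h4 : ∑ e, (k e : ℝ) * s e ≤ 2
      · have hkT : k ∈ hTfin.toFinset := by
          rw [Set.Finite.mem_toFinset]; exact ⟨hk, h4, h3⟩
        have h5 := h1 k hkT
        rw [hsplit]
        have h6 : |σ * ∑ e, (k e : ℝ) * z e| ≤ ε1 * |∑ e, (k e : ℝ) * z e| := by
          rw [abs_mul, hσ]
          exact mul_le_mul_of_nonneg_right (min_le_left _ _) (abs_nonneg _)
        have h7 := neg_abs_le (σ * ∑ e, (k e : ℝ) * z e)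
        linarith
      · push Not at h4
        have h5 : ∑ e, (k e : ℝ) * s e / 2 ≤ ∑ e, (k e : ℝ) * (s e + σ * z e) := by
          refine Finset.sum_le_sum fun e _ => ?_
          by_cases he : e ∈ E
          · have h6 := h2 e he
            have h7 : |σ * z e| ≤ ε2 * |z e| := by
              rw [abs_mul, hσ]
              exact mul_le_mul_of_nonneg_right (min_le_right _ _) (abs_nonneg _)
            have h8 := neg_abs_le (σ * z e)
            have h9 : s e / 2 ≤ s e + σ * z e := by linarith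
            have h10 : (0:ℝ) ≤ k e := Nat.cast_nonneg _
            calc (k e : ℝ) * s e / 2 = (k e : ℝ) * (s e / 2) := by ring
              _ ≤ (k e : ℝ) * (s e + σ * z e) := mul_le_mul_of_nonneg_left h9 h10
          · rw [hk e he]; simp
        rw [← Finset.sum_div] at h5
        linarith

variable {V : Type}

/-- the double cover graph of `c` -/
def GG (c : Sym2 V → ℝ) : SimpleGraph (V × Bool) where
  Adj p q := p.1 ≠ q.1 ∧ c s(p.1, q.1) ≠ 0 ∧ (p.2 = q.2 ↔ c s(p.1, q.1) < 0)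
  symm := ⟨by
    rintro p q ⟨h1, h2, h3⟩
    refine ⟨h1.symm, ?_, ?_⟩
    · rw [Sym2.eq_swap]; exact h2
    · rw [Sym2.eq_swap, eq_comm]; exact h3⟩
  loopless := ⟨by
    rintro p ⟨h1, _⟩; exact h1 rfl⟩

/-- the covering coordinates -/
noncomputable def sv (c x : Sym2 V → ℝ) (e : Sym2 V) : ℝ := if 0 < c e then 1 - x e else x e

theorem dd_adj {c : Sym2 V → ℝ} (x : Sym2 V → ℝ) {p q : V × Bool} (h : (GG c).Adj p q) :
    dd x p q = sv c x s(p.1, q.1) := by
  obtain ⟨h1, h2, h3⟩ := h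
  unfold dd sv
  by_cases h4 : p.2 = q.2
  · have h5 := h3.1 h4
    rw [if_pos h4, if_neg (by linarith)]
  · have h5 : 0 < c s(p.1, q.1) := by
      rcases lt_or_gt_of_ne h2 with h6 | h6
      · exact absurd (h3.2 h6) h4
      · exact h6
    rw [if_neg h4, if_pos h5]

/-- edge list (in `V`) of a walk -/
def el {c : Sym2 V → ℝ} {p q : V × Bool} (w : (GG c).Walk p q) : List (Sym2 V) :=
  w.edges.map (Sym2.map Prod.fst)

/-- weight of a walk -/
def wt {c : Sym2 V → ℝ} (t : Sym2 V → ℝ) {p q : V × Bool} (w : (GG c).Walk p q) : ℝ :=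
  ((el w).map t).sum

@[simp] theorem wt_nil {c : Sym2 V → ℝ} (t : Sym2 V → ℝ) (p : V × Bool) :
    wt t (SimpleGraph.Walk.nil : (GG c).Walk p p) = 0 := by
  simp [wt, el]

@[simp] theorem wt_cons {c : Sym2 V → ℝ} (t : Sym2 V → ℝ) {p q r : V × Bool}
    (h : (GG c).Adj p q) (w : (GG c).Walk q r) :
    wt t (SimpleGraph.Walk.cons h w) = t s(p.1, q.1) + wt t w := by
  simp [wt, el]

theorem wt_append {c : Sym2 V → ℝ} (t : Sym2 V → ℝ) {p q r : V × Bool}
    (w : (GG c).Walk p q) (w' : (GG c).Walk q r) :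
    wt t (w.append w') = wt t w + wt t w' := by
  simp [wt, el]

theorem wt_reverse {c : Sym2 V → ℝ} (t : Sym2 V → ℝ) {p q : V × Bool} (w : (GG c).Walk p q) :
    wt t w.reverse = wt t w := by
  simp [wt, el, List.map_reverse, List.sum_reverse]

/-- the antipodal automorphism -/
def ngHom (c : Sym2 V → ℝ) : GG c →g GG c where
  toFun := ng
  map_rel' := by
    rintro p q ⟨h1, h2, h3⟩
    refine ⟨h1, h2, ?_⟩
    simp only [ng_fst, ng_snd]
    rw [← h3]
    cases p.2 <;> cases q.2 <;> simp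

theorem wt_ng {c : Sym2 V → ℝ} (t : Sym2 V → ℝ) {p q : V × Bool} (w : (GG c).Walk p q) :
    wt t (w.map (ngHom c)) = wt t w := by
  have h1 : el (w.map (ngHom c)) = el w := by
    unfold el
    rw [SimpleGraph.Walk.edges_map, List.map_map]
    have : (Sym2.map Prod.fst ∘ Sym2.map ⇑(ngHom c) : Sym2 (V × Bool) → Sym2 V) = Sym2.map Prod.fst := by
      funext e
      rw [Function.comp, Sym2.map_map]
      rfl
    rw [this]
  unfold wt
  rw [h1]

theorem wt_nonneg {c : Sym2 V → ℝ} {t : Sym2 V → ℝ} (ht : ∀ e, c e ≠ 0 → 0 ≤ t e)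
    {p q : V × Bool} (w : (GG c).Walk p q) : 0 ≤ wt t w := by
  induction w with
  | nil => simp
  | cons h w ih =>
    rw [wt_cons]
    exact add_nonneg (ht _ h.2.1) ih

theorem dd_le_wt {c : Sym2 V → ℝ} {x : Sym2 V → ℝ} (hx : x ∈ MetP V)
    {p q : V × Bool} (w : (GG c).Walk p q) : dd x p q ≤ wt (sv c x) w := by
  induction w with
  | nil => rw [dd_self hx, wt_nil]
  | @cons u v w' h w ih =>
    rw [wt_cons, ← dd_adj x h]
    have := dd_tri hx u w' v
    linarith

section cnt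
variable [Fintype V] [DecidableEq V]

/-- usage counts -/
def cnt {c : Sym2 V → ℝ} {p q : V × Bool} (w : (GG c).Walk p q) : Sym2 V → ℕ :=
  fun e => (el w).count e

theorem wt_eq_cnt {c : Sym2 V → ℝ} (t : Sym2 V → ℝ) {p q : V × Bool} (w : (GG c).Walk p q) :
    wt t w = ∑ e, (cnt w e : ℝ) * t e := by
  induction w with
  | nil => simp [cnt, el]
  | @cons u v w' h w ih =>
    rw [wt_cons, ih]
    have h1 : ∀ e, (cnt (SimpleGraph.Walk.cons h w) e : ℝ) =
        (cnt w e : ℝ) + if s(u.1, v.1) = e then 1 else 0 := by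
      intro e
      unfold cnt el
      simp only [SimpleGraph.Walk.edges_cons, List.map_cons, Sym2.map_mk, List.count_cons]
      push_cast
      congr 1
      simp
    simp only [h1, add_mul, Finset.sum_add_distrib]
    simp
    ring

theorem cnt_eq_zero {c : Sym2 V → ℝ} {p q : V × Bool} (w : (GG c).Walk p q) (e : Sym2 V)
    (he : c e = 0) : cnt w e = 0 := by
  induction w with
  | nil => simp [cnt, el]
  | @cons u v w' h w ih =>
    unfold cnt el at *
    simp only [SimpleGraph.Walk.edges_cons, List.map_cons, Sym2.map_mk, List.count_cons]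
    rw [ih]
    have : s(u.1, v.1) ≠ e := by
      rintro rfl; exact h.2.1 he
    simp [this]

end cnt

/-- path metric, capped at `1` -/
noncomputable def pm (c t : Sym2 V → ℝ) (p q : V × Bool) : ℝ :=
  sInf (insert 1 (Set.range (fun w : (GG c).Walk p q => wt t w)))

theorem pm_bdd {c t : Sym2 V → ℝ} (ht : ∀ e, c e ≠ 0 → 0 ≤ t e) (p q : V × Bool) :
    ∀ a ∈ (insert 1 (Set.range (fun w : (GG c).Walk p q => wt t w)) : Set ℝ), 0 ≤ a := by
  rintro a (rfl | ⟨w, rfl⟩)
  · norm_num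
  · exact wt_nonneg ht w

theorem pm_le_one {c t : Sym2 V → ℝ} (ht : ∀ e, c e ≠ 0 → 0 ≤ t e) (p q : V × Bool) :
    pm c t p q ≤ 1 := csInf_le ⟨0, pm_bdd ht p q⟩ (Set.mem_insert _ _)

theorem pm_le_wt {c t : Sym2 V → ℝ} (ht : ∀ e, c e ≠ 0 → 0 ≤ t e) {p q : V × Bool}
    (w : (GG c).Walk p q) : pm c t p q ≤ wt t w :=
  csInf_le ⟨0, pm_bdd ht p q⟩ (Set.mem_insert_of_mem _ ⟨w, rfl⟩)

theorem pm_nonneg {c t : Sym2 V → ℝ} (ht : ∀ e, c e ≠ 0 → 0 ≤ t e) (p q : V × Bool) :
    0 ≤ pm c t p q := le_csInf (Set.insert_nonempty _ _) (pm_bdd ht p q)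

theorem le_pm {c t : Sym2 V → ℝ} {p q : V × Bool} {a : ℝ} (h1 : a ≤ 1)
    (h2 : ∀ w : (GG c).Walk p q, a ≤ wt t w) : a ≤ pm c t p q := by
  apply le_csInf (Set.insert_nonempty _ _)
  rintro b (rfl | ⟨w, rfl⟩)
  · exact h1
  · exact h2 w

theorem pm_isAnt {c t : Sym2 V → ℝ} (ht : ∀ e, c e ≠ 0 → 0 ≤ t e)
    (h1 : ∀ p, ∀ w : (GG c).Walk p (ng p), 1 ≤ wt t w) : IsAnt (pm c t) := by
  have hsymm : ∀ p q, pm c t p q ≤ pm c t q p := by
    intro p q
    apply le_pm (pm_le_one ht p q)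
    intro w
    rw [← wt_reverse]
    exact pm_le_wt ht _
  have hinv : ∀ p q, pm c t (ng p) (ng q) ≤ pm c t p q := by
    intro p q
    apply le_pm (pm_le_one ht _ _)
    intro w
    rw [← wt_ng]
    exact pm_le_wt ht _
  refine ⟨fun p => ?_, fun p q => le_antisymm (hsymm p q) (hsymm q p), fun p q r => ?_,
    fun p q => le_antisymm (hinv p q) ?_, fun p => ?_⟩
  · apply le_antisymm _ (pm_nonneg ht _ _)
    have := pm_le_wt ht (SimpleGraph.Walk.nil : (GG c).Walk p p)
    rwa [wt_nil] at this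
  · -- triangle
    have n1 := pm_nonneg ht p r
    have n2 := pm_nonneg ht r q
    have key : ∀ w' : (GG c).Walk r q, pm c t p q - wt t w' ≤ pm c t p r := by
      intro w'
      have n3 := wt_nonneg ht w'
      have n4 := pm_le_one ht p q
      apply le_pm (by linarith)
      intro w
      have := pm_le_wt ht (w.append w')
      rw [wt_append] at this
      linarith
    have : pm c t p q - pm c t p r ≤ pm c t r q := by
      have n4 := pm_le_one ht p q
      apply le_pm (by linarith)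
      intro w'
      have := key w'
      linarith
    linarith
  · have := hinv (ng p) (ng q)
    rwa [ng_ng, ng_ng] at this
  · apply le_antisymm (pm_le_one ht _ _)
    exact le_pm le_rfl (h1 p)

theorem pm_adj {c t : Sym2 V → ℝ} (ht : ∀ e, c e ≠ 0 → 0 ≤ t e) {p q : V × Bool}
    (h : (GG c).Adj p q) : pm c t p q ≤ t s(p.1, q.1) := by
  have := pm_le_wt ht (SimpleGraph.Walk.cons h SimpleGraph.Walk.nil)
  rwa [wt_cons, wt_nil, add_zero] at this

theorem exists_adj {c : Sym2 V → ℝ} (hdiag : ∀ i, c s(i, i) = 0) {i j : V} (h : c s(i, j) ≠ 0) :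
    ∃ p q : V × Bool, p.1 = i ∧ q.1 = j ∧ (GG c).Adj p q := by
  have hij : i ≠ j := by rintro rfl; exact h (hdiag i)
  rcases lt_or_gt_of_ne h with h1 | h1
  · exact ⟨(i, false), (j, false), rfl, rfl, hij, h, by simp [h1]⟩
  · refine ⟨(i, false), (j, true), rfl, rfl, hij, h, ?_⟩
    simp
    exact h1.le

section Main
variable [Fintype V] [DecidableEq V]

theorem exists_point {c t : Sym2 V → ℝ} (hdiag : ∀ i, c s(i, i) = 0)
    (ht : ∀ e, c e ≠ 0 → 0 ≤ t e)
    (h1 : ∀ p, ∀ w : (GG c).Walk p (ng p), 1 ≤ wt t w) :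
    ∃ x ∈ MetP V, ∀ e, c e ≠ 0 → sv c x e ≤ t e := by
  obtain ⟨x, hx, hle⟩ := extension (pm c t) (pm_isAnt ht h1) (pm_le_one ht)
  refine ⟨x, hx, fun e he => ?_⟩
  induction e with
  | _ i j =>
    obtain ⟨p, q, rfl, rfl, hadj⟩ := exists_adj hdiag he
    rw [← dd_adj x hadj]
    exact (hle p q).trans (pm_adj ht hadj)

/-- the linear functional with coefficients `c` -/
def dot (c x : Sym2 V → ℝ) : ℝ := ∑ e, c e * x e

theorem dot_eq (c x : Sym2 V → ℝ) :
    dot c x = ∑ e, max (c e) 0 - ∑ e, |c e| * sv c x e := by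
  unfold dot
  rw [← Finset.sum_sub_distrib]
  refine Finset.sum_congr rfl fun e _ => ?_
  unfold sv
  by_cases h : 0 < c e
  · rw [if_pos h, abs_of_pos h, max_eq_left h.le]; ring
  · rw [if_neg h, max_eq_right (not_lt.1 h), abs_of_nonpos (not_lt.1 h)]; ring

theorem spanning {c x : Sym2 V → ℝ} (hdiag : ∀ i, c s(i, i) = 0) (hx : x ∈ MetP V)
    (hopt : ∀ y ∈ MetP V, dot c y ≤ dot c x)
    (hpos : ∀ e, c e ≠ 0 → 0 < sv c x e)
    (hext : ∀ y1 ∈ MetP V, ∀ y2 ∈ MetP V, dot c y1 = dot c x → dot c y2 = dot c x →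
      (∀ e, c e ≠ 0 → x e = (y1 e + y2 e) / 2) → ∀ e, c e ≠ 0 → y1 e = x e)
    (z : Sym2 V → ℝ)
    (hz : ∀ p, ∀ w : (GG c).Walk p (ng p), wt (sv c x) w = 1 → wt z w = 0) :
    ∀ e, c e ≠ 0 → z e = 0 := by
  classical
  obtain ⟨ε, hε, hsmall, hgap⟩ := gap (Finset.univ.filter (fun e => c e ≠ 0)) (sv c x) z (by
    intro e he; exact hpos e (Finset.mem_filter.1 he).2)
  have key : ∀ σ : ℝ, |σ| = ε → ∃ y ∈ MetP V, ∀ e, c e ≠ 0 → sv c y e ≤ sv c x e + σ * z e := by
    intro σ hσ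
    apply exists_point hdiag
    · intro e he
      have h1 := hsmall e (by simp [he])
      have h2 := neg_abs_le (σ * z e)
      rw [abs_mul, hσ] at h2
      linarith
    · intro p w
      rw [wt_eq_cnt]
      apply hgap σ hσ (cnt w)
      · intro e he
        apply cnt_eq_zero
        by_contra h; exact he (by simp [h])
      · rw [← wt_eq_cnt]
        have := dd_le_wt hx w
        rwa [dd_self_ng hx] at this
      · rw [← wt_eq_cnt, ← wt_eq_cnt]
        exact hz p w
  obtain ⟨y1, hy1, h1⟩ := key ε (abs_of_pos hε)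
  obtain ⟨y2, hy2, h2⟩ := key (-ε) (by rw [abs_neg, abs_of_pos hε])
  have o1 := hopt y1 hy1
  have o2 := hopt y2 hy2
  rw [dot_eq c y1, dot_eq c x] at o1
  rw [dot_eq c y2, dot_eq c x] at o2
  have t1 : ∀ e, |c e| * sv c y1 e ≤ |c e| * (sv c x e + ε * z e) := by
    intro e
    by_cases he : c e = 0
    · rw [he]; simp
    · exact mul_le_mul_of_nonneg_left (h1 e he) (abs_nonneg _)
  have t2 : ∀ e, |c e| * sv c y2 e ≤ |c e| * (sv c x e + (-ε) * z e) := by
    intro e
    by_cases he : c e = 0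
    · rw [he]; simp
    · exact mul_le_mul_of_nonneg_left (h2 e he) (abs_nonneg _)
  have s1 : ∑ e, |c e| * (sv c x e + ε * z e) = ∑ e, |c e| * sv c x e + ε * ∑ e, |c e| * z e := by
    rw [Finset.mul_sum, ← Finset.sum_add_distrib]
    refine Finset.sum_congr rfl fun e _ => ?_
    ring
  have s2 : ∑ e, |c e| * (sv c x e + (-ε) * z e) =
      ∑ e, |c e| * sv c x e - ε * ∑ e, |c e| * z e := by
    rw [Finset.mul_sum, ← Finset.sum_sub_distrib]
    refine Finset.sum_congr rfl fun e _ => ?_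
    ring
  have u1 := Finset.sum_le_sum (fun e (_ : e ∈ Finset.univ) => t1 e)
  have u2 := Finset.sum_le_sum (fun e (_ : e ∈ Finset.univ) => t2 e)
  rw [s1] at u1
  rw [s2] at u2
  have e1 : ∑ e, |c e| * sv c y1 e = ∑ e, |c e| * (sv c x e + ε * z e) := by
    rw [s1]; linarith
  have e2 : ∑ e, |c e| * sv c y2 e = ∑ e, |c e| * (sv c x e + (-ε) * z e) := by
    rw [s2]; linarith
  have f1 := (Finset.sum_eq_sum_iff_of_le (fun e _ => t1 e)).1 e1
  have f2 := (Finset.sum_eq_sum_iff_of_le (fun e _ => t2 e)).1 e2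
  have g1 : ∀ e, c e ≠ 0 → sv c y1 e = sv c x e + ε * z e := by
    intro e he
    exact mul_left_cancel₀ (abs_ne_zero.2 he) (f1 e (Finset.mem_univ e))
  have g2 : ∀ e, c e ≠ 0 → sv c y2 e = sv c x e + (-ε) * z e := by
    intro e he
    exact mul_left_cancel₀ (abs_ne_zero.2 he) (f2 e (Finset.mem_univ e))
  have hmid : ∀ e, c e ≠ 0 → x e = (y1 e + y2 e) / 2 := by
    intro e he
    have i1 := g1 e he
    have i2 := g2 e he
    unfold sv at i1 i2
    by_cases h : 0 < c e
    · simp only [if_pos h] at i1 i2; linarith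
    · simp only [if_neg h] at i1 i2; linarith
  have d1 : dot c y1 = dot c x := by
    rw [dot_eq c y1, dot_eq c x]; linarith
  have d2 : dot c y2 = dot c x := by
    rw [dot_eq c y2, dot_eq c x]; linarith
  intro e he
  have h3 := hext y1 hy1 y2 hy2 d1 d2 hmid e he
  have i1 := g1 e he
  unfold sv at i1
  rw [h3] at i1
  have : ε * z e = 0 := by linarith
  rcases mul_eq_zero.1 this with h4 | h4
  · exact absurd h4 hε.ne'
  · exact h4

end Main

/-- Classification of tight antipodal walks at a non-pentagonal point. -/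
theorem tight_cases {c x : Sym2 V → ℝ} (hx : x ∈ MetP V) (hnp : ¬ Pent x)
    (hpos : ∀ e, c e ≠ 0 → 0 < sv c x e)
    {p q : V × Bool} (w : (GG c).Walk p q) (hq : q = ng p) (hw : wt (sv c x) w = 1) :
    (∃ q1 q2, (GG c).Adj p q1 ∧ (GG c).Adj q1 q2 ∧ (GG c).Adj q2 (ng p) ∧
      ∀ t, wt t w = t s(p.1, q1.1) + t s(q1.1, q2.1) + t s(q2.1, p.1)) ∨
    (∃ q1 q2 q3, (GG c).Adj p q1 ∧ (GG c).Adj q1 q2 ∧ (GG c).Adj q2 q3 ∧ (GG c).Adj q3 (ng p) ∧
      p.1 ≠ q2.1 ∧ q1.1 ≠ q3.1 ∧
      ∀ t, wt t w = t s(p.1, q1.1) + t s(q1.1, q2.1) + t s(q2.1, q3.1) + t s(q3.1, p.1)) := by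
  have hpos' : ∀ {a b : V × Bool}, (GG c).Adj a b → 0 < sv c x s(a.1, b.1) :=
    fun h => hpos _ h.2.1
  have hdist : ∀ a b : V × Bool, 0 < dd x a b → dd x a b < 1 → a.1 ≠ b.1 := by
    intro a b h0 h1 hab
    by_cases h2 : a.2 = b.2
    · have : a = b := Prod.ext hab h2
      rw [this, dd_self hx] at h0
      exact lt_irrefl _ h0
    · have : b = ng a := by
        refine Prod.ext hab.symm ?_
        simp only [ng_snd]
        cases ha : a.2 <;> cases hb : b.2 <;> simp_all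
      rw [this, dd_self_ng hx] at h1
      exact lt_irrefl _ h1
  cases w with
  | nil => exact absurd hq.symm (ng_ne p)
  | @cons _ q1 _ h1 w =>
  cases w with
  | nil =>
    subst hq
    exact absurd rfl h1.1
  | @cons _ q2 _ h2 w =>
  cases w with
  | nil =>
    subst hq
    exfalso
    obtain ⟨_, _, a3⟩ := h1
    obtain ⟨_, _, b3⟩ := h2
    simp only [ng_fst, ng_snd] at b3
    rw [Sym2.eq_swap, ← a3] at b3
    revert b3
    cases p.2 <;> cases q1.2 <;> simp
  | @cons _ q3 _ h3 w =>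
  cases w with
  | nil =>
    subst hq
    left
    refine ⟨q1, q2, h1, h2, h3, fun t => ?_⟩
    simp only [wt_cons, wt_nil, ng_fst]; ring
  | @cons _ q4 _ h4 w =>
  have hx4 := dd_le_wt hx w
  have a1 := dd_adj x h1
  have a2 := dd_adj x h2
  have a3 := dd_adj x h3
  have a4 := dd_adj x h4
  have p1 := hpos' h1
  have p2 := hpos' h2
  have p3 := hpos' h3
  have p4 := hpos' h4
  simp only [wt_cons] at hw
  have hwn : 0 ≤ wt (sv c x) w := wt_nonneg (fun e he => (hpos e he).le) w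
  have hanti : dd x p q = 1 := by rw [hq]; exact dd_self_ng hx p
  -- all triangle inequalities
  have t02 := dd_tri hx p q2 q1
  have t13 := dd_tri hx q1 q3 q2
  have t24 := dd_tri hx q2 q4 q3
  have t03 := dd_tri hx p q3 q2
  have t14 := dd_tri hx q1 q4 q3
  have t04 := dd_tri hx p q4 q3
  have u0 := dd_tri hx p q q4
  have u1 := dd_tri hx p q4 q3
  have u01 := dd_tri hx p q q1
  have v1 := dd_tri hx q1 q q2
  have v2 := dd_tri hx q2 q q3
  have v3 := dd_tri hx q3 q q4
  have v4 := dd_tri hx q1 q q3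
  have v5 := dd_tri hx p q q2
  have v6 := dd_tri hx p q q3
  have v7 := dd_tri hx p q4 q1
  have v8 := dd_tri hx p q4 q2
  have v9 := dd_tri hx q1 q4 q2
  cases w with
  | nil =>
    right
    subst hq
    rw [wt_nil] at *
    refine ⟨q1, q2, q3, h1, h2, h3, h4, ?_, ?_, fun t => ?_⟩
    · apply hdist
      · linarith
      · linarith
    · apply hdist
      · linarith
      · linarith
    · simp only [wt_cons, wt_nil, ng_fst]; ring
  | @cons _ q5 _ h5 w =>
    exfalso
    have p5 := hpos' h5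
    have hw5 : 0 ≤ wt (sv c x) w := wt_nonneg (fun e he => (hpos e he).le) w
    rw [wt_cons] at hx4 hw hwn
    -- exact values
    have d01 : dd x p q1 = sv c x s(p.1, q1.1) := a1
    have d02 : dd x p q2 = sv c x s(p.1, q1.1) + sv c x s(q1.1, q2.1) := by linarith
    have d03 : dd x p q3 = sv c x s(p.1, q1.1) + sv c x s(q1.1, q2.1) + sv c x s(q2.1, q3.1) := by
      linarith
    have d04 : dd x p q4 = sv c x s(p.1, q1.1) + sv c x s(q1.1, q2.1) + sv c x s(q2.1, q3.1) +
        sv c x s(q3.1, q4.1) := by linarith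
    have d13 : dd x q1 q3 = sv c x s(q1.1, q2.1) + sv c x s(q2.1, q3.1) := by linarith
    have d14 : dd x q1 q4 = sv c x s(q1.1, q2.1) + sv c x s(q2.1, q3.1) + sv c x s(q3.1, q4.1) := by
      linarith
    have d24 : dd x q2 q4 = sv c x s(q2.1, q3.1) + sv c x s(q3.1, q4.1) := by linarith
    have n01 : p.1 ≠ q1.1 := h1.1
    have n12 : q1.1 ≠ q2.1 := h2.1
    have n23 : q2.1 ≠ q3.1 := h3.1
    have n34 : q3.1 ≠ q4.1 := h4.1
    have n02 : p.1 ≠ q2.1 := hdist _ _ (by linarith) (by linarith)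
    have n03 : p.1 ≠ q3.1 := hdist _ _ (by linarith) (by linarith)
    have n04 : p.1 ≠ q4.1 := hdist _ _ (by linarith) (by linarith)
    have n13 : q1.1 ≠ q3.1 := hdist _ _ (by linarith) (by linarith)
    have n14 : q1.1 ≠ q4.1 := hdist _ _ (by linarith) (by linarith)
    have n24 : q2.1 ≠ q4.1 := hdist _ _ (by linarith) (by linarith)
    apply hnp
    refine ⟨![p, ng q1, q2, ng q3, q4], ?_, ?_⟩
    · intro i j hij
      fin_cases i <;> fin_cases j <;> simp at hij ⊢ <;> first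
        | exact absurd hij ‹_›
        | exact absurd hij.symm ‹_›
    · unfold psum
      simp only [Matrix.cons_val_zero, Matrix.cons_val_one, Matrix.cons_val]
      simp only [dd_ng_right, dd_ng_left]
      have e1 : dd x q2 q3 = sv c x s(q2.1, q3.1) := a3
      have e2 : dd x q3 q4 = sv c x s(q3.1, q4.1) := a4
      have e3 : dd x q1 q2 = sv c x s(q1.1, q2.1) := a2
      linarith

end Pool.Agent.Helper57.Met
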