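import Mathlib
import Pool.Agent.Helper57.Met.Walk
import Pool.Agent.Helper57.Met.Quad
import Pool.Agent.Helper57.Met.Core
import Pool.Agent.Helper57.Met.Final

/-!
# The main claim
-/

set_option autoImplicit false
set_option linter.unusedSectionVars false

namespace Pool.Agent.Helper57.Met

variable {V : Type}

/-- triangles of the double cover, as sets of support edges -/
def IsC3 (c : Sym2 V → ℝ) [DecidableEq {e : Sym2 V // c e ≠ 0}]
    (C : Finset {e : Sym2 V // c e ≠ 0}) : Prop :=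
  ∃ (p q1 q2 : V × Bool) (h1 : (GG c).Adj p q1) (h2 : (GG c).Adj q1 q2)
    (h3 : (GG c).Adj q2 (ng p)),
    C = {⟨s(p.1, q1.1), h1.2.1⟩, ⟨s(q1.1, q2.1), h2.2.1⟩, ⟨s(q2.1, p.1), h3.2.1⟩}

/-- quadrilaterals of the double cover -/
def IsC4 (c : Sym2 V → ℝ) [DecidableEq {e : Sym2 V // c e ≠ 0}]
    (C : Finset {e : Sym2 V // c e ≠ 0}) : Prop :=
  ∃ (p q1 q2 q3 : V × Bool) (h1 : (GG c).Adj p q1) (h2 : (GG c).Adj q1 q2)
    (h3 : (GG c).Adj q2 q3) (h4 : (GG c).Adj q3 (ng p)), p.1 ≠ q2.1 ∧ q1.1 ≠ q3.1 ∧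
    C = {⟨s(p.1, q1.1), h1.2.1⟩, ⟨s(q1.1, q2.1), h2.2.1⟩, ⟨s(q2.1, q3.1), h3.2.1⟩,
      ⟨s(q3.1, p.1), h4.2.1⟩}

section sums
variable {c : Sym2 V → ℝ} [DecidableEq {e : Sym2 V // c e ≠ 0}]

theorem ne_of3 {a b d : V} (hab : a ≠ b) (_hbd : b ≠ d) (had : a ≠ d) : s(a, b) ≠ s(b, d) := by
  intro h
  rw [Sym2.eq_iff] at h
  rcases h with ⟨h1, _⟩ | ⟨h1, _⟩
  · exact hab h1
  · exact had h1

theorem ne_of4 {a b d e : V} (had : a ≠ d) (hae : a ≠ e) : s(a, b) ≠ s(d, e) := by
  intro h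
  rw [Sym2.eq_iff] at h
  rcases h with ⟨h1, _⟩ | ⟨h1, _⟩
  · exact had h1
  · exact hae h1

theorem sum3 {p q1 q2 : V × Bool} (h1 : (GG c).Adj p q1) (h2 : (GG c).Adj q1 q2)
    (h3 : (GG c).Adj q2 (ng p)) {M : Type*} [AddCommMonoid M] (z : {e : Sym2 V // c e ≠ 0} → M) :
    ∑ e ∈ ({⟨s(p.1, q1.1), h1.2.1⟩, ⟨s(q1.1, q2.1), h2.2.1⟩, ⟨s(q2.1, p.1), h3.2.1⟩} :
      Finset {e : Sym2 V // c e ≠ 0}), z e =
    z ⟨s(p.1, q1.1), h1.2.1⟩ + (z ⟨s(q1.1, q2.1), h2.2.1⟩ + z ⟨s(q2.1, p.1), h3.2.1⟩) := by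
  have n1 : p.1 ≠ q1.1 := h1.1
  have n2 : q1.1 ≠ q2.1 := h2.1
  have n3 : q2.1 ≠ p.1 := h3.1
  rw [Finset.sum_insert, Finset.sum_insert, Finset.sum_singleton]
  · rw [Finset.mem_singleton, Subtype.mk.injEq]
    exact ne_of3 n2 n3 n1.symm
  · rw [Finset.mem_insert, Finset.mem_singleton, Subtype.mk.injEq, Subtype.mk.injEq, not_or]
    exact ⟨ne_of3 n1 n2 n3.symm, fun h => ne_of3 n3 n1 n2.symm h.symm⟩

theorem sum4 {p q1 q2 q3 : V × Bool} (h1 : (GG c).Adj p q1) (h2 : (GG c).Adj q1 q2)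
    (h3 : (GG c).Adj q2 q3) (h4 : (GG c).Adj q3 (ng p)) (hp : p.1 ≠ q2.1) (hq : q1.1 ≠ q3.1)
    {M : Type*} [AddCommMonoid M] (z : {e : Sym2 V // c e ≠ 0} → M) :
    ∑ e ∈ ({⟨s(p.1, q1.1), h1.2.1⟩, ⟨s(q1.1, q2.1), h2.2.1⟩, ⟨s(q2.1, q3.1), h3.2.1⟩,
      ⟨s(q3.1, p.1), h4.2.1⟩} : Finset {e : Sym2 V // c e ≠ 0}), z e =
    z ⟨s(p.1, q1.1), h1.2.1⟩ + (z ⟨s(q1.1, q2.1), h2.2.1⟩ + (z ⟨s(q2.1, q3.1), h3.2.1⟩ +
      z ⟨s(q3.1, p.1), h4.2.1⟩)) := by
  have n1 : p.1 ≠ q1.1 := h1.1
  have n2 : q1.1 ≠ q2.1 := h2.1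
  have n3 : q2.1 ≠ q3.1 := h3.1
  have n4 : q3.1 ≠ p.1 := h4.1
  rw [Finset.sum_insert, Finset.sum_insert, Finset.sum_insert, Finset.sum_singleton]
  · rw [Finset.mem_singleton, Subtype.mk.injEq]
    exact ne_of3 n3 n4 hp.symm
  · rw [Finset.mem_insert, Finset.mem_singleton, Subtype.mk.injEq, Subtype.mk.injEq, not_or]
    exact ⟨ne_of3 n2 n3 hq, ne_of4 hq n1.symm⟩
  · rw [Finset.mem_insert, Finset.mem_insert, Finset.mem_singleton, Subtype.mk.injEq,
      Subtype.mk.injEq, Subtype.mk.injEq, not_or, not_or]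
    exact ⟨ne_of3 n1 n2 hp, ne_of4 hp n4.symm, fun h => ne_of3 n4 n1 hq.symm h.symm⟩

theorem IsC3.card {C : Finset {e : Sym2 V // c e ≠ 0}} (h : IsC3 c C) : C.card = 3 := by
  obtain ⟨p, q1, q2, h1, h2, h3, rfl⟩ := h
  rw [Finset.card_eq_sum_ones, sum3 h1 h2 h3]
  norm_num

theorem IsC4.card {C : Finset {e : Sym2 V // c e ≠ 0}} (h : IsC4 c C) : C.card = 4 := by
  obtain ⟨p, q1, q2, q3, h1, h2, h3, h4, hp, hq, rfl⟩ := h
  rw [Finset.card_eq_sum_ones, sum4 h1 h2 h3 h4 hp hq]
  norm_num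

theorem IsC4.q4 {C : Finset {e : Sym2 V // c e ≠ 0}} (h : IsC4 c C) :
    ∃ P Q R S, Q4 c (Subtype.val '' (C : Set {e : Sym2 V // c e ≠ 0})) P Q R S := by
  obtain ⟨p, q1, q2, q3, h1, h2, h3, h4, hp, hq, rfl⟩ := h
  refine ⟨p.1, q1.1, q2.1, q3.1, ?_, h1.2.1, h2.2.1, h3.2.1, h4.2.1, h1.1, hp, h4.1.symm, h2.1, hq,
    h3.1⟩
  simp [Set.image_insert_eq]

end sums

theorem sv_cut (c : Sym2 V → ℝ) (ε : V → Bool) (e : Sym2 V) :
    sv c (cut ε) e = 0 ∨ sv c (cut ε) e = 1 := by
  induction e with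
  | _ i j =>
    unfold sv
    rw [cut_mk]
    split_ifs <;> simp

section parity_cut
variable [Fintype V] [DecidableEq V] {c : Sym2 V → ℝ} [DecidableEq {e : Sym2 V // c e ≠ 0}]
  [Fintype {e : Sym2 V // c e ≠ 0}]

/-- the signature of a cut -/
noncomputable def sig (c : Sym2 V → ℝ) [DecidableEq {e : Sym2 V // c e ≠ 0}]
    [Fintype {e : Sym2 V // c e ≠ 0}] (ε : V → Bool) : Finset {e : Sym2 V // c e ≠ 0} := by
  classical
  exact Finset.univ.filter (fun e => sv c (cut ε) e.1 = 1)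

theorem mem_sig (ε : V → Bool) (e : {e : Sym2 V // c e ≠ 0}) :
    e ∈ sig c ε ↔ sv c (cut ε) e.1 = 1 := by
  simp [sig]

theorem ind_sig (ε : V → Bool) (e : {e : Sym2 V // c e ≠ 0}) :
    ind (sig c ε) e = sv c (cut ε) e.1 := by
  unfold ind
  by_cases h : e ∈ sig c ε
  · rw [if_pos h, (mem_sig ε e).1 h]
  · rw [if_neg h]
    rcases sv_cut c ε e.1 with h1 | h1
    · exact h1.symm
    · exact absurd ((mem_sig ε e).2 h1) h

theorem odd_of_real {n : ℕ} (h : (n : ℝ) = 1 ∨ (n : ℝ) = 3) : Odd n := by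
  rcases h with h | h
  · have : n = 1 := by exact_mod_cast h
    rw [this]; decide
  · have : n = 3 := by exact_mod_cast h
    rw [this]; decide

theorem IsC3.odd {C : Finset {e : Sym2 V // c e ≠ 0}} (h : IsC3 c C) (ε : V → Bool) :
    Odd (C ∩ sig c ε).card := by
  obtain ⟨p, q1, q2, h1, h2, h3, rfl⟩ := h
  apply odd_of_real
  rw [← sum_ind]
  simp only [ind_sig]
  rw [sum3 h1 h2 h3]
  simp only
  have e1 := dd_adj (cut ε) h1
  have e2 := dd_adj (cut ε) h2
  have e3 := dd_adj (cut ε) h3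
  simp only [ng_fst] at e3
  rw [← e1, ← e2, ← e3, dd_ng_right, dd_cut, dd_cut, dd_cut]
  generalize xor (ε p.1) p.2 = u; generalize xor (ε q1.1) q1.2 = v
  generalize xor (ε q2.1) q2.2 = w
  cases u <;> cases v <;> cases w <;> norm_num

theorem IsC4.odd {C : Finset {e : Sym2 V // c e ≠ 0}} (h : IsC4 c C) (ε : V → Bool) :
    Odd (C ∩ sig c ε).card := by
  obtain ⟨p, q1, q2, q3, h1, h2, h3, h4, hp, hq, rfl⟩ := h
  apply odd_of_real
  rw [← sum_ind]
  simp only [ind_sig]
  rw [sum4 h1 h2 h3 h4 hp hq]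
  simp only
  have e1 := dd_adj (cut ε) h1
  have e2 := dd_adj (cut ε) h2
  have e3 := dd_adj (cut ε) h3
  have e4 := dd_adj (cut ε) h4
  simp only [ng_fst] at e4
  rw [← e1, ← e2, ← e3, ← e4, dd_ng_right, dd_cut, dd_cut, dd_cut, dd_cut]
  generalize xor (ε p.1) p.2 = u; generalize xor (ε q1.1) q1.2 = v
  generalize xor (ε q2.1) q2.2 = w; generalize xor (ε q3.1) q3.2 = t
  cases u <;> cases v <;> cases w <;> cases t <;> norm_num

end parity_cut


section Hyp
variable [Fintype V] [DecidableEq V]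

/-- evaluation of an affine functional on a point vanishing on the diagonal -/
theorem affine_dot (f : (Sym2 V → ℝ) →ᵃ[ℝ] ℝ) {y : Sym2 V → ℝ} (hy : ∀ i, y s(i, i) = 0) :
    f y = dot (fun e => if e.IsDiag then 0 else f.linear (Pi.single e 1)) y + f 0 := by
  have h1 : f y = f.linear y + f 0 := by
    have := congrFun f.decomp y
    simpa using this
  rw [h1, LinearMap.pi_apply_eq_sum_univ f.linear y]
  congr 1
  unfold dot
  refine Finset.sum_congr rfl fun e _ => ?_
  have h9 : (fun j => if e = j then (1:ℝ) else 0) = Pi.single e 1 := by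
    funext j; rw [Pi.single_apply]; simp only [eq_comm]
  rw [h9, smul_eq_mul]
  beta_reduce
  by_cases hd : e.IsDiag
  · rw [if_pos hd]
    induction e with
    | _ i j =>
      rw [Sym2.mk_isDiag_iff] at hd
      subst hd
      rw [hy]; ring
  · rw [if_neg hd]; ring

theorem cut_diag (ε : V → Bool) (i : V) : cut ε s(i, i) = 0 := by simp

/-- `dot c - κ` as an affine map -/
noncomputable def dotA (c : Sym2 V → ℝ) (κ : ℝ) : (Sym2 V → ℝ) →ᵃ[ℝ] ℝ :=
  (∑ e, c e • (LinearMap.proj e : (Sym2 V → ℝ) →ₗ[ℝ] ℝ)).toAffineMap - AffineMap.const ℝ _ κ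

theorem dotA_apply (c : Sym2 V → ℝ) (κ : ℝ) (x : Sym2 V → ℝ) : dotA c κ x = dot c x - κ := by
  simp [dotA, dot]

theorem MetP_closed : IsClosed (MetP V) := by
  have h1 : MetP V = ⋂ t : V × V × V, ({x | x s(t.1, t.1) = 0} ∩
      {x | x s(t.1, t.2.1) ≤ x s(t.1, t.2.2) + x s(t.2.2, t.2.1)} ∩
      {x | x s(t.1, t.2.1) + x s(t.1, t.2.2) + x s(t.2.1, t.2.2) ≤ 2}) := by
    ext x
    rw [Set.mem_iInter]
    constructor
    · rintro ⟨h0, h1, h2⟩ ⟨i, j, k⟩
      exact ⟨⟨h0 i, h1 i j k⟩, h2 i j k⟩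
    · intro h
      exact ⟨fun i => (h (i, i, i)).1.1, fun i j k => (h (i, j, k)).1.2, fun i j k => (h (i, j, k)).2⟩
  rw [h1]
  apply isClosed_iInter
  rintro ⟨i, j, k⟩
  refine (IsClosed.inter ?_ ?_).inter ?_
  · exact isClosed_eq (by fun_prop) (by fun_prop)
  · exact isClosed_le (by fun_prop) (by fun_prop)
  · exact isClosed_le (by fun_prop) (by fun_prop)

theorem MetP_bound {x : Sym2 V → ℝ} (hx : x ∈ MetP V) (e : Sym2 V) : x e ∈ Set.Icc (0:ℝ) 1 := by
  induction e with
  | _ i j =>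
    have h1 := dd_nonneg hx (i, true) (j, true)
    have h2 := dd_le_one hx (i, true) (j, true)
    simp [dd] at h1 h2
    exact ⟨h1, h2⟩

theorem MetP_compact : IsCompact (MetP V) := by
  have h1 : IsCompact (Set.pi Set.univ (fun _ : Sym2 V => Set.Icc (0:ℝ) 1)) :=
    isCompact_univ_pi fun _ => isCompact_Icc
  refine h1.of_isClosed_subset MetP_closed ?_
  intro x hx e _
  exact MetP_bound hx e

theorem dot_continuous (c : Sym2 V → ℝ) : Continuous (dot c) := by
  unfold dot; fun_prop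

/-- the data of a minimal bad functional -/
structure BadFun (x0 : Sym2 V → ℝ) (c : Sym2 V → ℝ) (κ : ℝ) : Prop where
  diag : ∀ i, c s(i, i) = 0
  valid : ∀ ε, dot c (cut ε) ≤ κ
  viol : ∃ y, Ch x0 y ∧ κ < dot c y
  min : ∀ c' : Sym2 V → ℝ, (∀ e, c e = 0 → c' e = 0) → (∃ e, c e ≠ 0 ∧ c' e = 0) →
    ∀ κ', (∀ ε, dot c' (cut ε) ≤ κ') → ∀ y, Ch x0 y → dot c' y ≤ κ'

theorem exists_badFun {x0 : Sym2 V → ℝ} (hx0 : x0 ∈ MetP V) (hrel : Rel x0 x0) :
    ∃ c κ, BadFun x0 c κ := by
  classical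
  have hex : ∃ n : ℕ, ∃ c : Sym2 V → ℝ, (∀ i, c s(i, i) = 0) ∧
      (Finset.univ.filter (fun e => c e ≠ 0)).card = n ∧
      ∃ κ, (∀ ε, dot c (cut ε) ≤ κ) ∧ ∃ y, Ch x0 y ∧ κ < dot c y := by
    obtain ⟨f, h1, h2, _⟩ := hrel
    refine ⟨_, fun e => if e.IsDiag then 0 else f.linear (Pi.single e 1), fun i => by simp, rfl,
      - f 0, fun ε => ?_, x0, Ch.refl _, ?_⟩
    · have h3 := h1 ε
      rw [affine_dot f (cut_diag ε)] at h3
      linarith
    · rw [affine_dot f hx0.1] at h2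
      linarith
  obtain ⟨c, hdiag, hcard, κ, hvalid, hviol⟩ := Nat.find_spec hex
  refine ⟨c, κ, hdiag, hvalid, hviol, ?_⟩
  intro c' hsub ⟨e0, he0, he0'⟩ κ' hv' y hy
  by_contra hcon
  push Not at hcon
  have hlt : (Finset.univ.filter (fun e => c' e ≠ 0)).card < Nat.find hex := by
    rw [← hcard]
    apply Finset.card_lt_card
    rw [Finset.ssubset_iff_of_subset]
    · exact ⟨e0, by simp [he0], by simp [he0']⟩
    · intro e he
      simp only [Finset.mem_filter, Finset.mem_univ, true_and] at he ⊢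
      intro h; exact he (hsub e h)
  exact Nat.find_min hex hlt ⟨c', fun i => hsub _ (hdiag i), rfl, κ', hv', y, hy, hcon⟩

/-- the data of a suitable optimum -/
structure Opt (x0 c x : Sym2 V → ℝ) (κ : ℝ) : Prop where
  mem : x ∈ MetP V
  ch : Ch x0 x
  gt : κ < dot c x
  opt : ∀ y ∈ MetP V, dot c y ≤ dot c x
  chopt : ∀ y ∈ MetP V, dot c y = dot c x → Ch x0 y
  ext : ∀ y1 ∈ MetP V, ∀ y2 ∈ MetP V, dot c y1 = dot c x → dot c y2 = dot c x →
      (∀ e, c e ≠ 0 → x e = (y1 e + y2 e) / 2) → ∀ e, c e ≠ 0 → y1 e = x e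

theorem exists_opt {x0 : Sym2 V → ℝ} (hx0 : x0 ∈ MetP V) (hrel : Rel x0 x0) {c : Sym2 V → ℝ}
    {κ : ℝ} (h : BadFun x0 c κ) : ∃ x, Opt x0 c x κ := by
  classical
  obtain ⟨y0, hy0, hy0κ⟩ := h.viol
  have hy0m : y0 ∈ MetP V := (hy0.good hx0 hrel).1
  obtain ⟨xm, hxm, hxmax⟩ := (MetP_compact (V := V)).exists_isMaxOn ⟨x0, hx0⟩
    (dot_continuous c).continuousOn
  have hmax : ∀ y ∈ MetP V, dot c y ≤ dot c xm := fun y hy => hxmax hy
  have hκ : κ < dot c xm := lt_of_lt_of_le hy0κ (hmax y0 hy0m)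
  have hch : ∀ y ∈ MetP V, dot c y = dot c xm → Ch x0 y := by
    intro y hy hym
    refine hy0.trans (Lk.ch ⟨hy0m, hy, dotA c κ, fun ε => ?_, ?_, ?_⟩)
    · rw [dotA_apply]; linarith [h.valid ε]
    · rw [dotA_apply]; linarith
    · rw [dotA_apply, hym]; linarith
  set R : (Sym2 V → ℝ) → (Sym2 V → ℝ) := fun x e => if c e = 0 then 0 else x e with hR
  have hRc : Continuous R := by
    rw [hR]
    apply continuous_pi
    intro e
    by_cases he : c e = 0
    · simp only [if_pos he]; exact continuous_const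
    · simp only [if_neg he]; exact continuous_apply e
  set Φ : Set (Sym2 V → ℝ) := {z | z ∈ MetP V ∧ dot c z = dot c xm} with hΦ
  have hΦc : IsCompact Φ := by
    refine (MetP_compact (V := V)).of_isClosed_subset ?_ (fun z hz => hz.1)
    exact MetP_closed.inter (isClosed_eq (dot_continuous c) continuous_const)
  have hRΦ : IsCompact (R '' Φ) := hΦc.image hRc
  obtain ⟨r, hr⟩ := hRΦ.extremePoints_nonempty ⟨R xm, xm, ⟨hxm, rfl⟩, rfl⟩
  obtain ⟨x, ⟨hxM, hxd⟩, hxr⟩ := hr.1
  refine ⟨x, hxM, hch x hxM hxd, by rw [hxd]; exact hκ, fun y hy => by rw [hxd]; exact hmax y hy,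
    fun y hy hyd => hch y hy (hyd.trans hxd), ?_⟩
  intro y1 hy1 y2 hy2 d1 d2 hmid
  rw [mem_extremePoints] at hr
  have h1 := hr.2 (R y1) ⟨y1, ⟨hy1, d1.trans hxd⟩, rfl⟩ (R y2) ⟨y2, ⟨hy2, d2.trans hxd⟩, rfl⟩
    ⟨1/2, 1/2, by norm_num, by norm_num, by norm_num, by
      rw [← hxr]
      funext e
      simp only [hR, Pi.add_apply, Pi.smul_apply, smul_eq_mul]
      by_cases he : c e = 0
      · simp [he]
      · simp only [if_neg he]
        rw [hmid e he]; ring⟩
  intro e he
  have h2 := congrFun (h1.1.trans hxr.symm) e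
  simp only [hR, if_neg he] at h2
  exact h2

theorem sv_affine (c : Sym2 V → ℝ) {ι : Type*} [Fintype ι] (w : ι → ℝ) (hw : ∑ i, w i = 1)
    (y : ι → Sym2 V → ℝ) (e : Sym2 V) :
    sv c (fun e => ∑ i, w i * y i e) e = ∑ i, w i * sv c (y i) e := by
  unfold sv
  by_cases h : 0 < c e
  · simp only [if_pos h, mul_sub, mul_one, Finset.sum_sub_distrib, hw]
  · simp only [if_neg h]

theorem coreHyp_of {x0 : Sym2 V → ℝ}
    (hnp : ∀ z, Ch x0 z → ¬ Pent z)
    (hfrac : ∀ y, Ch x0 y → ∀ a b, a ≠ b → 0 < y s(a, b) ∧ y s(a, b) < 1)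
    {c x : Sym2 V → ℝ} {κ : ℝ} (hb : BadFun x0 c κ) (ho : Opt x0 c x κ)
    [DecidableEq {e : Sym2 V // c e ≠ 0}] [Fintype {e : Sym2 V // c e ≠ 0}] :
    ∃ 𝒯 : Finset (Finset {e : Sym2 V // c e ≠ 0}), (∀ C ∈ 𝒯, IsC3 c C ∨ IsC4 c C) ∧
      CoreHyp 𝒯 (fun ε : V → Bool => sig c ε) (fun e => sv c x e.1) := by
  classical
  have hpos : ∀ e, c e ≠ 0 → 0 < sv c x e := by
    intro e he
    induction e with
    | _ i j =>
      have hij : i ≠ j := by rintro rfl; exact he (hb.diag i)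
      have := hfrac x ho.ch i j hij
      unfold sv
      split_ifs <;> linarith
  refine ⟨Finset.univ.filter (fun C => (IsC3 c C ∨ IsC4 c C) ∧ ∑ e ∈ C, sv c x e.1 = 1),
    fun C hC => (Finset.mem_filter.1 hC).2.1, ?_⟩
  refine ⟨fun e => hpos e.1 e.2, ?_, ?_, ?_, ?_, ?_⟩
  · intro C hC
    rcases (Finset.mem_filter.1 hC).2.1 with h | h
    · exact Or.inl h.card
    · exact Or.inr h.card
  · intro C hC
    exact (Finset.mem_filter.1 hC).2.2
  · intro C hC ε
    rcases (Finset.mem_filter.1 hC).2.1 with h | h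
    · exact h.odd ε
    · exact h.odd ε
  · intro z hz
    set z' : Sym2 V → ℝ := fun e => if h : c e ≠ 0 then z ⟨e, h⟩ else 0 with hz'
    have hz'e : ∀ e (h : c e ≠ 0), z' e = z ⟨e, h⟩ := by
      intro e h; simp only [hz']; rw [dif_pos h]
    have h1 := spanning hb.diag ho.mem ho.opt hpos ho.ext z' (by
      intro p w hw
      rcases tight_cases ho.mem (hnp x ho.ch) hpos w rfl hw with
        ⟨q1, q2, h1, h2, h3, hwt⟩ | ⟨q1, q2, q3, h1, h2, h3, h4, hp, hq, hwt⟩
      · rw [hwt] at hw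
        have hC := hz _ (Finset.mem_filter.2 ⟨Finset.mem_univ _,
          Or.inl ⟨p, q1, q2, h1, h2, h3, rfl⟩, by
            rw [sum3 h1 h2 h3]; simp only; linarith⟩)
        rw [sum3 h1 h2 h3] at hC
        rw [hwt, hz'e _ h1.2.1, hz'e _ h2.2.1, hz'e s(q2.1, p.1) h3.2.1]
        linarith
      · rw [hwt] at hw
        have hC := hz _ (Finset.mem_filter.2 ⟨Finset.mem_univ _,
          Or.inr ⟨p, q1, q2, q3, h1, h2, h3, h4, hp, hq, rfl⟩, by
            rw [sum4 h1 h2 h3 h4 hp hq]; simp only; linarith⟩)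
        rw [sum4 h1 h2 h3 h4 hp hq] at hC
        rw [hwt, hz'e _ h1.2.1, hz'e _ h2.2.1, hz'e _ h3.2.1, hz'e s(q3.1, p.1) h4.2.1]
        linarith)
    funext e
    have h2 := h1 e.1 e.2
    rw [hz'e e.1 e.2] at h2
    exact h2
  · intro e0
    -- separation
    set R : (Sym2 V → ℝ) →ₗ[ℝ] (Sym2 V → ℝ) :=
      { toFun := fun y e => if c e = 0 ∨ e = e0.1 then 0 else y e
        map_add' := by
          intro y z; funext e
          simp only [Pi.add_apply]
          split_ifs <;> simp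
        map_smul' := by
          intro a y; funext e
          simp only [Pi.smul_apply, smul_eq_mul, RingHom.id_apply]
          split_ifs <;> simp } with hR
    have hRe : ∀ y e, R y e = if c e = 0 ∨ e = e0.1 then 0 else y e := fun y e => rfl
    have hmem : R x ∈ convexHull ℝ (Set.range (fun ε : V → Bool => R (cut ε))) := by
      by_contra hnot
      obtain ⟨f, u, h1, h2⟩ := geometric_hahn_banach_closed_point (convex_convexHull ℝ _)
        ((Set.finite_range _).isClosed_convexHull ℝ) hnot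
      have hdot : ∀ y, dot (fun e => if c e = 0 ∨ e = e0.1 then 0 else f (Pi.single e 1)) y = f (R y) := by
        intro y
        have h3 := LinearMap.pi_apply_eq_sum_univ f.toLinearMap (R y)
        have h4 : f (R y) = f.toLinearMap (R y) := rfl
        rw [h4, h3]
        unfold dot
        refine Finset.sum_congr rfl fun e _ => ?_
        have h9 : (fun j => if e = j then (1:ℝ) else 0) = Pi.single e 1 := by
          funext j; rw [Pi.single_apply]; simp only [eq_comm]
        rw [h9, smul_eq_mul, hRe]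
        beta_reduce
        by_cases he : c e = 0 ∨ e = e0.1
        · rw [if_pos he, if_pos he]; ring
        · rw [if_neg he, if_neg he, mul_comm]; rfl
      have h5 := hb.min (fun e => if c e = 0 ∨ e = e0.1 then 0 else f (Pi.single e 1))
        (by intro e he; simp [he]) ⟨e0.1, e0.2, by simp⟩ u (by
          intro ε
          rw [hdot]
          exact (h1 _ (subset_convexHull ℝ _ ⟨ε, rfl⟩)).le) x ho.ch
      rw [hdot] at h5
      linarith
    rw [convexHull_range_eq_exists_affineCombination] at hmem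
    obtain ⟨t, w, hw0, hw1, hw2⟩ := hmem
    refine ⟨fun ε => if ε ∈ t then w ε else 0, ?_, ?_, ?_⟩
    · intro ε
      by_cases hε : ε ∈ t
      · simp only [if_pos hε]; exact hw0 ε hε
      · simp only [if_neg hε]; exact le_rfl
    · rw [Finset.sum_ite_mem, Finset.univ_inter]; exact hw1
    · intro e he
      have hee : ¬ (c e.1 = 0 ∨ e.1 = e0.1) := by
        rintro (h1 | h1)
        · exact e.2 h1
        · exact he (Subtype.ext h1)
      rw [Finset.affineCombination_eq_linear_combination t _ w hw1] at hw2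
      have h1 := congrFun hw2 e.1
      rw [Finset.sum_apply, hRe, if_neg hee] at h1
      simp only [Pi.smul_apply, smul_eq_mul, hRe, if_neg hee] at h1
      have hsum : ∑ ε : V → Bool, (if ε ∈ t then w ε else 0) = 1 := by
        rw [Finset.sum_ite_mem, Finset.univ_inter]; exact hw1
      simp only [ind_sig]
      rw [← sv_affine c (fun ε : V → Bool => if ε ∈ t then w ε else 0) hsum (fun ε => cut ε) e.1]
      have h2 : ∑ ε : V → Bool, (if ε ∈ t then w ε else 0) * cut ε e.1 = x e.1 := by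
        rw [← h1]
        rw [← Finset.sum_subset (Finset.subset_univ t)]
        · refine Finset.sum_congr rfl fun ε hε => ?_
          rw [if_pos hε]
        · intro ε _ hε
          rw [if_neg hε, zero_mul]
      unfold sv
      simp only [h2]


theorem par3 {α : Type*} (F : Finset α) (a b : α → Bool) :
    2 ∣ (F.filter (fun f => a f = true)).card + (F.filter (fun f => b f = true)).card +
      (F.filter (fun f => a f ≠ b f)).card := by
  simp only [Finset.card_filter, ← Finset.sum_add_distrib]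
  apply Finset.dvd_sum
  intro f _
  cases a f <;> cases b f <;> simp

theorem mem_sig_pos {c : Sym2 V → ℝ} [DecidableEq {e : Sym2 V // c e ≠ 0}]
    [Fintype {e : Sym2 V // c e ≠ 0}] (ε : V → Bool) {i j : V} (h : c s(i, j) ≠ 0)
    (hc : 0 < c s(i, j)) : (⟨s(i, j), h⟩ : {e : Sym2 V // c e ≠ 0}) ∈ sig c ε ↔ ε i = ε j := by
  rw [mem_sig]
  unfold sv
  rw [if_pos hc, cut_mk]
  by_cases h1 : ε i = ε j <;> simp [h1]

theorem mem_sig_neg {c : Sym2 V → ℝ} [DecidableEq {e : Sym2 V // c e ≠ 0}]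
    [Fintype {e : Sym2 V // c e ≠ 0}] (ε : V → Bool) {i j : V} (h : c s(i, j) ≠ 0)
    (hc : c s(i, j) < 0) : (⟨s(i, j), h⟩ : {e : Sym2 V // c e ≠ 0}) ∈ sig c ε ↔ ε i ≠ ε j := by
  rw [mem_sig]
  unfold sv
  rw [if_neg (not_lt.2 hc.le), cut_mk]
  by_cases h1 : ε i = ε j <;> simp [h1]

/-- For at most four points the two-thirds points are averages of three cuts. -/
theorem om_avg (hV : Fintype.card V ≤ 4) (η : V → Bool) :
    ∃ ε1 ε2 ε3 : V → Bool, ∀ e, om η e = (cut ε1 e + cut ε2 e + cut ε3 e) / 3 := by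
  obtain ⟨φ⟩ : Nonempty (V ↪ Bool × Bool) := by
    apply Function.Embedding.nonempty_of_card_le
    simpa using hV
  refine ⟨fun v => xor (φ v).1 (η v), fun v => xor (φ v).2 (η v),
    fun v => xor (xor (φ v).1 (φ v).2) (η v), ?_⟩
  intro e
  induction e with
  | _ i j =>
    by_cases hij : i = j
    · subst hij
      rw [om_self]; simp
    · rw [om_ne η hij]
      have h1 : φ i ≠ φ j := fun h => hij (φ.injective h)
      simp only [cut_mk]
      rcases hφi : φ i with ⟨a, b⟩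
      rcases hφj : φ j with ⟨a', b'⟩
      rw [hφi, hφj] at h1
      generalize η i = u
      generalize η j = v
      revert h1
      cases a <;> cases b <;> cases a' <;> cases b' <;> cases u <;> cases v <;> simp <;> norm_num

theorem dot_congr {c x y : Sym2 V → ℝ} (h : ∀ e, c e ≠ 0 → x e = y e) : dot c x = dot c y := by
  unfold dot
  refine Finset.sum_congr rfl fun e _ => ?_
  by_cases he : c e = 0
  · rw [he]; ring
  · rw [h e he]

theorem no_bad {x0 : Sym2 V → ℝ} (hx0 : x0 ∈ MetP V) (hrel : Rel x0 x0)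
    (hnp : ∀ z, Ch x0 z → ¬ Pent z)
    (hfrac : ∀ y, Ch x0 y → ∀ a b, a ≠ b → 0 < y s(a, b) ∧ y s(a, b) < 1) : False := by
  classical
  obtain ⟨c, κ, hb⟩ := exists_badFun hx0 hrel
  obtain ⟨x, ho⟩ := exists_opt hx0 hrel hb
  obtain ⟨𝒯, h𝒯, hcore⟩ := coreHyp_of hnp hfrac hb ho
  have hne : Nonempty {e : Sym2 V // c e ≠ 0} := by
    by_contra hne
    have hc0 : ∀ e, c e = 0 := by
      intro e; by_contra he; exact hne ⟨⟨e, he⟩⟩
    have h1 := hb.valid (fun _ => false)
    have h2 := ho.gt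
    have h3 : ∀ y, dot c y = 0 := by intro y; simp [dot, hc0]
    rw [h3] at h1 h2
    linarith
  obtain ⟨r, hr, hs, ⟨F, β, hF, hodd⟩, hmany⟩ := core hcore
  set η : V → Bool := fun v => decide (Odd (F.filter (fun f => β f v = true)).card) with hη
  have hηne : ∀ i j, η i ≠ η j ↔ Odd (F.filter (fun f => β f i ≠ β f j)).card := by
    intro i j
    have h1 := par3 F (fun f => β f i) (fun f => β f j)
    simp only [hη, ne_eq, decide_eq_decide, Nat.odd_iff]
    simp only [ne_eq] at h1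
    omega
  have hneg : ∀ i j, c s(i, j) < 0 → η i ≠ η j := by
    intro i j hc
    have h1 := hodd ⟨s(i, j), hc.ne⟩
    simp only [mem_sig_neg _ _ hc] at h1
    rw [hηne]; exact h1
  have hpos : ∀ i j, 0 < c s(i, j) → (η i ≠ η j ↔ r = 4) := by
    intro i j hc
    have h1 := hodd ⟨s(i, j), hc.ne'⟩
    simp only [mem_sig_pos _ _ hc] at h1
    rw [hηne]
    have h2 : (F.filter (fun f => β f i = β f j)).card + (F.filter (fun f => β f i ≠ β f j)).card = r := by
      rw [← hF]
      convert Finset.card_filter_add_card_filter_not (s := F) (p := fun f => β f i = β f j)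
    rw [Nat.odd_iff] at h1 ⊢
    rcases hr with rfl | rfl <;> omega
  have hdiag' : ∀ i j, c s(i, j) ≠ 0 → i ≠ j := by
    rintro i j h rfl; exact h (hb.diag i)
  rcases hr with rfl | rfl
  · -- r = 3
    have hom : ∀ e, c e ≠ 0 → om η e = x e := by
      intro e he
      have h1 := hs ⟨e, he⟩
      induction e with
      | _ i j =>
        rw [om_ne η (hdiag' i j he)]
        simp only [sv] at h1
        rcases lt_or_gt_of_ne he with h2 | h2
        · rw [if_neg (not_lt.2 h2.le)] at h1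
          rw [if_neg (hneg i j h2), h1]; norm_num
        · rw [if_pos h2] at h1
          have h3 : η i = η j := by
            by_contra h4
            have := (hpos i j h2).1 h4
            omega
          rw [if_pos h3]
          norm_num at h1
          linarith
    have hdot : dot c (om η) = dot c x := dot_congr hom
    have hch := ho.chopt (om η) (om_mem η) hdot
    by_cases hV : 5 ≤ Fintype.card V
    · obtain ⟨e⟩ : Nonempty (Fin 5 ↪ V) := by
        apply Function.Embedding.nonempty_of_card_le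
        simpa using hV
      apply hnp _ hch
      refine ⟨fun i => (e i, η (e i)), e.injective, ?_⟩
      rw [psum_om η _ e.injective (fun i => rfl)]
      norm_num
    · obtain ⟨ε1, ε2, ε3, hε⟩ := om_avg (by omega) η
      have h1 := hb.valid ε1
      have h2 := hb.valid ε2
      have h3 := hb.valid ε3
      have h4 : dot c (om η) = (dot c (cut ε1) + dot c (cut ε2) + dot c (cut ε3)) / 3 := by
        unfold dot
        rw [← Finset.sum_add_distrib, ← Finset.sum_add_distrib, Finset.sum_div]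
        refine Finset.sum_congr rfl fun e _ => ?_
        rw [hε]; ring
      have h5 := ho.gt
      rw [← hdot, h4] at h5
      linarith
  · -- r = 4
    have hcross : ∀ i j, c s(i, j) ≠ 0 → η i ≠ η j := by
      intro i j h
      rcases lt_or_gt_of_ne h with h2 | h2
      · exact hneg i j h2
      · exact (hpos i j h2).2 rfl
    set y : Sym2 V → ℝ := fun e => if c e ≠ 0 then x e else if e.IsDiag then 0 else 1/2 with hy
    have hyE : ∀ e, c e ≠ 0 → y e = x e := by
      intro e he; simp only [hy]; rw [if_pos he]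
    have hyd : ∀ i, y s(i, i) = 0 := by
      intro i; simp only [hy]; rw [if_neg (by simp [hb.diag]), if_pos (by simp)]
    have hyo : ∀ i j, i ≠ j → c s(i, j) = 0 → y s(i, j) = 1/2 := by
      intro i j hij h0
      simp only [hy]; rw [if_neg (by simp [h0]), if_neg (by simpa using hij)]
    have hyval : ∀ i j, c s(i, j) ≠ 0 → y s(i, j) = 1/4 ∨ y s(i, j) = 3/4 := by
      intro i j h
      rw [hyE _ h]
      have h1 := hs ⟨s(i, j), h⟩
      simp only [sv] at h1
      rcases lt_or_gt_of_ne h with h2 | h2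
      · rw [if_neg (not_lt.2 h2.le)] at h1
        left; rw [h1]; norm_num
      · rw [if_pos h2] at h1
        right; norm_num at h1; linarith
    have hdata : HalfData c y η := ⟨hcross, hyval, hyo⟩
    have hyall : ∀ i j, i ≠ j → y s(i, j) = 1/2 ∨
        (η i ≠ η j ∧ (y s(i, j) = 1/4 ∨ y s(i, j) = 3/4)) := by
      intro i j hij
      by_cases h : c s(i, j) = 0
      · exact Or.inl (hyo i j hij h)
      · exact Or.inr ⟨hcross i j h, hyval i j h⟩
    have hysymm : ∀ i j, y s(i, j) = y s(j, i) := fun i j => by rw [Sym2.eq_swap]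
    have hrange : ∀ i j, 0 ≤ y s(i, j) ∧ y s(i, j) ≤ 1 := by
      intro i j
      by_cases hij : i = j
      · subst hij; rw [hyd]; norm_num
      · rcases hyall i j hij with h | ⟨_, h | h⟩ <;> rw [h] <;> norm_num
    have hymem : y ∈ MetP V := by
      refine ⟨hyd, fun i j k => ?_, fun i j k => ?_⟩
      · by_cases hij : i = j
        · subst hij; rw [hyd]
          have := (hrange i k).1
          have := (hrange k i).1
          linarith
        by_cases hik : i = k
        · subst hik; rw [hyd]; linarith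
        by_cases hkj : k = j
        · subst hkj; rw [hyd]; linarith
        have bb : ∀ u v w : Bool, u ≠ v → u ≠ w → w ≠ v → False := by decide
        rcases hyall i j hij with h1 | ⟨g1, h1 | h1⟩ <;>
          rcases hyall i k hik with h2 | ⟨g2, h2 | h2⟩ <;>
          rcases hyall k j hkj with h3 | ⟨g3, h3 | h3⟩ <;>
          first
            | exact absurd (bb _ _ _ g1 g2 g3) id
            | (rw [h1, h2, h3]; norm_num)
      · by_cases hij : i = j
        · subst hij; rw [hyd]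
          have := (hrange i k).2
          linarith
        by_cases hik : i = k
        · subst hik; rw [hyd]
          have := (hrange i j).2
          have := (hrange j i).2
          linarith
        by_cases hkj : j = k
        · subst hkj; rw [hyd]
          have := (hrange i j).2
          linarith
        have bb : ∀ u v w : Bool, u ≠ v → u ≠ w → v ≠ w → False := by decide
        rcases hyall i j hij with h1 | ⟨g1, h1 | h1⟩ <;>
          rcases hyall i k hik with h2 | ⟨g2, h2 | h2⟩ <;>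
          rcases hyall j k hkj with h3 | ⟨g3, h3 | h3⟩ <;>
          first
            | exact absurd (bb _ _ _ g1 g2 g3) id
            | (rw [h1, h2, h3]; norm_num)
    have hdot : dot c y = dot c x := dot_congr hyE
    have hch := ho.chopt y hymem hdot
    apply hnp y hch
    obtain ⟨e⟩ := hne
    obtain ⟨𝒟, h𝒟, hcard, hD⟩ := hmany e
    obtain ⟨C1, m1, C2, m2, C3, m3, n12, n13, n23⟩ := Finset.two_lt_card.1 (show 2 < 𝒟.card by omega)
    have hq : ∀ C ∈ 𝒟, ∀ a b, e.1 = s(a, b) → ∃ c' d',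
        Q4 c (Subtype.val '' (C : Set {e : Sym2 V // c e ≠ 0})) a b c' d' := by
      intro C hC a b hab
      have h4 := hD C hC
      rcases h𝒯 C (h𝒟 hC) with h3 | h3
      · have := h3.card
        omega
      · obtain ⟨P, Q, R, S, hQ⟩ := h3.q4
        apply hQ.through
        rw [← hab]
        exact ⟨e, h4.1, rfl⟩
    obtain ⟨⟨a, b⟩, hab⟩ : ∃ p : V × V, e.1 = s(p.1, p.2) := by
      obtain ⟨e', he'⟩ := e
      induction e' with
      | _ i j => exact ⟨(i, j), rfl⟩
    obtain ⟨c1, d1, q1⟩ := hq C1 m1 a b hab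
    obtain ⟨c2, d2, q2⟩ := hq C2 m2 a b hab
    obtain ⟨c3, d3, q3⟩ := hq C3 m3 a b hab
    have hinj : ∀ C D : Finset {e : Sym2 V // c e ≠ 0}, C ≠ D →
        (Subtype.val '' (C : Set {e : Sym2 V // c e ≠ 0})) ≠
        (Subtype.val '' (D : Set {e : Sym2 V // c e ≠ 0})) := by
      intro C D hCD h
      exact hCD (Finset.coe_injective (Set.image_injective.2 Subtype.val_injective h))
    exact pent_of_three hdata q1 q2 q3 (hinj _ _ n12) (hinj _ _ n13) (hinj _ _ n23)

theorem main_aux : ∀ (n : ℕ) (V : Type) [Fintype V] [DecidableEq V], Fintype.card V = n →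
    ∀ x ∈ MetP V, Rel x x → ∃ z, Ch x z ∧ z ∈ MetP V ∧ Pent z := by
  intro n
  induction n using Nat.strong_induction_on with
  | _ n ih =>
  intro V _ _ hn x hx hxx
  by_contra hcon
  push Not at hcon
  have hnp : ∀ z, Ch x z → ¬ Pent z := fun z hz => hcon z hz (hz.good hx hxx).1
  apply no_bad hx hxx hnp
  intro y hy a b hab
  obtain ⟨hyM, hyy⟩ := hy.good hx hxx
  have hb := MetP_bound hyM s(a, b)
  have key : ¬ (y s(a, b) = 0 ∨ y s(a, b) = 1) := by
    intro h01
    obtain ⟨z, hz1, hz2, hz3⟩ := contract hab hyM hyy h01 (by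
      intro x' hx' hrel'
      have hlt : Fintype.card {v : V // v ≠ b} < n := by
        rw [← hn]
        exact Fintype.card_subtype_lt (x := b) (by simp)
      exact ih _ hlt {v : V // v ≠ b} rfl x' hx' hrel')
    exact hcon z (hy.trans hz1) hz2 hz3
  rw [not_or] at key
  exact ⟨lt_of_le_of_ne hb.1 (Ne.symm key.1), lt_of_le_of_ne hb.2 key.2⟩

theorem mainClaim : MainClaim := by
  intro V _ _ x hx hxx
  exact main_aux _ V rfl x hx hxx

end Hyp

end Pool.Agent.Helper57.Met
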